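import Pool.Agent.J4H73.CG.Disc
import Pool.Agent.Cov.PNT
import Pool.Agent.N690.SP.SPT
import Pool.Agent.H378R2.M7e

/-! The prime number theorem with tent weights. -/

set_option autoImplicit false

open Finset Filter Topology

namespace Pool.Agent.J4H73.CG

theorem abel_dec (b : ℕ → ℝ) (g : ℕ → ℝ) (ε C : ℝ) (hε : 0 ≤ ε) (hC : 0 ≤ C)
    (hB : ∀ N : ℕ, |∑ n ∈ Icc 1 N, b n| ≤ ε * N + C) (N : ℕ) (hN : 1 ≤ N)
    (hg0 : ∀ n ∈ Icc 1 N, 0 ≤ g n) (hg : ∀ n : ℕ, 1 ≤ n → n + 1 ≤ N → g (n + 1) ≤ g n) :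
    |∑ n ∈ Icc 1 N, b n * g n| ≤ ε * ∑ n ∈ Icc 1 N, g n + C * g 1 := by
  have key : ∀ M : ℕ, 1 ≤ M → M ≤ N → |∑ n ∈ Icc 1 M, b n * g n - (∑ n ∈ Icc 1 M, b n) * g M| ≤
      ε * ∑ n ∈ Icc 1 M, g n + C * g 1 - (ε * M + C) * g M := by
    intro M hM
    induction M, hM using Nat.le_induction with
    | base => intro _; simp; linarith
    | succ M hM ih =>
      intro hMN
      have h1 := ih (by omega)
      have h2 := hB M
      have h3 := hg M hM hMN
      rw [Finset.sum_Icc_succ_top (by omega), Finset.sum_Icc_succ_top (by omega),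
        Finset.sum_Icc_succ_top (by omega)]
      set s1 := ∑ n ∈ Icc 1 M, b n * g n
      set s2 := ∑ n ∈ Icc 1 M, b n
      set s3 := ∑ n ∈ Icc 1 M, g n
      have e : s1 + b (M + 1) * g (M + 1) - (s2 + b (M + 1)) * g (M + 1) =
          (s1 - s2 * g M) + s2 * (g M - g (M + 1)) := by ring
      rw [e]
      have h4 : |s2 * (g M - g (M + 1))| ≤ (ε * M + C) * (g M - g (M + 1)) := by
        rw [abs_mul, abs_of_nonneg (show 0 ≤ g M - g (M + 1) by linarith)]
        exact mul_le_mul_of_nonneg_right h2 (by linarith)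
      refine (abs_add_le _ _).trans ?_
      push_cast
      linarith
  have h1 := key N hN le_rfl
  have h2 : |(∑ n ∈ Icc 1 N, b n) * g N| ≤ (ε * N + C) * g N := by
    have h3 := hg0 N (mem_Icc.2 ⟨hN, le_rfl⟩)
    rw [abs_mul, abs_of_nonneg h3]
    exact mul_le_mul_of_nonneg_right (hB N) h3
  have h3 : ∑ n ∈ Icc 1 N, b n * g n = (∑ n ∈ Icc 1 N, b n * g n - (∑ n ∈ Icc 1 N, b n) * g N) +
      (∑ n ∈ Icc 1 N, b n) * g N := by ring
  rw [h3]
  refine (abs_add_le _ _).trans ?_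
  linarith

/-- from the counting function to ramps -/
theorem ramp_asymp (a : ℕ → ℝ) (h : Tendsto (fun N : ℕ => (∑ n ∈ Icc 1 N, a n) / N) atTop (𝓝 1)) :
    Tendsto (fun x : ℝ => (∑ n ∈ Icc 1 ⌊x⌋₊, a n * Real.log (x / n)) / x) atTop (𝓝 1) := by
  rw [Metric.tendsto_atTop]
  intro η hη
  have h1 := Metric.tendsto_atTop.1 h (η / 4) (by positivity)
  obtain ⟨N0, hN0⟩ := h1
  set C : ℝ := ∑ n ∈ Icc 1 N0, (|a n| + 1) with hC
  have hC0 : 0 ≤ C := sum_nonneg fun n _ => by positivity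
  have hB : ∀ N : ℕ, |∑ n ∈ Icc 1 N, (a n - 1)| ≤ η / 4 * N + C := by
    intro N
    rcases le_total N0 N with hN | hN
    · rcases Nat.eq_zero_or_pos N with h0 | h0
      · subst h0; simp; exact hC0
      · have h2 := hN0 N hN
        rw [Real.dist_eq] at h2
        have hNr : (0 : ℝ) < N := by exact_mod_cast h0
        have e : ∑ n ∈ Icc 1 N, (a n - 1) = ((∑ n ∈ Icc 1 N, a n) / N - 1) * N := by
          rw [sum_sub_distrib, sum_const, Nat.card_Icc, nsmul_eq_mul, mul_one, Nat.add_sub_cancel]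
          field_simp
        rw [e, abs_mul, abs_of_pos hNr]
        have := mul_le_mul_of_nonneg_right h2.le hNr.le
        linarith
    · have h2 : |∑ n ∈ Icc 1 N, (a n - 1)| ≤ C := by
        refine (abs_sum_le_sum_abs _ _).trans ?_
        rw [hC]
        refine le_trans ?_ (sum_le_sum_of_subset_of_nonneg (Icc_subset_Icc_right hN) fun n _ _ => by positivity)
        apply sum_le_sum
        intro n _
        have := abs_sub (a n) 1
        rwa [abs_one] at this
      have : 0 ≤ η / 4 * N := by positivity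
      linarith
  have hlog : ∀ᶠ x : ℝ in atTop, (C + 1) * Real.log x ≤ η / 4 * x := by
    have h2 := (Real.isLittleO_pow_log_id_atTop (n := 1)).def (show (0 : ℝ) < η / (4 * (C + 1)) by positivity)
    filter_upwards [h2, eventually_ge_atTop (1 : ℝ)] with t ht h1
    rw [pow_one, Real.norm_eq_abs, abs_of_nonneg (Real.log_nonneg h1), Real.norm_eq_abs, id,
      abs_of_nonneg (by linarith), div_mul_eq_mul_div, le_div_iff₀ (by positivity)] at ht
    linarith
  obtain ⟨x0, hx0⟩ := eventually_atTop.1 (hlog.and (eventually_ge_atTop (max 1 (16 / η))))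
  refine ⟨x0, fun x hx => ?_⟩
  obtain ⟨g1, g2⟩ := hx0 x hx
  have hx1 : 1 ≤ x := (le_max_left _ _).trans g2
  have hxη : 16 / η ≤ x := (le_max_right _ _).trans g2
  rw [div_le_iff₀ hη] at hxη
  have hx0' : 0 < x := by linarith
  have hL0 : 0 ≤ Real.log x := Real.log_nonneg hx1
  have hN1 : 1 ≤ ⌊x⌋₊ := by rwa [Nat.one_le_floor_iff]
  obtain ⟨a1, a2⟩ := Pool.Agent.N690.SP.al_bounds x hx1
  have hk := abel_dec (fun n => a n - 1) (fun n => Real.log (x / n)) (η / 4) C (by positivity) hC0 hB ⌊x⌋₊ hN1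
    (by
      intro n hn
      rw [mem_Icc] at hn
      have hn0 : (0 : ℝ) < n := by exact_mod_cast hn.1
      have hnx : (n : ℝ) ≤ x := (Nat.le_floor_iff (by linarith)).1 hn.2
      exact Real.log_nonneg (by rw [le_div_iff₀ hn0]; linarith)) (by
      intro n hn _
      have hn0 : (0 : ℝ) < n := by exact_mod_cast hn
      apply Real.log_le_log (by positivity)
      push_cast
      gcongr
      linarith)
  simp only [Nat.cast_one, div_one] at hk
  have e : ∑ n ∈ Icc 1 ⌊x⌋₊, (a n - 1) * Real.log (x / n) =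
      ∑ n ∈ Icc 1 ⌊x⌋₊, a n * Real.log (x / n) - ∑ n ∈ Icc 1 ⌊x⌋₊, Real.log (x / n) := by
    rw [← sum_sub_distrib]
    apply sum_congr rfl
    intro n _
    ring
  rw [e] at hk
  rw [Real.dist_eq]
  have e2 : (∑ n ∈ Icc 1 ⌊x⌋₊, a n * Real.log (x / n)) / x - 1 =
      (∑ n ∈ Icc 1 ⌊x⌋₊, a n * Real.log (x / n) - x) / x := by field_simp
  rw [e2, abs_div, abs_of_pos hx0', div_lt_iff₀ hx0']
  have h3 : |∑ n ∈ Icc 1 ⌊x⌋₊, a n * Real.log (x / n) - x| ≤ η / 4 * x + (C + 1) * Real.log x + 2 := by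
    rw [abs_le] at hk ⊢
    have h4 : η / 4 * ∑ n ∈ Icc 1 ⌊x⌋₊, Real.log (x / n) ≤ η / 4 * x := mul_le_mul_of_nonneg_left a1 (by positivity)
    constructor <;> linarith [hk.1, hk.2]
  have h5 : 2 < η / 4 * x := by linarith
  linarith

theorem psi_nat : Tendsto (fun N : ℕ => (∑ n ∈ Icc 1 N, ArithmeticFunction.vonMangoldt n) / N) atTop (𝓝 1) := by
  have h := Pool.Agent.Cov.PNT.psi_div_tendsto.comp tendsto_natCast_atTop_atTop
  refine h.congr fun N => ?_
  simp only [Function.comp]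
  congr 1
  unfold Chebyshev.psi
  rw [Nat.floor_natCast]
  rfl

theorem theta_nat : Tendsto (fun N : ℕ => (∑ n ∈ Icc 1 N, if n.Prime then Real.log n else 0) / N) atTop (𝓝 1) := by
  have h := Pool.Agent.Cov.PNT.theta_div_tendsto.comp tendsto_natCast_atTop_atTop
  refine h.congr fun N => ?_
  simp only [Function.comp]
  congr 1
  unfold Chebyshev.theta
  rw [Nat.floor_natCast, sum_filter]
  rfl

/-- the limit constant -/
noncomputable def kap (d : ℝ) : ℝ := Real.exp (1 / 2 - d) - 2 * Real.exp (1 / 2) + Real.exp (1 / 2 + d)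

theorem kap_pos (d : ℝ) (hd : 0 < d) : 0 < kap d := by
  unfold kap
  have h1 : Real.exp (1 / 2 - d) = Real.exp (1 / 2) * Real.exp (-d) := by rw [← Real.exp_add]; congr 1
  have h2 : Real.exp (1 / 2 + d) = Real.exp (1 / 2) * Real.exp d := by rw [← Real.exp_add]
  have h3 : Real.exp (-d) * Real.exp d = 1 := by rw [← Real.exp_add]; simp
  have h4 : 1 < Real.exp d := by
    have := Real.add_one_le_exp d
    linarith
  have h5 : 0 < Real.exp (-d) := Real.exp_pos _
  have h6 : 2 < Real.exp (-d) + Real.exp d := by nlinarith [sq_nonneg (Real.exp d - 1)]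
  rw [h1, h2]
  have := Real.exp_pos (1 / 2 : ℝ)
  nlinarith

/-- tents -/
theorem tent_asymp (a : ℕ → ℝ) (h : Tendsto (fun N : ℕ => (∑ n ∈ Icc 1 N, a n) / N) atTop (𝓝 1))
    (d : ℝ) (hd0 : 0 ≤ d) (hd : d ≤ 1 / 2) :
    Tendsto (fun X : ℝ => (∑ n ∈ Icc 1 ⌊3 * X⌋₊, Ps d X n * a n) / X) atTop (𝓝 (kap d)) := by
  obtain ⟨g1, g2, g3, g4, g5, g6⟩ := exp_facts d hd0 hd
  have hr := ramp_asymp a h
  have hc : ∀ c : ℝ, 0 < c → Tendsto (fun X : ℝ => (∑ n ∈ Icc 1 ⌊c * X⌋₊, a n * Real.log (c * X / n)) / X)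
      atTop (𝓝 c) := by
    intro c hc
    have h1 : Tendsto (fun X : ℝ => c * X) atTop atTop := tendsto_id.const_mul_atTop hc
    have h2 := (hr.comp h1).const_mul c
    rw [mul_one] at h2
    refine h2.congr' ?_
    filter_upwards [eventually_gt_atTop 0] with X hX
    simp only [Function.comp]
    field_simp
  have h3 := ((hc _ (Real.exp_pos (1 / 2 - d))).sub ((hc _ (Real.exp_pos (1 / 2))).const_mul 2)).add
    (hc _ (Real.exp_pos (1 / 2 + d)))
  refine h3.congr' ?_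
  filter_upwards [eventually_gt_atTop 0] with X hX
  have hmax : ∀ c : ℝ, 0 < c → c ≤ 3 → ∑ n ∈ Icc 1 ⌊c * X⌋₊, a n * Real.log (c * X / n) =
      ∑ n ∈ Icc 1 ⌊3 * X⌋₊, a n * max 0 (Real.log (c * X / n)) := by
    intro c hc hc3
    have hsub : Icc 1 ⌊c * X⌋₊ ⊆ Icc 1 ⌊3 * X⌋₊ := Icc_subset_Icc_right
      (Nat.floor_le_floor (mul_le_mul_of_nonneg_right hc3 hX.le))
    have hx : 0 < c * X := by positivity
    rw [← sum_subset hsub]
    · apply sum_congr rfl
      intro n hn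
      rw [mem_Icc] at hn
      have hn0 : (0:ℝ) < n := by exact_mod_cast hn.1
      have hnx : (n:ℝ) ≤ c * X := (Nat.cast_le.mpr hn.2).trans (Nat.floor_le hx.le)
      have : 0 ≤ Real.log (c * X / n) := Real.log_nonneg (by rw [le_div_iff₀ hn0]; linarith)
      rw [max_eq_right this]
    · intro n hn hn'
      rw [mem_Icc] at hn hn'
      have hn0 : (0:ℝ) < n := by exact_mod_cast hn.1
      have h1 : ⌊c * X⌋₊ < n := by
        by_contra h
        exact hn' ⟨hn.1, by omega⟩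
      have hnx : c * X < n := (Nat.floor_lt hx.le).mp h1
      have : Real.log (c * X / n) ≤ 0 := Real.log_nonpos (by positivity)
        (by rw [div_le_one hn0]; linarith)
      rw [max_eq_left this]
      simp
  rw [hmax _ (Real.exp_pos _) g4, hmax _ (Real.exp_pos _) g5, hmax _ (Real.exp_pos _) g6, mul_div_assoc',
    ← sub_div, ← add_div, mul_sum, ← sum_sub_distrib, ← sum_add_distrib]
  congr 1
  apply sum_congr rfl
  intro n hn
  rw [mem_Icc] at hn
  rw [Ps_eq d X n hd0 hX (by omega)]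
  ring

theorem LPs_asymp (d : ℝ) (hd0 : 0 ≤ d) (hd : d ≤ 1 / 2) :
    Tendsto (fun X : ℝ => LPs d X / X) atTop (𝓝 (kap d)) :=
  tent_asymp _ psi_nat d hd0 hd

theorem LPs_half (X : ℝ) : LPs (1 / 2) X = Pool.Agent.H378R2.LPhi X := rfl

end Pool.Agent.J4H73.CG
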