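import Pool.Agent.J4H73.CG.SurvZ

/-! Integer shifts: the survivors, the exceptional prime, the squares. -/

set_option autoImplicit false

open Finset Filter

namespace Pool.Agent.J4H73.CG

open Pool.Agent.H378R2 Pool.Agent.H378R2.LSBV Pool.Agent.N610.AP Pool.Agent.Y882
open Pool.Agent.J4H73.BV Pool.Agent.J4H73.CH
open Pool.Agent.H312R2.RG (ClassB ClassA tot)
open Pool.Agent.W23.DC (Mer pr)
open Pool.Agent


theorem count_dvd (N k : ℕ) (h : ℤ) (hk : 0 < k) :
    (((Icc 1 N).filter (fun n : ℕ => (k : ℤ) ∣ n + h)).card : ℝ) ≤ N / k + 1 := by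
  have e : (Icc 1 N).filter (fun n : ℕ => (k : ℤ) ∣ n + h) = (Ioc 0 N).filter (fun n => n ≡ rz h k [MOD k]) := by
    ext n
    rw [mem_filter, mem_filter, mem_Icc, mem_Ioc, ← rz_iff h k n hk]
    unfold Nat.ModEq
    rw [Nat.mod_eq_of_lt (rz_lt h k hk)]
    rfl
  rw [e]
  have h1 := Pool.Agent.Helper112.TII.count_class 0 N k (rz h k) hk (Nat.zero_le N)
  simpa using h1

open Classical in
theorem excZ : ∃ C0 : ℕ, 1 ≤ C0 ∧ ∀ δ : ℝ, 0 < δ → ∃ C : ℝ, 0 < C ∧
    ∀ᶠ X : ℝ in atTop, ∀ (ps : ℕ) (S : Finset ℕ), GoodP C0 ps → GoodS X S → ps.Prime →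
    ∀ J : ℕ, 1 ≤ J → X ^ δ ≤ 2 ^ 2 ^ J → ((2 ^ 2 ^ J) ^ (C0 * C0) : ℕ) ≤ ⌊Real.exp (2 * LL X)⌋₊ →
    (J : ℝ) + 2 ≤ 2 * Real.log X →
    ∀ (r : ℕ) (h : ℤ),
    ∑ n ∈ (Icc 1 ⌊3 * X⌋₊).filter (fun n => n ≡ r [MOD WW X S ps] ∧ (ps : ℤ) ∣ n + h ∧ n.Prime ∧
        ∀ p ∈ N610.AP.PZ X S ps J, ¬ (p : ℤ) ∣ n + h),
        Phi (n / X) * ArithmeticFunction.vonMangoldt n ≤
      C / ps * (LPhi X / (WW X S ps).totient *
        ∏ p ∈ N610.AP.PZ X S ps J, (1 - gh (WW X S ps) ps h.natAbs p)) + X ^ (199 / 200 : ℝ) := by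
  obtain ⟨C0, hC0, HA⟩ := siftA 2
  refine ⟨C0, hC0, ?_⟩
  intro δ hδ
  obtain ⟨CM, hCM, Hup⟩ := prod_upper
  refine ⟨2400 * CM / δ, by positivity, ?_⟩
  have t1 := Real.tendsto_log_atTop
  have t2 : Tendsto (fun y : ℝ => Real.log (Real.log y)) atTop atTop := t1.comp t1
  have t3 : ∀ᶠ X : ℝ in atTop, Real.log X ≤ X ^ δ := by
    have h := (isLittleO_log_rpow_atTop hδ).def (show (0 : ℝ) < 1 by norm_num)
    filter_upwards [h, eventually_ge_atTop (1 : ℝ)] with t ht h1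
    rw [Real.norm_eq_abs, abs_of_nonneg (Real.log_nonneg h1), Real.norm_eq_abs,
      abs_of_nonneg (by positivity), one_mul] at ht
    exact ht
  filter_upwards [LPhi_ge, eventually_ge_atTop 4, t1.eventually_ge_atTop 100,
    t1.eventually_ge_atTop (1000 * C0), t2.eventually_ge_atTop (C0 + 1), t3,
    Pool.Agent.H398R2.BV.ev_log 20 2 (1 / 1000) (by norm_num)] with X hLP hX4 hL100 hLZ hL2Z hyJ' hev
  intro ps S hps hS hpp J hJ1 hJδ hJC hJL r h
  set L := Real.log X with hL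
  set W := WW X S ps with hW
  have hW0 : 0 < W := H378R2.WW_pos X S ps
  have hWr : (0 : ℝ) < W := by exact_mod_cast hW0
  have hX0 : 0 < X := by linarith
  have hX1 : 1 ≤ X := by linarith
  have hL0 : 0 < L := by linarith
  have hφ0 : (0 : ℝ) < W.totient := by exact_mod_cast Nat.totient_pos.2 hW0
  have hps0 : (0 : ℝ) < ps := by exact_mod_cast hpp.pos
  set P := N610.AP.PZ X S ps J with hP
  have hPZ : ∀ p ∈ P, C0 < p := by
    intro p hp
    by_contra h
    push Not at h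
    exact (mem_PZ.1 hp).2.2.1 (Pool.Agent.TH101.RG.small_mem_PW hLZ hL2Z hps le_rfl hS (mem_PZ.1 hp).1 h)
  set PG := ∏ p ∈ P, (1 - gh W ps h.natAbs p) with hPG
  have hPG0 : 0 ≤ PG := prod_nonneg fun p hp => (gh_le_one W ps h.natAbs p (mem_PZ.1 hp).1).1
  have hLP0 : 0 ≤ LPhi X := by
    have : 0 ≤ X / 200 := by positivity
    linarith
  -- the logarithm
  have hℓL : Real.log (3 * X) ≤ 2 * L := by
    rw [Real.log_mul (by norm_num) hX0.ne']
    have : Real.log 3 ≤ Real.log X := Real.log_le_log (by norm_num) (by linarith)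
    linarith
  have hℓ0 : 0 ≤ Real.log (3 * X) := Real.log_nonneg (by linarith)
  set F := (Icc 1 ⌊3 * X⌋₊).filter (fun n => n ≡ r [MOD W] ∧ (ps : ℤ) ∣ n + h ∧ n.Prime ∧
        ∀ p ∈ P, ¬ (p : ℤ) ∣ n + h) with hF
  have hlam : ∀ n ∈ F, Phi (n / X) * ArithmeticFunction.vonMangoldt n ≤ 2 * L * Phi (n / X) := by
    intro n hn
    rw [hF, mem_filter, mem_Icc] at hn
    have h1 : ArithmeticFunction.vonMangoldt n ≤ 2 * L := by
      refine ArithmeticFunction.vonMangoldt_le_log.trans (le_trans ?_ hℓL)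
      apply Real.log_le_log (by exact_mod_cast hn.1.1)
      exact (Nat.le_floor_iff (by linarith)).1 hn.1.2
    rw [mul_comm]
    exact mul_le_mul_of_nonneg_right h1 (LSBV.Phi_nonneg _)
  refine (sum_le_sum hlam).trans ?_
  rw [← mul_sum]
  by_cases hpsX : (ps : ℝ) ≤ X ^ (1 / 100 : ℝ)
  · -- the sieve
    have hpsW : ¬ ps ∣ W := fun hd => (mem_PW.1 ((prime_dvd_WW hpp).1 hd)).2.2.2 rfl
    obtain ⟨b₀, hb₀⟩ := crt_class W r {ps} (fun p => rz h p)
      (fun p hp => by rw [mem_singleton] at hp; rw [hp]; exact ⟨hpp, hpsW⟩)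
      (fun p hp => by rw [mem_singleton] at hp; rw [hp]; exact rz_lt _ _ hpp.pos)
    rw [prod_singleton] at hb₀
    obtain ⟨h', hh'⟩ := exists_nat_shift h P (fun p hp => (mem_PZ.1 hp).1.pos)
    set t : Fin 2 → ℕ := ![0, h'] with ht
    have ht0 : t 0 = 0 := rfl
    have ht1 : t 1 = h' := rfl
    have hdv : ∀ p n : ℕ, 0 < p → (n % p = dres p 0 h' ↔ p ∣ n + h') := by
      intro p n hp
      rw [mod_eq_dres p 0 h' n hp]
      have e : (n : ℤ) + (h' : ℤ) - ((0 : ℕ) : ℤ) = ((n + h' : ℕ) : ℤ) := by push_cast; ring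
      rw [e]
      exact_mod_cast Iff.rfl
    have hXe : Real.exp (2 * LL X) = X ^ (1 / 100 : ℝ) := by
      rw [Real.rpow_def_of_pos hX0]
      congr 1
      unfold LL
      ring
    have hWX : (W : ℝ) ≤ X ^ (7 / 5000 : ℝ) :=
      le_trans (by exact_mod_cast Nat.le_of_dvd (primorial_pos _) (WW_dvd_primorial X S ps))
        (primorial_yy_le' X hX1)
    have hcl : ClassAg X W ps ps t (fun _ => (1 : ℝ)) 1 (fun _ => 5) := by
      intro q b hq _
      rw [mem_QQ] at hq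
      have hq0 : 0 < q := hq.1.1
      have hqX : (q : ℝ) ≤ X ^ (1 / 100 : ℝ) := by
        rw [← hXe]
        exact (Nat.le_floor_iff (Real.exp_pos _).le).1 hq.1.2
      have h1 := phi_sum_class X hX4 (W * ps * q) b (Nat.mul_pos (Nat.mul_pos hW0 hpp.pos) hq0) (by
        push_cast
        calc (W : ℝ) * ps * q ≤ X ^ (7 / 5000 : ℝ) * X ^ (1 / 100 : ℝ) * X ^ (1 / 100 : ℝ) := by gcongr
          _ = X ^ (7 / 5000 + 1 / 100 + 1 / 100 : ℝ) := by
              rw [← Real.rpow_add hX0, ← Real.rpow_add hX0]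
          _ ≤ X ^ (1 : ℝ) := Real.rpow_le_rpow_of_exponent_le hX1 (by norm_num)
          _ = X := Real.rpow_one X)
      refine le_trans (le_of_eq ?_) h1
      simp only [mul_one, one_mul]
      congr 2
      push_cast
      rw [mul_assoc, one_div_mul_one_div]
    have hsA := HA C0 J X ps S le_rfl hpp hPZ hJC t b₀ (fun _ => 1) 1 (fun _ => 5)
      (fun _ => zero_le_one) zero_le_one (fun _ => by norm_num) hcl
    rw [← hP, ← hW] at hsA
    have hsub : ∑ n ∈ F, Phi (n / X) ≤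
        ∑ n ∈ ((Icc 1 ⌊3 * X⌋₊).filter (fun n => n ≡ b₀ [MOD W * ps])).filter
          (fun n => ∀ p ∈ P, n % p ∉ OmA t p), Phi (n / X) * (fun _ => (1 : ℝ)) (n : ℤ) := by
      simp only [mul_one]
      rw [← sum_filter_add_sum_filter_not F (fun n : ℕ => X < n)]
      have e0 : ∑ n ∈ F.filter (fun n : ℕ => ¬ X < n), Phi (n / X) = 0 := by
        apply sum_eq_zero
        intro n hn
        by_contra hc
        exact (mem_filter.1 hn).2 (Phi_supp X hX0 n hc)
      rw [e0, add_zero]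
      apply sum_le_sum_of_subset_of_nonneg
      · intro n hn
        rw [mem_filter, hF, mem_filter] at hn
        obtain ⟨⟨hn1, hn2, hn3, hn4, hn5⟩, hn6⟩ := hn
        rw [mem_filter, mem_filter]
        refine ⟨⟨hn1, ?_⟩, ?_⟩
        · rw [← hb₀ n]
          refine ⟨hn2, ?_⟩
          intro p hp
          rw [mem_singleton] at hp
          rw [hp]
          exact (rz_iff h ps n hpp.pos).2 hn3
        · intro p hp hmem
          have hpz := mem_PZ.1 hp
          obtain ⟨l, hl⟩ := (mod_mem_OmA t p n hpz.1.pos).1 hmem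
          fin_cases l
          · have h2 : p ∣ n := by simpa [ht] using hl
            have h3 := (Nat.prime_dvd_prime_iff_eq hpz.1 hn4).1 h2
            have h4 : (2 ^ 2 ^ J : ℕ) ≤ ⌊Real.exp (2 * LL X)⌋₊ :=
              le_trans (Nat.le_self_pow (by positivity) _) hJC
            have h5 : (n : ℝ) ≤ X ^ (1 / 100 : ℝ) := by
              rw [← hXe]
              refine (Nat.le_floor_iff (Real.exp_pos _).le).1 ?_
              rw [← h3]
              exact hpz.2.1.trans h4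
            have h6 : X ^ (1 / 100 : ℝ) ≤ X := by
              calc X ^ (1 / 100 : ℝ) ≤ X ^ (1 : ℝ) := Real.rpow_le_rpow_of_exponent_le hX1 (by norm_num)
                _ = X := Real.rpow_one X
            linarith
          · exact hn5 p hp ((hh' p hp n).1 (by simpa [ht] using hl))
      · intro n _ _
        exact LSBV.Phi_nonneg _
    have hOA : ∀ p ∈ P, 0 ≤ 1 - ((OmA t p).card : ℝ) * (1 / (p : ℝ)) := by
        intro p hp
        have hpz := mem_PZ.1 hp
        have hp0 : (0 : ℝ) < p := by exact_mod_cast hpz.1.pos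
        have h1 : (OmA t p).card ≤ p := by
          have : OmA t p ⊆ range p := by
            intro a ha
            unfold OmA at ha
            rw [mem_image] at ha
            obtain ⟨l, _, rfl⟩ := ha
            exact mem_range.2 (dres_lt _ _ _ hpz.1.pos)
          have := card_le_card this
          rwa [card_range] at this
        have h2 : ((OmA t p).card : ℝ) ≤ p := by exact_mod_cast h1
        rw [sub_nonneg, mul_one_div, div_le_one hp0]
        exact h2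
    have hOA0 : 0 ≤ ∏ p ∈ P, (1 - ((OmA t p).card : ℝ) * (1 / (p : ℝ))) := prod_nonneg hOA
    have hprod : ∏ p ∈ P, (1 - ((OmA t p).card : ℝ) * (1 / (p : ℝ))) ≤
        (∏ p ∈ P, (1 - 1 / (p : ℝ))) * PG := by
      rw [hPG, ← prod_mul_distrib]
      apply Finset.prod_le_prod
      · exact hOA
      · intro p hp
        have hpz := mem_PZ.1 hp
        rw [dens_id t 0 p hpz.1]
        apply mul_le_mul_of_nonneg_left _ (fac_nn hpz.1).1
        have hp2 : (2 : ℝ) ≤ p := by exact_mod_cast hpz.1.two_le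
        have hp1 : (0 : ℝ) < (p : ℝ) - 1 := by linarith
        have hpW : ¬ p ∣ W := fun hd => hpz.2.2.1 ((prime_dvd_WW hpz.1).1 hd)
        have hpps : p ≠ ps := hpz.2.2.2
        have hv0 : 0 ≤ 1 / ((p : ℝ) - 1) := by positivity
        have hz := hh' p hp 0
        rw [zero_add, Nat.cast_zero, zero_add, ← dvd_natAbs_iff] at hz
        unfold gh
        by_cases h1 : p ∣ h.natAbs
        · rw [if_pos (Or.inr (Or.inr h1))]
          have : 0 ≤ ((OmB t 0 p).card : ℝ) * (1 / ((p : ℝ) - 1)) := by positivity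
          linarith
        · rw [if_neg (by push Not; exact ⟨hpW, hpps, h1⟩)]
          have h2 : 1 ≤ (OmB t 0 p).card := by
            apply card_pos.2
            refine ⟨dres p (t 0) (t 1), ?_⟩
            unfold OmB
            rw [mem_erase, mem_image]
            refine ⟨?_, 1, mem_univ _, rfl⟩
            intro h0
            apply h1
            have := (hdv p 0 hpz.1.pos).1 (by
              rw [Nat.zero_mod]
              rw [ht0, ht1] at h0
              exact h0.symm)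
            rw [zero_add] at this
            exact hz.1 this
          have h3 : (1 : ℝ) ≤ ((OmB t 0 p).card : ℝ) := by exact_mod_cast h2
          have := mul_le_mul_of_nonneg_right h3 hv0
          linarith
    -- Mertens
    have hzr : X ^ δ ≤ ((2 ^ 2 ^ J : ℕ) : ℝ) := by push_cast; exact hJδ
    have hyJ : yy X ≤ 2 ^ 2 ^ J := by
      have h1 : (yy X : ℝ) ≤ L / 1000 := Nat.floor_le (by positivity)
      have h2 : (yy X : ℝ) ≤ ((2 ^ 2 ^ J : ℕ) : ℝ) := by linarith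
      exact_mod_cast h2
    have hlz : δ * L ≤ Real.log ((2 ^ 2 ^ J : ℕ) : ℝ) := by
      rw [← Real.log_rpow hX0]
      exact Real.log_le_log (by positivity) hzr
    have hup := Hup X S ps J hJ1 hyJ
    rw [← hP, ← hW] at hup
    set PU := ∏ p ∈ P, (1 - 1 / (p : ℝ)) with hPU
    have hPU0 : 0 ≤ PU := prod_nonneg fun p hp => (fac_nn (mem_PZ.1 hp).1).1
    have hPUle : PU ≤ W / W.totient * (CM / (δ * L)) := by
      rw [div_mul_eq_mul_div, le_div_iff₀ hφ0]
      calc PU * W.totient = W.totient * PU := by ring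
        _ ≤ W * (CM / Real.log ((2 ^ 2 ^ J : ℕ) : ℝ)) := hup
        _ ≤ W * (CM / (δ * L)) := by gcongr
    obtain ⟨hM0, hM3⟩ := MPhi_triv X hX0.le
    have hmain : 2 * L * ((1 + (1 / 2 : ℝ) ^ C0) * (1 * (MPhi X * (1 / ((W : ℝ) * ps))) *
        ∏ p ∈ P, (1 - ((OmA t p).card : ℝ) * (1 / (p : ℝ))))) ≤
        2400 * CM / δ / ps * (LPhi X / W.totient * PG) := by
      have e1 : (1 + (1 / 2 : ℝ) ^ C0) ≤ 2 := by
        have := pow_le_one₀ (show (0 : ℝ) ≤ 1 / 2 by norm_num) (show (1 / 2 : ℝ) ≤ 1 by norm_num) (n := C0)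
        linarith
      have e2 : ∏ p ∈ P, (1 - ((OmA t p).card : ℝ) * (1 / (p : ℝ))) ≤
          W / W.totient * (CM / (δ * L)) * PG := hprod.trans (mul_le_mul_of_nonneg_right hPUle hPG0)
      have e3 : MPhi X ≤ 600 * LPhi X := by linarith
      calc _ ≤ 2 * L * (2 * (1 * ((600 * LPhi X) * (1 / ((W : ℝ) * ps))) *
            (W / W.totient * (CM / (δ * L)) * PG))) := by gcongr
        _ = _ := by field_simp; ring
    have htot : tot 2 X W ps (fun _ => 5) ≤ 5 * X ^ (1 / 20 : ℝ) := by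
      unfold tot
      rw [hXe]
      have e1 : ∀ q ∈ QQ W ps ⌊X ^ (1 / 100 : ℝ)⌋₊, (q.divisors.card : ℝ) ^ (2 * 2) * 5 ≤
          5 * X ^ (1 / 25 : ℝ) := by
        intro q hq
        rw [mem_QQ] at hq
        have h1 : (q.divisors.card : ℝ) ≤ X ^ (1 / 100 : ℝ) := by
          have h2 : (q.divisors.card : ℝ) ≤ q := by exact_mod_cast Nat.card_divisors_le_self q
          exact h2.trans ((Nat.le_floor_iff (by positivity)).1 hq.1.2)
        have h3 : (q.divisors.card : ℝ) ^ (2 * 2) ≤ (X ^ (1 / 100 : ℝ)) ^ (2 * 2) :=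
          pow_le_pow_left₀ (Nat.cast_nonneg _) h1 _
        have h4 : (X ^ (1 / 100 : ℝ)) ^ (2 * 2) = X ^ (1 / 25 : ℝ) := by
          rw [← Real.rpow_natCast, ← Real.rpow_mul hX0.le]
          norm_num
        rw [h4] at h3
        linarith
      refine (sum_le_sum e1).trans ?_
      rw [sum_const, nsmul_eq_mul]
      have e2 : ((QQ W ps ⌊X ^ (1 / 100 : ℝ)⌋₊).card : ℝ) ≤ X ^ (1 / 100 : ℝ) := by
        have : (QQ W ps ⌊X ^ (1 / 100 : ℝ)⌋₊).card ≤ ⌊X ^ (1 / 100 : ℝ)⌋₊ := by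
          refine (card_filter_le _ _).trans ?_
          rw [Nat.card_Icc]
          omega
        exact le_trans (by exact_mod_cast this) (Nat.floor_le (by positivity))
      calc ((QQ W ps ⌊X ^ (1 / 100 : ℝ)⌋₊).card : ℝ) * (5 * X ^ (1 / 25 : ℝ)) ≤
          X ^ (1 / 100 : ℝ) * (5 * X ^ (1 / 25 : ℝ)) := by gcongr
        _ = 5 * (X ^ (1 / 100 : ℝ) * X ^ (1 / 25 : ℝ)) := by ring
        _ = 5 * X ^ (1 / 20 : ℝ) := by rw [← Real.rpow_add hX0]; norm_num
    have htot0 : 0 ≤ tot 2 X W ps (fun _ => 5) := by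
      unfold tot
      exact sum_nonneg fun q _ => by positivity
    have herr : 2 * L * (((J : ℝ) + 2) * tot 2 X W ps (fun _ => 5)) ≤ X ^ (199 / 200 : ℝ) := by
      calc 2 * L * (((J : ℝ) + 2) * tot 2 X W ps (fun _ => 5)) ≤ 2 * L * ((2 * L) * (5 * X ^ (1 / 20 : ℝ))) := by
            gcongr
        _ = (20 * L ^ 2) * X ^ (1 / 20 : ℝ) := by ring
        _ ≤ X ^ (1 / 1000 : ℝ) * X ^ (1 / 20 : ℝ) := by gcongr
        _ = X ^ (1 / 1000 + 1 / 20 : ℝ) := by rw [← Real.rpow_add hX0]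
        _ ≤ _ := Real.rpow_le_rpow_of_exponent_le hX1 (by norm_num)
    have h9 := hsub.trans hsA
    have h10 := mul_le_mul_of_nonneg_left h9 (show 0 ≤ 2 * L by positivity)
    rw [mul_add] at h10
    linarith
  · -- trivial
    push Not at hpsX
    have hcount : ∑ n ∈ F, Phi (n / X) ≤ 4 * X / ps + 1 := by
      have e1 : ∑ n ∈ F, Phi (n / X) ≤ (F.card : ℝ) := by
        calc ∑ n ∈ F, Phi (n / X) ≤ ∑ n ∈ F, (1 : ℝ) := sum_le_sum fun n _ => LSBV.Phi_le_one _
          _ = _ := by rw [sum_const]; simp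
      refine e1.trans ?_
      have e2 : (F.card : ℝ) ≤ ⌊3 * X⌋₊ / ps + 1 := by
        refine le_trans ?_ (count_dvd ⌊3 * X⌋₊ ps h hpp.pos)
        have h1 : F ⊆ (Icc 1 ⌊3 * X⌋₊).filter (fun n : ℕ => (ps : ℤ) ∣ n + h) := by
          intro n hn
          rw [hF, mem_filter] at hn
          rw [mem_filter]
          exact ⟨hn.1, hn.2.2.1⟩
        exact_mod_cast card_le_card h1
      refine e2.trans ?_
      have h1 : (⌊3 * X⌋₊ : ℝ) ≤ 3 * X := Nat.floor_le (by linarith)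
      have h2 : (⌊3 * X⌋₊ : ℝ) / ps ≤ 4 * X / ps := by
        apply div_le_div_of_nonneg_right _ hps0.le
        linarith
      linarith
    have hRHS : 0 ≤ 2400 * CM / δ / ps * (LPhi X / W.totient * PG) := by positivity
    have e6 : 4 * X / ps + 1 ≤ 5 * X ^ (99 / 100 : ℝ) := by
      have h1 : 4 * X / ps ≤ 4 * X / X ^ (1 / 100 : ℝ) := by gcongr
      have h2 : 4 * X / X ^ (1 / 100 : ℝ) = 4 * X ^ (99 / 100 : ℝ) := by
        rw [div_eq_iff (by positivity), mul_assoc, ← Real.rpow_add hX0]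
        norm_num
      have h3 : 1 ≤ X ^ (99 / 100 : ℝ) := Real.one_le_rpow hX1 (by norm_num)
      linarith
    have e7 : 2 * L * (5 * X ^ (99 / 100 : ℝ)) ≤ X ^ (199 / 200 : ℝ) := by
      calc 2 * L * (5 * X ^ (99 / 100 : ℝ)) = (10 * L) * X ^ (99 / 100 : ℝ) := by ring
        _ ≤ (20 * L ^ 2) * X ^ (99 / 100 : ℝ) := by
            apply mul_le_mul_of_nonneg_right _ (by positivity)
            nlinarith
        _ ≤ X ^ (1 / 1000 : ℝ) * X ^ (99 / 100 : ℝ) := by gcongr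
        _ = X ^ (1 / 1000 + 99 / 100 : ℝ) := by rw [← Real.rpow_add hX0]
        _ ≤ _ := Real.rpow_le_rpow_of_exponent_le hX1 (by norm_num)
    have e8 : 2 * L * ∑ n ∈ F, Phi (n / X) ≤ 2 * L * (5 * X ^ (99 / 100 : ℝ)) :=
      mul_le_mul_of_nonneg_left (hcount.trans e6) (by positivity)
    linarith


theorem mer_gnR (ε₁ ζ η : ℝ) (hε : 0 < ε₁) (hζ : ζ ≤ 1) (hη : 0 < η) : ∃ Y0 : ℕ, ∀ Y : ℕ, Y0 ≤ Y →
    ∀ n : ℕ, 1 ≤ n → n ≤ 2 * Y ^ 3 → Mer (pr Y ε₁ ζ) (W23.DC.tt Y) (gn n) ε₁ ζ η := by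
  classical
  obtain ⟨N0, H⟩ := Pool.Agent.W378.DC.MP ε₁ (η / 2) hε (by positivity)
  have h1 : ∀ᶠ Y : ℕ in atTop, 2 * Real.log (2 * Y ^ 3) / ((Y : ℝ) ^ ε₁ - 2) ≤ η / 2 := by
    have h2 : Tendsto (fun y : ℝ => 2 * Real.log (2 * y ^ 3) / (y ^ ε₁ - 2)) atTop (nhds 0) := by
      have h3 : Tendsto (fun y : ℝ => Real.log y / y ^ ε₁) atTop (nhds 0) :=
        (isLittleO_log_rpow_atTop hε).tendsto_div_nhds_zero
      have h4 : Tendsto (fun y : ℝ => (y ^ ε₁)⁻¹) atTop (nhds 0) :=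
        (tendsto_rpow_atTop hε).inv_tendsto_atTop
      have h5 : Tendsto (fun y : ℝ => (2 * (Real.log 2 * (y ^ ε₁)⁻¹ + 3 * (Real.log y / y ^ ε₁))) /
          (1 - 2 * (y ^ ε₁)⁻¹)) atTop (nhds ((2 * (Real.log 2 * 0 + 3 * 0)) / (1 - 2 * 0))) :=
        ((((h4.const_mul _).add (h3.const_mul 3)).const_mul 2).div ((h4.const_mul 2).const_sub 1) (by norm_num))
      rw [show (2 * (Real.log 2 * 0 + 3 * 0)) / (1 - 2 * (0 : ℝ)) = 0 by norm_num] at h5
      refine h5.congr' ?_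
      filter_upwards [eventually_gt_atTop 0, (tendsto_rpow_atTop hε).eventually_gt_atTop 2]
        with y hy hy2
      have h6 : (y ^ ε₁) ≠ 0 := by positivity
      have h7 : y ^ ε₁ - 2 ≠ 0 := by linarith
      rw [Real.log_mul (by norm_num) (by positivity), Real.log_pow]
      field_simp
      push_cast
      ring
    exact tendsto_natCast_atTop_atTop.eventually (h2.eventually_le_const (by positivity))
  have h2 : ∀ᶠ Y : ℕ in atTop, (3 : ℝ) ≤ (Y : ℝ) ^ ε₁ :=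
    tendsto_natCast_atTop_atTop.eventually ((tendsto_rpow_atTop hε).eventually_ge_atTop 3)
  obtain ⟨N1, hN1⟩ := eventually_atTop.1 (h1.and (h2.and (eventually_ge_atTop 2)))
  refine ⟨max N0 N1, fun Y hY n hn hnY => ?_⟩
  obtain ⟨h3, h4, h5⟩ := hN1 Y ((le_max_right _ _).trans hY)
  intro a b ha hab hb
  have hYr : (2 : ℝ) ≤ Y := by exact_mod_cast h5
  have hlY : 0 < Real.log Y := Real.log_pos (by linarith)
  have hset : (pr Y ε₁ ζ).filter (fun p => a ≤ W23.DC.tt Y p ∧ W23.DC.tt Y p < b) = pr Y a b := by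
    unfold pr
    rw [filter_filter]
    apply filter_congr
    intro p _
    constructor
    · rintro ⟨⟨h6, h7, h8⟩, h9, h10⟩
      exact ⟨h6, h9, h10⟩
    · rintro ⟨h6, h9, h10⟩
      exact ⟨⟨h6, ha.trans h9, h10.trans_le hb⟩, h9, h10⟩
  rw [hset]
  have h6 := H Y ((le_max_left _ _).trans hY) a b ha hab (hb.trans hζ)
  have h7 : ∑ p ∈ pr Y a b, gn n p = ∑ p ∈ pr Y a b, 1 / ((p : ℝ) - 1) -
      ∑ p ∈ (pr Y a b).filter (fun p => p ∣ n), 1 / ((p : ℝ) - 1) := by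
    rw [sum_filter, ← sum_sub_distrib]
    apply sum_congr rfl
    intro p _
    unfold gn
    split_ifs <;> simp
  have hlarge : ∀ p ∈ pr Y a b, p.Prime ∧ (Y : ℝ) ^ ε₁ ≤ p := by
    intro p hp
    unfold pr at hp
    rw [mem_filter] at hp
    obtain ⟨h8, h9, h10, h11⟩ := hp
    refine ⟨h9, ?_⟩
    by_contra hc
    push Not at hc
    have := (tt_lt Y p ε₁ (by omega) h9.pos).2 hc
    linarith
  have h8 : ∑ p ∈ (pr Y a b).filter (fun p => p ∣ n), 1 / ((p : ℝ) - 1) ≤ η / 2 := by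
    have h9 := big_pf n (2 * Y ^ 3) hn ((Y : ℝ) ^ ε₁) h4 (by exact_mod_cast hnY)
      ((pr Y a b).filter (fun p => p ∣ n)) (by
        intro p hp
        rw [mem_filter] at hp
        exact Nat.mem_primeFactors.2 ⟨(hlarge p hp.1).1, hp.2, by omega⟩)
      (fun p hp => (hlarge p (mem_filter.1 hp).1).2)
    push_cast at h9
    refine le_trans ?_ (h9.trans h3)
    apply sum_le_sum
    intro p hp
    have := (hlarge p (mem_filter.1 hp).1).2
    exact one_div_le_one_div_of_le (by linarith) (by linarith)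
  have h9 : 0 ≤ ∑ p ∈ (pr Y a b).filter (fun p => p ∣ n), 1 / ((p : ℝ) - 1) := by
    apply sum_nonneg
    intro p hp
    have := (hlarge p (mem_filter.1 hp).1).2
    apply div_nonneg zero_le_one
    linarith
  rw [h7]
  rw [abs_le] at h6 ⊢
  constructor <;> linarith [h6.1, h6.2]

theorem merZ (ε₁ υ η : ℝ) (hε : 0 < ε₁) (hυ : υ ≤ 1 / 2) (hη : 0 < η) : ∀ᶠ X : ℝ in atTop,
    ∀ (ps : ℕ) (S : Finset ℕ), (ps = 1 ∨ ps.Prime) → ∀ h : ℕ, 0 < h → (h : ℝ) ≤ 9 * X →
      Mer (pr ⌊X⌋₊ ε₁ υ) (W23.DC.tt ⌊X⌋₊) (gh (WW X S ps) ps h) ε₁ υ η := by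
  classical
  obtain ⟨Y0, H⟩ := mer_gnR ε₁ υ η hε (by linarith) hη
  filter_upwards [floor_facts, eventually_ge_atTop (Y0 : ℝ), eventually_ge_atTop 100] with X hf hXY0 hX4
  intro ps S hps h hh hhL
  obtain ⟨f1, f2, f3, f4⟩ := hf
  have hX0 : 0 < X := by linarith
  have hX1 : 1 ≤ X := by linarith
  set Y := ⌊X⌋₊ with hY
  have hYY0 : Y0 ≤ Y := Nat.le_floor hXY0
  have hYr : (100 : ℝ) ≤ Y := by exact_mod_cast f1
  set W := WW X S ps with hW
  have hW0 : 0 < W := H378R2.WW_pos X S ps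
  set ps' : ℕ := if ps.Prime ∧ (ps : ℝ) ≤ (Y : ℝ) ^ (1 / 2 : ℝ) then ps else 1 with hps'
  have hps'0 : 0 < ps' := by
    rw [hps']
    split_ifs with h1
    · exact h1.1.pos
    · exact one_pos
  have hps'Y : (ps' : ℝ) ≤ (Y : ℝ) ^ (1 / 2 : ℝ) := by
    rw [hps']
    split_ifs with h1
    · exact h1.2
    · push_cast
      exact Real.one_le_rpow (by linarith) (by norm_num)
  have hWX : (W : ℝ) ≤ X ^ (7 / 5000 : ℝ) :=
    le_trans (by exact_mod_cast Nat.le_of_dvd (primorial_pos _) (WW_dvd_primorial X S ps))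
      (primorial_yy_le' X hX1)
  set n := W * h * ps' with hn
  have hn1 : 1 ≤ n := Nat.mul_pos (Nat.mul_pos hW0 hh) hps'0
  have hnY : n ≤ 2 * Y ^ 3 := by
    have h1 : (n : ℝ) ≤ 2 * (Y : ℝ) ^ 3 := by
      rw [hn]
      push_cast
      have h2 : (ps' : ℝ) ≤ X ^ (1 / 2 : ℝ) :=
        hps'Y.trans (Real.rpow_le_rpow (by positivity) f2 (by norm_num))
      calc (W : ℝ) * h * ps' ≤ X ^ (7 / 5000 : ℝ) * (9 * X) * X ^ (1 / 2 : ℝ) := by gcongr
        _ = 9 * (X * (X ^ (7 / 5000 : ℝ) * X ^ (1 / 2 : ℝ))) := by ring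
        _ ≤ 9 * (X * X) := by
            gcongr
            rw [← Real.rpow_add hX0]
            calc _ ≤ X ^ (1 : ℝ) := Real.rpow_le_rpow_of_exponent_le hX1 (by norm_num)
              _ = X := Real.rpow_one X
        _ ≤ 9 * ((2 * Y) * (2 * Y)) := by gcongr
        _ = 36 * (Y : ℝ) ^ 2 := by ring
        _ ≤ (2 * Y) * (Y : ℝ) ^ 2 := by
            apply mul_le_mul_of_nonneg_right _ (by positivity)
            linarith
        _ = 2 * (Y : ℝ) ^ 3 := by ring
    exact_mod_cast h1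
  have hM := H Y hYY0 n hn1 hnY
  intro a b ha hab hb
  have h1 := hM a b ha hab hb
  have h2 : ∑ p ∈ (pr Y ε₁ υ).filter (fun p => a ≤ W23.DC.tt Y p ∧ W23.DC.tt Y p < b), gn n p =
      ∑ p ∈ (pr Y ε₁ υ).filter (fun p => a ≤ W23.DC.tt Y p ∧ W23.DC.tt Y p < b), gh W ps h p := by
    apply sum_congr rfl
    intro p hp
    have hp1 := (mem_filter.1 hp).1
    unfold pr at hp1
    rw [mem_filter] at hp1
    obtain ⟨_, hpp, _, hpυ⟩ := hp1
    have hpY : (p : ℝ) < (Y : ℝ) ^ (1 / 2 : ℝ) := by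
      refine ((tt_lt Y p υ (by omega) hpp.pos).1 hpυ).trans_le ?_
      exact Real.rpow_le_rpow_of_exponent_le (by linarith) hυ
    have hiff : p ∣ n ↔ (p ∣ W ∨ p = ps ∨ p ∣ h) := by
      rw [hn, hpp.dvd_mul, hpp.dvd_mul]
      have h3 : p ∣ ps' ↔ p = ps := by
        rw [hps']
        split_ifs with h4
        · exact Nat.prime_dvd_prime_iff_eq hpp h4.1
        · constructor
          · intro h5
            exact absurd (Nat.dvd_one.1 h5) hpp.one_lt.ne'
          · intro h5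
            exfalso
            apply h4
            rw [← h5]
            exact ⟨hpp, hpY.le⟩
      rw [h3]
      tauto
    unfold gn gh
    by_cases h3 : p ∣ n
    · rw [if_pos h3, if_pos (hiff.1 h3)]
    · rw [if_neg h3, if_neg (fun h4 => h3 (hiff.2 h4))]
  rw [h2] at h1
  exact h1

open Classical in
/-- the squares -/
theorem squaresZ (ζ υ : ℝ) (hζ : 0 < ζ) (hζ1 : ζ ≤ 1) (hυ : υ ≤ 1 / 2) : ∀ᶠ X : ℝ in atTop, ∀ h : ℤ,
    ∑ n ∈ (Icc 1 ⌊3 * X⌋₊).filter (fun n : ℕ => ∃ q ∈ pr ⌊X⌋₊ ζ υ, ((q ^ 2 : ℕ) : ℤ) ∣ n + h),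
      Phi (n / X) * ArithmeticFunction.vonMangoldt n ≤ X ^ (1 - ζ / 4) := by
  filter_upwards [floor_facts, eventually_ge_atTop 100,
    Pool.Agent.H398R2.BV.ev_log 18 1 (ζ / 4) (by positivity)] with X hf hX100 hev
  obtain ⟨f1, f2, f3, f4⟩ := hf
  intro h
  have hX0 : 0 < X := by linarith
  have hX1 : 1 ≤ X := by linarith
  set L := Real.log X with hL
  have hL0 : 0 < L := Real.log_pos (by linarith)
  set Y := ⌊X⌋₊ with hY
  have hYr : (100 : ℝ) ≤ Y := by exact_mod_cast f1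
  have hℓL : Real.log (3 * X) ≤ 2 * L := by
    rw [Real.log_mul (by norm_num) hX0.ne']
    have : Real.log 3 ≤ Real.log X := Real.log_le_log (by norm_num) (by linarith)
    linarith
  set F := (Icc 1 ⌊3 * X⌋₊).filter (fun n : ℕ => ∃ q ∈ pr Y ζ υ, ((q ^ 2 : ℕ) : ℤ) ∣ n + h) with hF
  have h1 : ∀ n ∈ F, Phi (n / X) * ArithmeticFunction.vonMangoldt n ≤ 2 * L := by
    intro n hn
    rw [hF, mem_filter, mem_Icc] at hn
    have h1 : ArithmeticFunction.vonMangoldt n ≤ 2 * L := by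
      refine ArithmeticFunction.vonMangoldt_le_log.trans (le_trans ?_ hℓL)
      apply Real.log_le_log (by exact_mod_cast hn.1.1)
      exact (Nat.le_floor_iff (by linarith)).1 hn.1.2
    calc Phi (n / X) * ArithmeticFunction.vonMangoldt n ≤ 1 * (2 * L) :=
          mul_le_mul (LSBV.Phi_le_one _) h1 ArithmeticFunction.vonMangoldt_nonneg zero_le_one
      _ = _ := one_mul _
  refine (sum_le_sum h1).trans ?_
  rw [sum_const, nsmul_eq_mul]
  have hq : ∀ q ∈ pr Y ζ υ, q.Prime ∧ (Y : ℝ) ^ ζ ≤ q := by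
    intro q hq
    unfold pr at hq
    rw [mem_filter] at hq
    refine ⟨hq.2.1, ?_⟩
    by_contra hc
    push Not at hc
    have := (tt_lt Y q ζ (by omega) hq.2.1.pos).2 hc
    linarith [hq.2.2.1]
  have hprc : ((pr Y ζ υ).card : ℝ) ≤ X ^ (1 / 2 : ℝ) := by
    have h1 : pr Y ζ υ ⊆ Icc 1 ⌊X ^ (1 / 2 : ℝ)⌋₊ := by
      intro q hq1
      rw [mem_Icc]
      have h2 := hq q hq1
      refine ⟨h2.1.pos, Nat.le_floor ?_⟩
      unfold pr at hq1
      rw [mem_filter] at hq1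
      have h3 := (tt_lt Y q υ (by omega) h2.1.pos).1 hq1.2.2.2
      calc (q : ℝ) ≤ (Y : ℝ) ^ υ := h3.le
        _ ≤ (Y : ℝ) ^ (1 / 2 : ℝ) := Real.rpow_le_rpow_of_exponent_le (by linarith) hυ
        _ ≤ X ^ (1 / 2 : ℝ) := Real.rpow_le_rpow (by positivity) f2 (by norm_num)
    have h2 := card_le_card h1
    rw [Nat.card_Icc, Nat.add_sub_cancel] at h2
    exact le_trans (by exact_mod_cast h2) (Nat.floor_le (by positivity))
  have hcard : (F.card : ℝ) ≤ ∑ q ∈ pr Y ζ υ, 4 * X / (q : ℝ) ^ 2 + X ^ (1 / 2 : ℝ) := by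
    have e1 : F ⊆ (pr Y ζ υ).biUnion (fun q => (Icc 1 ⌊3 * X⌋₊).filter (fun n : ℕ => ((q ^ 2 : ℕ) : ℤ) ∣ n + h)) := by
      intro n hn
      rw [hF, mem_filter] at hn
      rw [mem_biUnion]
      obtain ⟨q, hq1, hq2⟩ := hn.2
      exact ⟨q, hq1, by rw [mem_filter]; exact ⟨hn.1, hq2⟩⟩
    have e2 := (card_le_card e1).trans card_biUnion_le
    have e3 : (F.card : ℝ) ≤ ∑ q ∈ pr Y ζ υ,
        (((Icc 1 ⌊3 * X⌋₊).filter (fun n : ℕ => ((q ^ 2 : ℕ) : ℤ) ∣ n + h)).card : ℝ) := by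
      exact_mod_cast e2
    have e4 : ∑ q ∈ pr Y ζ υ, (4 * X / (q : ℝ) ^ 2 + 1) ≤ ∑ q ∈ pr Y ζ υ, 4 * X / (q : ℝ) ^ 2 + X ^ (1 / 2 : ℝ) := by
      rw [sum_add_distrib, sum_const, nsmul_eq_mul, mul_one]
      linarith
    refine e3.trans (le_trans (sum_le_sum ?_) e4)
    intro q hq1
    have hq0 : 0 < q := (hq q hq1).1.pos
    have hq0r : (0 : ℝ) < q := by exact_mod_cast hq0
    refine (count_dvd ⌊3 * X⌋₊ (q ^ 2) h (by positivity)).trans ?_
    have h1 : (⌊3 * X⌋₊ : ℝ) ≤ 3 * X := Nat.floor_le (by linarith)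
    push_cast
    gcongr
    linarith
  have hsum : ∑ q ∈ pr Y ζ υ, 4 * X / (q : ℝ) ^ 2 ≤ 4 * X * (2 / (Y : ℝ) ^ ζ) := by
    have hYζ : (1 : ℝ) ≤ (Y : ℝ) ^ ζ := Real.one_le_rpow (by linarith) hζ.le
    set k := ⌈(Y : ℝ) ^ ζ⌉₊ with hk
    have hk1 : 1 ≤ k := Nat.one_le_iff_ne_zero.2 (by
      rw [hk]
      intro h0
      rw [Nat.ceil_eq_zero] at h0
      linarith)
    have hsub : pr Y ζ υ ⊆ Ioc (k - 1) Y := by
      intro q hq1
      rw [mem_Ioc]
      have h2 := (hq q hq1).2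
      have h3 : k ≤ q := Nat.ceil_le.2 h2
      unfold pr at hq1
      rw [mem_filter, mem_Icc] at hq1
      omega
    have e1 : ∑ q ∈ pr Y ζ υ, 4 * X / (q : ℝ) ^ 2 = 4 * X * ∑ q ∈ pr Y ζ υ, 1 / (q : ℝ) ^ 2 := by
      rw [mul_sum]
      apply sum_congr rfl
      intro q _
      ring
    rw [e1]
    apply mul_le_mul_of_nonneg_left _ (by positivity)
    -- telescoping
    have e2 : ∀ q ∈ pr Y ζ υ, 1 / (q : ℝ) ^ 2 ≤ 1 / ((q : ℝ) - 1) - 1 / (q : ℝ) := by
      intro q hq1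
      have h2 : (2 : ℝ) ≤ q := by exact_mod_cast (hq q hq1).1.two_le
      have h3 : (0 : ℝ) < (q : ℝ) - 1 := by linarith
      rw [div_sub_div _ _ h3.ne' (by linarith), div_le_div_iff₀ (by positivity) (by positivity)]
      nlinarith
    have e3 : ∀ m : ℕ, 1 ≤ m → ∀ M : ℕ, m ≤ M → ∑ q ∈ Ioc m M, (1 / ((q : ℝ) - 1) - 1 / (q : ℝ)) =
        1 / (m : ℝ) - 1 / (M : ℝ) := by
      intro m hm M hM
      induction M, hM using Nat.le_induction with
      | base => simp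
      | succ M hM ih =>
        rw [Finset.sum_Ioc_succ_top (by omega), ih]
        push_cast
        ring
    by_cases hk2 : k - 1 = 0
    · -- then Y^ζ ≤ 1
      have h2 : k = 1 := by omega
      have h3 : (Y : ℝ) ^ ζ ≤ 1 := by
        have := Nat.le_ceil ((Y : ℝ) ^ ζ)
        rw [← hk, h2] at this
        simpa using this
      have h4 : (Y : ℝ) ^ ζ = 1 := le_antisymm h3 hYζ
      rw [h4]
      have e4 : ∑ q ∈ pr Y ζ υ, 1 / (q : ℝ) ^ 2 ≤ ∑ q ∈ Ioc 1 Y, (1 / ((q : ℝ) - 1) - 1 / (q : ℝ)) := by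
        refine (sum_le_sum e2).trans ?_
        apply sum_le_sum_of_subset_of_nonneg
        · intro q hq1
          have := hsub hq1
          rw [mem_Ioc] at this ⊢
          exact ⟨(hq q hq1).1.one_lt, this.2⟩
        · intro q hq1 _
          rw [mem_Ioc] at hq1
          have h2 : (2 : ℝ) ≤ q := by exact_mod_cast hq1.1
          rw [sub_nonneg]
          apply one_div_le_one_div_of_le <;> linarith
      rw [e3 1 le_rfl Y (by omega)] at e4
      have h5 : 0 ≤ ((Y : ℝ))⁻¹ := by positivity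
      norm_num at e4 ⊢
      linarith
    · have hk1' : 1 ≤ k - 1 := by omega
      have hkY : k - 1 ≤ Y ∨ Y < k - 1 := by omega
      have e4 : ∑ q ∈ pr Y ζ υ, 1 / (q : ℝ) ^ 2 ≤ 1 / ((k - 1 : ℕ) : ℝ) := by
        rcases hkY with hkY | hkY
        · have e5 : ∑ q ∈ pr Y ζ υ, 1 / (q : ℝ) ^ 2 ≤ ∑ q ∈ Ioc (k - 1) Y, (1 / ((q : ℝ) - 1) - 1 / (q : ℝ)) := by
            refine (sum_le_sum e2).trans ?_
            apply sum_le_sum_of_subset_of_nonneg hsub
            intro q hq1 _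
            rw [mem_Ioc] at hq1
            have h2 : (2 : ℝ) ≤ q := by exact_mod_cast (by omega : 2 ≤ q)
            rw [sub_nonneg]
            apply one_div_le_one_div_of_le <;> linarith
          rw [e3 (k - 1) hk1' Y hkY] at e5
          have : 0 ≤ 1 / (Y : ℝ) := by positivity
          linarith
        · have : pr Y ζ υ = ∅ := by
            rw [← subset_empty]
            refine hsub.trans ?_
            rw [Ioc_eq_empty (by omega)]
          rw [this, sum_empty]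
          positivity
      refine e4.trans ?_
      have h2 : (Y : ℝ) ^ ζ ≤ k := Nat.le_ceil _
      have h3 : (2 : ℝ) ≤ k := by exact_mod_cast (by omega : 2 ≤ k)
      have h4 : ((k - 1 : ℕ) : ℝ) = (k : ℝ) - 1 := by
        rw [Nat.cast_sub hk1, Nat.cast_one]
      rw [h4, div_le_div_iff₀ (by linarith) (by positivity)]
      linarith
  have hYX : X ^ (ζ / 2) ≤ (Y : ℝ) ^ ζ := by
    calc X ^ (ζ / 2) = (X ^ (1 / 2 : ℝ)) ^ ζ := by
          rw [← Real.rpow_mul hX0.le]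
          congr 1
          ring
      _ ≤ _ := Real.rpow_le_rpow (by positivity) f4 hζ.le
  have hc1 : (F.card : ℝ) ≤ 9 * X ^ (1 - ζ / 2) := by
    have h5 : X ^ (1 / 2 : ℝ) ≤ X ^ (1 - ζ / 2) := Real.rpow_le_rpow_of_exponent_le hX1 (by linarith)
    have h6 : 4 * X * (2 / (Y : ℝ) ^ ζ) ≤ 8 * X ^ (1 - ζ / 2) := by
      calc 4 * X * (2 / (Y : ℝ) ^ ζ) ≤ 4 * X * (2 / X ^ (ζ / 2)) := by gcongr
        _ = 8 * (X / X ^ (ζ / 2)) := by ring
        _ = 8 * X ^ (1 - ζ / 2) := by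
            rw [Real.rpow_sub hX0, Real.rpow_one]
    linarith
  rw [pow_one] at hev
  calc (F.card : ℝ) * (2 * L) ≤ 9 * X ^ (1 - ζ / 2) * (2 * L) := by gcongr
    _ = (18 * L) * X ^ (1 - ζ / 2) := by ring
    _ ≤ X ^ (ζ / 4) * X ^ (1 - ζ / 2) := by gcongr
    _ = X ^ (1 - ζ / 4) := by
        rw [← Real.rpow_add hX0]
        congr 1
        ring

end Pool.Agent.J4H73.CG
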