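import Pool.Agent.J4H73.CH.Cov
import Pool.Agent.J4H73.CG.ExcZ

set_option autoImplicit false

/-! # The covering for an integer shift -/

namespace Pool.Agent.J4H73.CG

open Finset Filter
open Pool.Agent.H378R2
open Pool.Agent.TH101.RG
open Pool.Agent.J4H73.CH

theorem avoid2 (p t0 t1 : ℕ) (hp : p.Prime) (h2 : 2 ∣ t0 + t1) : ∃ u : ℕ, ¬ p ∣ u + t0 ∧ ¬ p ∣ u + t1 := by
  rcases hp.eq_two_or_odd with h | h
  · subst h
    refine ⟨t0 + 1, by omega, by omega⟩
  · by_contra hc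
    push Not at hc
    have hp3 : 3 ≤ p := by
      have := hp.two_le
      omega
    have h0 : p ∣ 0 + t0 ∨ p ∣ 0 + t1 := by
      by_cases h : p ∣ 0 + t0
      · exact Or.inl h
      · exact Or.inr (hc 0 h)
    have h1 : p ∣ 1 + t0 ∨ p ∣ 1 + t1 := by
      by_cases h : p ∣ 1 + t0
      · exact Or.inl h
      · exact Or.inr (hc 1 h)
    have h2 : p ∣ 2 + t0 ∨ p ∣ 2 + t1 := by
      by_cases h : p ∣ 2 + t0
      · exact Or.inl h
      · exact Or.inr (hc 2 h)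
    have key : ∀ a b t : ℕ, a < b → b ≤ 2 → p ∣ a + t → p ∣ b + t → False := by
      intro a b t hab hb ha' hb'
      have h3 := Nat.dvd_sub hb' ha'
      have h4 : b + t - (a + t) = b - a := by omega
      rw [h4] at h3
      have := Nat.le_of_dvd (by omega) h3
      omega
    rcases h0 with h0 | h0 <;> rcases h1 with h1 | h1 <;> rcases h2 with h2 | h2
    all_goals first
      | exact key 0 1 _ (by omega) (by omega) h0 h1
      | exact key 0 2 _ (by omega) (by omega) h0 h2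
      | exact key 1 2 _ (by omega) (by omega) h1 h2

theorem cover2Z (c₃ : ℝ) (hc₃ : 0 < c₃) : ∃ c : ℝ, 0 < c ∧
    ∀ᶠ X : ℝ in atTop, ∀ (ps : ℕ) (S : Finset ℕ), GoodP 2 ps → GoodS X S →
    ∀ h : ℤ, 2 ∣ h →
    ∃ (r : ℕ) (b' : ℤ) (U0 : Finset ℕ), r.Coprime (WW X S ps) ∧
      (∀ p : ℕ, p.Prime → p ∣ WW X S ps → ¬ (p : ℤ) ∣ r + h) ∧
      (U0.card : ℝ) ≤ c₃ * Real.log X / Real.log (Real.log X) ∧
      (∀ k ∈ U0, (k : ℝ) ≤ (Real.log X) ^ 2 ∧ b' + k ≠ 0 ∧ b' + k ≠ h) ∧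
      |(b' : ℝ)| ≤ (Real.log X) ^ 2 ∧
      ∀ m : ℤ, |(m : ℝ)| ≤ c * CH.RR X → m ≠ 0 → m ≠ h → (∃ k ∈ U0, m = b' + k) ∨
        (∃ p : ℕ, p.Prime ∧ p ≤ yy X ∧
          ∀ n : ℕ, n ≡ r [MOD WW X S ps] → (p : ℤ) ∣ n + m) := by
  obtain ⟨c, hc, H⟩ := coverR 2 0 0 le_rfl c₃ hc₃
  refine ⟨c, hc, ?_⟩
  filter_upwards [H, eventually_ge_atTop 4] with X H hX4
  intro ps S hps hS h h2
  set W := WW X S ps with hW
  have hW0 : 0 < W := H378R2.WW_pos X S ps
  obtain ⟨B0, hB0⟩ : ∃ B0 : ℕ, (-h) ≤ B0 := ⟨(-h).toNat, Int.self_le_toNat _⟩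
  obtain ⟨t1, ht1⟩ : ∃ t1 : ℕ, (t1 : ℤ) = B0 + h := ⟨((B0 : ℤ) + h).toNat, Int.toNat_of_nonneg (by linarith)⟩
  have hpar : 2 ∣ B0 + t1 := by
    have : (2 : ℤ) ∣ ((B0 + t1 : ℕ) : ℤ) := by
      push_cast
      rw [ht1]
      omega
    exact_mod_cast this
  have hex : ∀ p : ℕ, ∃ u : ℕ, p.Prime → (¬ p ∣ u + B0 ∧ ¬ p ∣ u + t1) := by
    intro p
    by_cases hp : p.Prime
    · obtain ⟨u, hu⟩ := avoid2 p B0 t1 hp hpar
      exact ⟨u, fun _ => hu⟩
    · exact ⟨0, fun h => absurd h hp⟩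
  choose u hu using hex
  obtain ⟨r, b', U0, g1, g2, g3, g4, -, g6⟩ := H ps S hps hS 1 1 one_ne_zero (by norm_num) (by simp)
    (by simp) B0 ![B0, t1] u (by
      intro p hp _ j hd
      fin_cases j
      · exact (hu p hp).1 hd
      · exact (hu p hp).2 hd)
  have g10 : (r + B0).Coprime W := g1 0
  have g11 : (r + t1).Coprime W := g1 1
  refine ⟨r + B0, b' - B0, U0, g10, ?_, g2, ?_, ?_, ?_⟩
  · intro p hp hpW hd
    have e : ((r + B0 : ℕ) : ℤ) + h = ((r + t1 : ℕ) : ℤ) := by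
      push_cast
      rw [ht1]
      ring
    rw [e] at hd
    have h3 : p ∣ r + t1 := by exact_mod_cast hd
    have := Nat.dvd_gcd h3 hpW
    rw [g11] at this
    exact hp.one_lt.ne' (Nat.dvd_one.1 this)
  · intro k hk
    obtain ⟨a1, a2⟩ := g3 k hk
    refine ⟨a1, ?_, ?_⟩
    · have h3 := a2 0
      intro h4
      apply h3
      show b' + (k : ℤ) = 1 * ((B0 : ℕ) : ℤ)
      linarith
    · have h3 := a2 1
      intro h4
      apply h3
      show b' + (k : ℤ) = 1 * ((t1 : ℕ) : ℤ)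
      rw [ht1]
      linarith
  · have : ((b' - B0 : ℤ) : ℝ) = ((b' - ((B0 : ℕ) : ℤ) : ℤ) : ℝ) := rfl
    exact g4
  · intro m hm hm0 hmh
    rcases g6 m hm (by
      intro j
      fin_cases j
      · show (B0 : ℤ) + m ≠ 1 * ((B0 : ℕ) : ℤ)
        intro h3
        apply hm0
        linarith
      · show (B0 : ℤ) + m ≠ 1 * ((t1 : ℕ) : ℤ)
        rw [ht1]
        intro h3
        apply hmh
        linarith) with ⟨k, hk, h1⟩ | ⟨p, hp, hpy, -, h1⟩
    · left
      refine ⟨k, hk, ?_⟩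
      linarith
    · right
      refine ⟨p, hp, hpy, fun n hn => ?_⟩
      -- `p ∣ W`
      have h3 := h1 r (Nat.ModEq.refl _)
      have h4 := h1 (r + W) (by
        show (r + W) % W = r % W
        rw [Nat.add_mod_right])
      have hpW : (p : ℤ) ∣ (W : ℤ) := by
        have h5 := dvd_sub h4 h3
        have e : (1 : ℤ) * ((r + W : ℕ) : ℤ) + B0 + m - (1 * ((r : ℕ) : ℤ) + B0 + m) = (W : ℤ) := by
          push_cast
          ring
        rwa [e] at h5
      set n0 : ℕ := n + W * B0 - B0 with hn0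
      have hle : B0 ≤ n + W * B0 := by
        have : B0 ≤ W * B0 := Nat.le_mul_of_pos_left _ hW0
        omega
      have hn0' : n0 + B0 = n + W * B0 := by omega
      have hmod : n0 ≡ r [MOD W] := by
        have h5 : n0 + B0 ≡ r + B0 [MOD W] := by
          rw [hn0']
          have h6 : n + W * B0 ≡ n [MOD W] := by
            show (n + W * B0) % W = n % W
            rw [Nat.add_mul_mod_self_left]
          exact h6.trans hn
        exact Nat.ModEq.add_right_cancel' B0 h5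
      have h5 := h1 n0 hmod
      have e : (1 : ℤ) * (n0 : ℤ) + B0 + m = (n + m) + W * B0 := by
        have : ((n0 + B0 : ℕ) : ℤ) = ((n + W * B0 : ℕ) : ℤ) := by rw [hn0']
        push_cast at this
        linarith
      rw [e] at h5
      exact (dvd_add_left (Dvd.dvd.mul_right hpW _)).1 h5

end Pool.Agent.J4H73.CG
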