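import Pool.Agent.H378R2.M1
import Pool.Agent.H378R2.LSBV7

/-! Characters of small conductor, at all heights. -/

set_option autoImplicit false

open Finset Filter Topology

namespace Pool.Agent.J4H73.CG

open Pool.Agent.H378R2 Pool.Agent.H378R2.M1 Pool.Agent.H410R2

/-- small conductors at all heights -/
theorem sc_phi (Z : ℕ) : ∀ᶠ X : ℝ in atTop,
    ∃ fs : ℕ, (fs = 0 ∨ Z < fs) ∧
      ∀ f : ℕ, 1 < f → (f : ℝ) ≤ Real.exp ((Real.log (Real.log X)) ^ 6) → f ≠ fs →
        ∀ χ : DirichletCharacter ℂ f, χ.IsPrimitive → ∀ y : ℝ, X ^ (1 / 20 : ℝ) ≤ y → y ≤ 3 * X →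
          ‖psiPhi χ y‖ ≤ y * Real.exp (-(Real.log (Real.log X)) ^ 7) := by
  obtain ⟨d, hd0, hd2, hnzr⟩ := nzr_exc
  obtain ⟨l0, hl0⟩ := hnzr Z
  obtain ⟨C, hC1, hC⟩ := vM_sum_bound
  obtain ⟨a, ha⟩ := exp_dominates (960 * 2 ^ 19 / d + 192 * C) 151
  rw [eventually_atTop]
  refine ⟨Real.exp (Real.exp (max (max a l0) 4)), fun X hX => ?_⟩
  set lam := Real.log (Real.log X) with hlam
  have hXpos : 0 < X := (Real.exp_pos _).trans_le hX
  have hL : Real.exp (max (max a l0) 4) ≤ Real.log X := by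
    rw [Real.le_log_iff_exp_le hXpos]; exact hX
  have hLpos : 0 < Real.log X := (Real.exp_pos _).trans_le hL
  have hlam1 : max (max a l0) 4 ≤ lam := by
    rw [hlam, Real.le_log_iff_exp_le hLpos]; exact hL
  have hlam4 : 4 ≤ lam := (le_max_right _ _).trans hlam1
  have hlama : a ≤ lam := ((le_max_left _ _).trans (le_max_left _ _)).trans hlam1
  have hlaml : l0 ≤ lam := ((le_max_right _ _).trans (le_max_left _ _)).trans hlam1
  have hexplam : Real.exp lam = Real.log X := by rw [hlam, Real.exp_log hLpos]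
  have hdom := ha lam hlama
  have hlam0 : 0 < lam := by linarith
  have hlam1' : 1 ≤ lam := by linarith
  -- the parameter `l`
  set l : ℝ := 2 * lam ^ 8 with hl
  have hl_ge : lam ≤ l := by
    have : lam ≤ lam ^ 8 := le_self_pow₀ hlam1' (by norm_num)
    rw [hl]; linarith [pow_pos hlam0 8]
  obtain ⟨fs, hfs, hmain⟩ := hl0 l (hlaml.trans hl_ge)
  refine ⟨fs, hfs, ?_⟩
  intro f hf1 hfle hffs χ hχ y hy1 hy2
  have : NeZero f := ⟨by omega⟩
  have hχ1 : χ ≠ 1 := primitive_ne_one hf1 hχ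
  have hf0 : (0 : ℝ) < f := by exact_mod_cast (by omega : 0 < f)
  have hlogf : Real.log f ≤ l := by
    have h1 : Real.log f ≤ lam ^ 6 := by
      rw [Real.log_le_iff_le_exp hf0]; exact hfle
    have h2 : lam ^ 6 ≤ lam ^ 8 := pow_le_pow_right₀ hlam1' (by norm_num)
    rw [hl]; linarith [pow_pos hlam0 8]
  have hlpow : l ^ 18 = 2 ^ 18 * lam ^ 144 := by rw [hl]; ring
  have hlpos : 0 < l := by linarith
  set δ : ℝ := d / l ^ 18 with hδ
  set M : ℝ := l ^ 18 / d with hM
  set T : ℝ := Real.exp (lam ^ 8) with hT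
  have hδ0 : 0 < δ := by positivity
  have hM0 : 0 ≤ M := by positivity
  have hδM : δ * M = 1 := by
    rw [hδ, hM]; field_simp
  have hT3 : 3 ≤ T := by
    rw [hT]
    have h1 := Real.add_one_le_exp (lam ^ 8)
    have h2 : lam ≤ lam ^ 8 := le_self_pow₀ hlam1' (by norm_num)
    linarith
  have hp144 : lam ^ 144 ≤ lam ^ 151 := pow_le_pow_right₀ hlam1' (by norm_num)
  have hp7 : lam ≤ lam ^ 7 := le_self_pow₀ hlam1' (by norm_num)
  have hp151 : 1 ≤ lam ^ 151 := one_le_pow₀ hlam1'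
  have hd19 : 0 < 2 ^ 19 / d := by positivity
  have hd18 : 2 ^ 18 / d ≤ 2 ^ 19 / d := by gcongr <;> norm_num
  -- `48 M ≤ e^λ`
  have hM48 : 48 * M ≤ Real.exp lam := by
    refine le_trans ?_ hdom
    rw [hM, hlpow]
    have h1 : 48 * (2 ^ 18 * lam ^ 144 / d) = (48 * (2 ^ 18 / d)) * lam ^ 144 := by ring
    rw [h1]
    have h2 : 48 * (2 ^ 18 / d) ≤ 960 * 2 ^ 19 / d + 192 * C := by
      have : 960 * 2 ^ 19 / d = 960 * (2 ^ 19 / d) := by ring
      linarith
    gcongr
  have hC48 : 192 * C ≤ Real.exp lam := by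
    refine le_trans ?_ hdom
    have h1 : 192 * C * 1 ≤ (960 * 2 ^ 19 / d + 192 * C) * lam ^ 151 := by
      have h3 : 0 < 960 * 2 ^ 19 / d := by positivity
      gcongr
      linarith
    linarith
  -- `λ + λ^7 ≤ δ e^λ / 20`
  have hmain1 : 20 * (lam + lam ^ 7) ≤ δ * Real.exp lam := by
    have h1 : M * (20 * (lam + lam ^ 7)) ≤ Real.exp lam := by
      refine le_trans ?_ hdom
      rw [hM, hlpow]
      calc 2 ^ 18 * lam ^ 144 / d * (20 * (lam + lam ^ 7)) ≤
          2 ^ 18 * lam ^ 144 / d * (20 * (lam ^ 7 + lam ^ 7)) := by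
            gcongr
        _ = (20 * (2 ^ 19 / d)) * lam ^ 151 := by ring
        _ ≤ (960 * 2 ^ 19 / d + 192 * C) * lam ^ 151 := by
            gcongr
            have h10 : 960 * 2 ^ 19 / d = 960 * (2 ^ 19 / d) := by ring
            linarith
    calc 20 * (lam + lam ^ 7) = δ * (M * (20 * (lam + lam ^ 7))) := by rw [← mul_assoc, hδM, one_mul]
      _ ≤ δ * Real.exp lam := by gcongr
  have hδ4 : δ ≤ 1 / 4 := by
    rw [hδ, div_le_iff₀ (by positivity)]
    have h2 : (2 : ℝ) ≤ l := by linarith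
    have h3 : (2 : ℝ) ^ 18 ≤ l ^ 18 := by gcongr
    norm_num at h3
    linarith
  have hX1 : 1 ≤ X := by
    have : 0 ≤ Real.exp (max (max a l0) 4) := (Real.exp_pos _).le
    exact (Real.one_le_exp this).trans hX
  have hy1' : 1 ≤ y := (Real.one_le_rpow hX1 (by norm_num)).trans hy1
  have hypos : 0 < y := by linarith
  have hlogy : Real.exp lam / 20 ≤ Real.log y := by
    rw [hexplam]
    have h1 := Real.log_le_log (by positivity) hy1
    rw [Real.log_rpow hXpos] at h1
    linarith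
  have hlogy2 : Real.log y ≤ 2 * Real.exp lam := by
    rw [hexplam]
    have h1 := Real.log_le_log hypos hy2
    rw [Real.log_mul (by norm_num) hXpos.ne'] at h1
    have h2 : Real.log 3 ≤ Real.log X := by
      apply Real.log_le_log (by norm_num)
      have h3 : (3 : ℝ) ≤ Real.exp (Real.exp (max (max a l0) 4)) := by
        have h4 := Real.add_one_le_exp (Real.exp (max (max a l0) 4))
        have h5 := Real.add_one_le_exp (max (max a l0) 4)
        have h6 : 4 ≤ max (max a l0) 4 := le_max_right _ _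
        linarith
      linarith
    linarith
  have hexp0 : 0 < Real.exp lam := Real.exp_pos _
  have hlogy0 : 0 < Real.log y := by linarith
  set c : ℝ := 1 + 1 / Real.log y with hc
  have hc1 : 1 < c := by
    rw [hc]
    have : 0 < 1 / Real.log y := by positivity
    linarith
  have hcδ : c ≤ 1 + δ := by
    rw [hc]
    have h1 : 20 ≤ δ * Real.exp lam := by linarith
    have h2 : 1 / Real.log y ≤ δ := by
      rw [div_le_iff₀ hlogy0]
      have := mul_le_mul_of_nonneg_left hlogy hδ0.le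
      linarith
    linarith
  have hXc : y ^ c ≤ 3 * y := by
    rw [hc, Real.rpow_add hypos, Real.rpow_one]
    have h1 : y ^ (1 / Real.log y) = Real.exp 1 := by
      rw [Real.rpow_def_of_pos hypos, mul_one_div_cancel hlogy0.ne']
    rw [h1]
    have := Real.exp_one_lt_d9
    nlinarith
  have hA : ∑' n : ℕ, ArithmeticFunction.vonMangoldt n * (n : ℝ) ^ (-c) ≤
      4 * C * Real.exp (2 * lam) := by
    refine (hC c hc1 (by linarith)).trans ?_
    have h1 : c - 1 = 1 / Real.log y := by rw [hc]; ring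
    have h2 : Real.exp (2 * lam) = Real.exp lam ^ 2 := by
      rw [← Real.exp_nat_mul]; norm_num
    rw [h1, h2]
    have h3 : C / (1 / Real.log y) ^ 2 = C * Real.log y ^ 2 := by field_simp
    rw [h3]
    have h4 : Real.log y ^ 2 ≤ (2 * Real.exp lam) ^ 2 := pow_le_pow_left₀ hlogy0.le hlogy2 2
    have h5 : C * Real.log y ^ 2 ≤ C * (2 * Real.exp lam) ^ 2 := mul_le_mul_of_nonneg_left h4 (by linarith)
    linarith
  have hcont := contour χ hχ1 hy1' hc1 hδ0 hδ4 hcδ hXc (by linarith : (1 : ℝ) ≤ T) hM0 hA (by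
    intro s h1 h2
    refine hmain f hf1 hlogf hffs χ hχ s h1 ?_
    have h3 : 2 * |s.im| + 3 ≤ Real.exp l := by
      have h4 : Real.exp l = T * T := by
        rw [hT, hl, ← Real.exp_add]; congr 1; ring
      rw [h4]
      nlinarith
    rw [Real.log_le_iff_le_exp (by positivity)]
    exact h3)
  refine hcont.trans ?_
  -- the three terms
  have hXδ : y ^ (1 - δ) ≤ y * Real.exp (-(lam + lam ^ 7)) := by
    rw [sub_eq_add_neg, Real.rpow_add hypos, Real.rpow_one, Real.rpow_def_of_pos hypos]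
    apply mul_le_mul_of_nonneg_left _ hypos.le
    apply Real.exp_le_exp.2
    have h1 := mul_le_mul_of_nonneg_left hlogy hδ0.le
    linarith
  have hpow : lam + lam ^ 7 ≤ 2 * lam ^ 8 ∧ 3 * lam + lam ^ 7 ≤ lam ^ 8 := by
    have h1 : lam ^ 8 = lam * lam ^ 7 := by ring
    have h2 : 4 * lam ^ 7 ≤ lam * lam ^ 7 := by gcongr
    constructor <;> linarith
  have t1 : 48 * (y ^ (1 - δ) * M) ≤ y * Real.exp (-lam ^ 7) := by
    calc 48 * (y ^ (1 - δ) * M) ≤ 48 * ((y * Real.exp (-(lam + lam ^ 7))) * M) := by gcongr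
      _ = y * ((48 * M) * Real.exp (-(lam + lam ^ 7))) := by ring
      _ ≤ y * (Real.exp lam * Real.exp (-(lam + lam ^ 7))) := by gcongr
      _ = _ := by rw [← Real.exp_add]; congr 2; ring
  have hTT : 1 / T ^ 2 = Real.exp (-(2 * lam ^ 8)) := by
    rw [hT, ← Real.exp_nat_mul, Real.exp_neg, one_div]; norm_num
  have t2 : 48 * (y * M / T ^ 2) ≤ y * Real.exp (-lam ^ 7) := by
    calc 48 * (y * M / T ^ 2) = y * ((48 * M) * (1 / T ^ 2)) := by ring
      _ = y * ((48 * M) * Real.exp (-(2 * lam ^ 8))) := by rw [hTT]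
      _ ≤ y * (Real.exp lam * Real.exp (-(lam + lam ^ 7))) := by
          gcongr
          exact hpow.1
      _ = _ := by rw [← Real.exp_add]; congr 2; ring
  have hT1 : 1 / T = Real.exp (-(lam ^ 8)) := by
    rw [hT, Real.exp_neg, one_div]
  have t3 : 48 * (y * (4 * C * Real.exp (2 * lam)) / T) ≤ y * Real.exp (-lam ^ 7) := by
    calc 48 * (y * (4 * C * Real.exp (2 * lam)) / T) = y * ((192 * C) * Real.exp (2 * lam) * (1 / T)) := by
          ring
      _ = y * ((192 * C) * Real.exp (2 * lam) * Real.exp (-(lam ^ 8))) := by rw [hT1]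
      _ ≤ y * (Real.exp lam * Real.exp (2 * lam) * Real.exp (-(3 * lam + lam ^ 7))) := by
          gcongr
          exact hpow.2
      _ = _ := by rw [← Real.exp_add, ← Real.exp_add]; congr 2; ring
  linarith

/-- trivial bound -/
theorem psiLog_triv (y : ℝ) (hy : 1 ≤ y) (f : ℕ) (χ : DirichletCharacter ℂ f) :
    ‖psiLog y f χ‖ ≤ y * (Real.log y) ^ 2 := by
  have hL : 0 ≤ Real.log y := Real.log_nonneg hy
  unfold psiLog
  refine (norm_sum_le _ _).trans ?_
  have h1 : ∀ n ∈ Icc 1 ⌊y⌋₊, ‖((ArithmeticFunction.vonMangoldt n : ℝ) : ℂ) * χ (n : ZMod f) *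
      ((Real.log (y / n) : ℝ) : ℂ)‖ ≤ (Real.log y) ^ 2 := by
    intro n hn
    rw [mem_Icc] at hn
    have hn1 : (1 : ℝ) ≤ n := by exact_mod_cast hn.1
    have hny : (n : ℝ) ≤ y := (Nat.le_floor_iff (by linarith)).1 hn.2
    rw [norm_mul, norm_mul, Complex.norm_real, Complex.norm_real, Real.norm_eq_abs, Real.norm_eq_abs,
      abs_of_nonneg ArithmeticFunction.vonMangoldt_nonneg]
    have e1 : ArithmeticFunction.vonMangoldt n ≤ Real.log y :=
      ArithmeticFunction.vonMangoldt_le_log.trans (Real.log_le_log (by linarith) hny)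
    have e2 : |Real.log (y / n)| ≤ Real.log y := by
      rw [abs_of_nonneg (Real.log_nonneg (by rw [le_div_iff₀ (by linarith)]; linarith))]
      exact Real.log_le_log (by positivity) (div_le_self (by linarith) hn1)
    have e3 := χ.norm_le_one (n : ZMod f)
    calc _ ≤ Real.log y * 1 * Real.log y := by gcongr
      _ = _ := by ring
  refine (sum_le_card_nsmul _ _ _ h1).trans ?_
  rw [Nat.card_Icc, nsmul_eq_mul]
  apply mul_le_mul_of_nonneg_right _ (by positivity)
  have := Nat.floor_le (show 0 ≤ y by linarith)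
  simpa using this

/-- from tents to ramps -/
theorem ramp (f : ℕ) (χ : DirichletCharacter ℂ f) (y0 E B : ℝ) (hy0 : 0 < y0) (hE : 0 ≤ E) (hB : 0 ≤ B)
    (h0 : ‖psiLog y0 f χ‖ ≤ B) (h1 : ‖psiLog (Real.exp (1 / 2) * y0) f χ‖ ≤ B) (K : ℕ)
    (hphi : ∀ k : ℕ, k < K → ‖psiPhi χ (y0 * Real.exp ((k : ℝ) / 2))‖ ≤ E * (y0 * Real.exp ((k : ℝ) / 2))) :
    ∀ k : ℕ, k ≤ K → ‖psiLog (y0 * Real.exp ((k : ℝ) / 2)) f χ‖ ≤
      (2 * k + 1) * B + 4 * E * (y0 * Real.exp ((k : ℝ) / 2)) := by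
  have hs : ∀ k : ℕ, Real.exp (1 / 2) * (y0 * Real.exp ((k : ℝ) / 2)) = y0 * Real.exp (((k + 1 : ℕ) : ℝ) / 2) := by
    intro k
    push_cast
    rw [show ((k : ℝ) + 1) / 2 = k / 2 + 1 / 2 by ring, Real.exp_add]
    ring
  have hs2 : ∀ k : ℕ, Real.exp 1 * (y0 * Real.exp ((k : ℝ) / 2)) = y0 * Real.exp (((k + 2 : ℕ) : ℝ) / 2) := by
    intro k
    push_cast
    rw [show ((k : ℝ) + 2) / 2 = k / 2 + 1 by ring, Real.exp_add]
    ring
  have hq : (3 : ℝ) / 2 ≤ Real.exp (1 / 2) := by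
    have := Real.add_one_le_exp (1 / 2 : ℝ)
    linarith
  -- the differences
  have hD : ∀ k : ℕ, k ≤ K → ‖psiLog (y0 * Real.exp (((k + 1 : ℕ) : ℝ) / 2)) f χ -
      psiLog (y0 * Real.exp ((k : ℝ) / 2)) f χ‖ ≤ 2 * B + 2 * E * (y0 * Real.exp ((k : ℝ) / 2)) := by
    intro k
    induction k with
    | zero =>
      intro _
      have e0 : y0 * Real.exp (((0 : ℕ) : ℝ) / 2) = y0 := by simp
      have e1 := hs 0
      rw [e0] at e1 ⊢
      rw [← e1]
      refine (norm_sub_le _ _).trans ?_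
      have : 0 ≤ 2 * E * y0 := by positivity
      linarith
    | succ k ih =>
      intro hk
      have h2 := ih (by omega)
      have h3 := hphi k (by omega)
      have e := LSBV.psiPhi_eq (y0 * Real.exp ((k : ℝ) / 2)) (by positivity) f χ
      rw [hs, hs2] at e
      have e2 : psiLog (y0 * Real.exp (((k + 1 + 1 : ℕ) : ℝ) / 2)) f χ -
          psiLog (y0 * Real.exp (((k + 1 : ℕ) : ℝ) / 2)) f χ =
          psiPhi χ (y0 * Real.exp ((k : ℝ) / 2)) + (psiLog (y0 * Real.exp (((k + 1 : ℕ) : ℝ) / 2)) f χ -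
          psiLog (y0 * Real.exp ((k : ℝ) / 2)) f χ) := by
        rw [e]
        ring
      rw [e2]
      refine (norm_add_le _ _).trans ?_
      have h4 : (3 : ℝ) / 2 * (y0 * Real.exp ((k : ℝ) / 2)) ≤ Real.exp (1 / 2) * (y0 * Real.exp ((k : ℝ) / 2)) :=
        mul_le_mul_of_nonneg_right hq (by positivity)
      rw [hs k] at h4
      have h5 := mul_le_mul_of_nonneg_left h4 (show 0 ≤ 2 * E by positivity)
      linarith
  intro k
  induction k with
  | zero =>
    intro _
    have e0 : y0 * Real.exp (((0 : ℕ) : ℝ) / 2) = y0 := by simp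
    rw [e0]
    have : 0 ≤ 4 * E * y0 := by positivity
    push_cast
    linarith
  | succ k ih =>
    intro hk
    have h2 := ih (by omega)
    have h3 := hD k (by omega)
    have e2 : psiLog (y0 * Real.exp (((k + 1 : ℕ) : ℝ) / 2)) f χ =
        (psiLog (y0 * Real.exp (((k + 1 : ℕ) : ℝ) / 2)) f χ - psiLog (y0 * Real.exp ((k : ℝ) / 2)) f χ) +
        psiLog (y0 * Real.exp ((k : ℝ) / 2)) f χ := by ring
    rw [e2]
    refine (norm_add_le _ _).trans ?_
    have h4 : (3 : ℝ) / 2 * (y0 * Real.exp ((k : ℝ) / 2)) ≤ Real.exp (1 / 2) * (y0 * Real.exp ((k : ℝ) / 2)) :=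
      mul_le_mul_of_nonneg_right hq (by positivity)
    rw [hs k] at h4
    have h5 := mul_le_mul_of_nonneg_left h4 (show 0 ≤ 4 * E by positivity)
    have h8 : (2 * ((k + 1 : ℕ) : ℝ) + 1) * B = (2 * (k : ℝ) + 1) * B + 2 * B := by push_cast; ring
    rw [h8]
    linarith

/-- small conductors for the ramps -/
theorem sc_log (Z : ℕ) : ∀ᶠ X : ℝ in atTop,
    ∃ fs : ℕ, (fs = 0 ∨ Z < fs) ∧
      ∀ f : ℕ, 1 < f → (f : ℝ) ≤ Real.exp ((Real.log (Real.log X)) ^ 6) → f ≠ fs →
        ∀ χ : DirichletCharacter ℂ f, χ.IsPrimitive →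
          (∀ y : ℝ, X ^ (1 / 5 : ℝ) ≤ y → y ≤ 3 * X →
            ‖psiLog y f χ‖ ≤ 5 * y * Real.exp (-(Real.log (Real.log X)) ^ 7)) ∧
          (∀ y : ℝ, X ^ (1 / 20 : ℝ) ≤ y → y ≤ 3 * X →
            ‖psiPhi χ y‖ ≤ y * Real.exp (-(Real.log (Real.log X)) ^ 7)) := by
  have t1 := Real.tendsto_log_atTop
  have t2 : Tendsto (fun y : ℝ => Real.log (Real.log y)) atTop atTop := t1.comp t1
  obtain ⟨a, ha⟩ := exp_dominates (1 / (1 / 100)) 7
  have hdom : ∀ᶠ X : ℝ in atTop, Real.exp ((Real.log (Real.log X)) ^ 7) ≤ X ^ (1 / 100 : ℝ) := by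
    filter_upwards [t2.eventually_ge_atTop a, t1.eventually_gt_atTop 0, eventually_gt_atTop 0] with X h1 h2 h3
    rw [Real.rpow_def_of_pos h3]
    apply Real.exp_le_exp.2
    have h4 := ha _ h1
    rw [Real.exp_log h2] at h4
    linarith
  filter_upwards [sc_phi Z, hdom, eventually_ge_atTop 100,
    Pool.Agent.H398R2.BV.ev_log 1000 3 (1 / 100) (by norm_num)] with X hsc hdomX hX100 hlog
  obtain ⟨fs, hfs, h⟩ := hsc
  refine ⟨fs, hfs, fun f hf1 hfe hne χ hχ => ⟨fun y hy1 hy2 => ?_, h f hf1 hfe hne χ hχ⟩⟩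
  have hsm := h f hf1 hfe hne χ hχ
  set lam := Real.log (Real.log X) with hlam
  have hX0 : 0 < X := by linarith
  have hX1 : 1 ≤ X := by linarith
  have hL0 : 0 < Real.log X := Real.log_pos (by linarith)
  have hy0 : 0 < y := lt_of_lt_of_le (by positivity) hy1
  set x0 := X ^ (1 / 20 : ℝ) with hx0
  have hx01 : 1 ≤ x0 := Real.one_le_rpow hX1 (by norm_num)
  have hx0y : x0 ≤ y := le_trans (Real.rpow_le_rpow_of_exponent_le hX1 (by norm_num)) hy1
  set K := ⌊2 * Real.log (y / x0)⌋₊ with hK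
  have hlr : 0 ≤ Real.log (y / x0) := Real.log_nonneg (by rw [le_div_iff₀ (by linarith)]; linarith)
  have hK1 : (K : ℝ) ≤ 2 * Real.log (y / x0) := Nat.floor_le (by positivity)
  have hK2 : 2 * Real.log (y / x0) < K + 1 := Nat.lt_floor_add_one _
  set y0 := y * Real.exp (-((K : ℝ) / 2)) with hy0'
  have hyK : y0 * Real.exp ((K : ℝ) / 2) = y := by
    rw [hy0', mul_assoc, ← Real.exp_add]
    simp
  have hy00 : 0 < y0 := by positivity
  have hx0p : 0 < x0 := by linarith
  have hlow : x0 ≤ y0 := by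
    have h1 : Real.exp ((K : ℝ) / 2) ≤ y / x0 := by
      rw [← Real.exp_log (show 0 < y / x0 by positivity)]
      apply Real.exp_le_exp.2
      linarith
    rw [le_div_iff₀ hx0p] at h1
    have h2 : Real.exp ((K : ℝ) / 2) * x0 ≤ Real.exp ((K : ℝ) / 2) * y0 := by
      rw [mul_comm _ y0, hyK]
      exact h1
    exact le_of_mul_le_mul_left h2 (Real.exp_pos _)
  have hhigh : y0 ≤ 2 * x0 := by
    have h1 : y / x0 ≤ Real.exp ((K : ℝ) / 2) * 2 := by
      rw [← Real.exp_log (show 0 < y / x0 by positivity)]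
      have h2 : Real.log (y / x0) ≤ (K : ℝ) / 2 + 1 / 2 := by linarith
      refine (Real.exp_le_exp.2 h2).trans ?_
      rw [Real.exp_add]
      apply mul_le_mul_of_nonneg_left _ (Real.exp_pos _).le
      have h3 := Real.exp_one_lt_d9
      have h4 : Real.exp (1 / 2) * Real.exp (1 / 2) = Real.exp 1 := by
        rw [← Real.exp_add]; norm_num
      nlinarith [Real.exp_pos (1 / 2)]
    rw [div_le_iff₀ hx0p] at h1
    have h2 : Real.exp ((K : ℝ) / 2) * y0 ≤ Real.exp ((K : ℝ) / 2) * (2 * x0) := by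
      rw [mul_comm _ y0, hyK]
      linarith
    exact le_of_mul_le_mul_left h2 (Real.exp_pos _)
  have hlogy : Real.log y ≤ 2 * Real.log X := by
    have h1 := Real.log_le_log hy0 hy2
    rw [Real.log_mul (by norm_num) hX0.ne'] at h1
    have : Real.log 3 ≤ Real.log X := Real.log_le_log (by norm_num) (by linarith)
    linarith
  have hexphalf : Real.exp (1 / 2) ≤ 2 := by
    have h3 := Real.exp_one_lt_d9
    have h4 : Real.exp (1 / 2) * Real.exp (1 / 2) = Real.exp 1 := by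
      rw [← Real.exp_add]; norm_num
    nlinarith [Real.exp_pos (1 / 2)]
  have hexp1 : 1 ≤ Real.exp (1 / 2) := Real.one_le_exp (by norm_num)
  set B := 4 * x0 * (2 * Real.log X) ^ 2 with hB
  have hx0X : 4 * x0 ≤ X * X := by
    have : x0 ≤ X := by
      rw [hx0]
      calc X ^ (1 / 20 : ℝ) ≤ X ^ (1 : ℝ) := Real.rpow_le_rpow_of_exponent_le hX1 (by norm_num)
        _ = X := Real.rpow_one X
    nlinarith
  have htriv : ∀ z : ℝ, 1 ≤ z → z ≤ 4 * x0 → ‖psiLog z f χ‖ ≤ B := by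
    intro z hz1 hz2
    refine (psiLog_triv z hz1 f χ).trans ?_
    have h1 : Real.log z ≤ 2 * Real.log X := by
      have := Real.log_le_log (by linarith) (hz2.trans hx0X)
      rw [Real.log_mul hX0.ne' hX0.ne'] at this
      linarith
    have h2 : 0 ≤ Real.log z := Real.log_nonneg hz1
    rw [hB]
    gcongr
  have hB0 : 0 ≤ B := by rw [hB]; positivity
  have hfin := ramp f χ y0 (Real.exp (-lam ^ 7)) B hy00 (Real.exp_pos _).le hB0
    (htriv y0 (by linarith) (by linarith)) (htriv _ (by nlinarith) (by nlinarith)) K (by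
      intro k hk
      rw [mul_comm (Real.exp _)]
      apply hsm
      · refine hlow.trans ?_
        have : 1 ≤ Real.exp ((k : ℝ) / 2) := Real.one_le_exp (by positivity)
        nlinarith
      · refine le_trans ?_ hy2
        rw [← hyK]
        have hk' : (k : ℝ) ≤ K := by exact_mod_cast hk.le
        gcongr) K le_rfl
  rw [hyK] at hfin
  refine hfin.trans ?_
  have hKX : (2 * (K : ℝ) + 1) ≤ 10 * Real.log X := by
    have h1 : Real.log (y / x0) ≤ Real.log y := by
      apply Real.log_le_log (by positivity)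
      exact div_le_self hy0.le hx01
    have h2 : 1 ≤ Real.log X := by
      rw [Real.le_log_iff_exp_le hX0]
      have := Real.exp_one_lt_d9
      linarith
    linarith
  have hmain : (2 * (K : ℝ) + 1) * B ≤ y * Real.exp (-lam ^ 7) := by
    have e1 : (2 * (K : ℝ) + 1) * B ≤ (1000 * (Real.log X) ^ 3) * x0 := by
      calc (2 * (K : ℝ) + 1) * B ≤ (10 * Real.log X) * B := mul_le_mul_of_nonneg_right hKX hB0
        _ = (160 * (Real.log X) ^ 3) * x0 := by rw [hB]; ring
        _ ≤ _ := by gcongr; norm_num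
    have e2 : (1000 * (Real.log X) ^ 3) * x0 ≤ X ^ (3 / 50 : ℝ) := by
      calc (1000 * (Real.log X) ^ 3) * x0 ≤ X ^ (1 / 100 : ℝ) * X ^ (1 / 20 : ℝ) := by
            rw [hx0]; gcongr
        _ = X ^ (3 / 50 : ℝ) := by rw [← Real.rpow_add hX0]; norm_num
    have e3 : X ^ (3 / 50 : ℝ) ≤ y * Real.exp (-lam ^ 7) := by
      rw [Real.exp_neg, ← div_eq_mul_inv, le_div_iff₀ (Real.exp_pos _)]
      calc X ^ (3 / 50 : ℝ) * Real.exp (lam ^ 7) ≤ X ^ (3 / 50 : ℝ) * X ^ (1 / 100 : ℝ) := by gcongr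
        _ = X ^ (7 / 100 : ℝ) := by rw [← Real.rpow_add hX0]; norm_num
        _ ≤ X ^ (1 / 5 : ℝ) := Real.rpow_le_rpow_of_exponent_le hX1 (by norm_num)
        _ ≤ y := hy1
    exact e1.trans (e2.trans e3)
  linarith

end Pool.Agent.J4H73.CG
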