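import Pool.Agent.J4H73.BV.Lam
import Pool.Agent.J4H73.CG.SC

/-! Discrepancies of general sequences with tent weights. -/

set_option autoImplicit false

open Finset Filter Topology

namespace Pool.Agent.J4H73.CG

open Pool.Agent.Helper112 Pool.Agent.Helper112.BLB Pool.Agent.H410R2 Pool.Agent.H398R2.BV
open Pool.Agent.H378R2 Pool.Agent.H378R2.LSBV

open Classical in
/-- the discrepancy of a general sequence -/
theorem disc_char (N : ℕ) (a : ℕ → ℝ) (m b : ℕ) [NeZero m] (hb : b.Coprime m) :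
    |∑ n ∈ (Icc 1 N).filter (fun n => n ≡ b [MOD m]), a n - (1 / (Nat.totient m : ℝ)) *
      ∑ n ∈ (Icc 1 N).filter (fun n => n.Coprime m), a n| ≤
    (1 / (Nat.totient m : ℝ)) *
      ∑ χ ∈ (univ : Finset (DirichletCharacter ℂ m)).filter (fun χ => χ ≠ 1), ‖A N a m χ‖ := by
  have key : ((∑ n ∈ (Icc 1 N).filter (fun n => n ≡ b [MOD m]), a n - (1 / (Nat.totient m : ℝ)) *
      ∑ n ∈ (Icc 1 N).filter (fun n => n.Coprime m), a n : ℝ) : ℂ) =
      (1 / (Nat.totient m : ℂ)) *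
      ∑ χ ∈ (univ : Finset (DirichletCharacter ℂ m)).filter (fun χ => χ ≠ 1),
        χ ((b : ZMod m)⁻¹) * A N a m χ := by
    have h1 : ∑ n ∈ (Icc 1 N).filter (fun n => n ≡ b [MOD m]), a n - (1 / (Nat.totient m : ℝ)) *
        ∑ n ∈ (Icc 1 N).filter (fun n => n.Coprime m), a n =
        ∑ n ∈ Icc 1 N, a n * ((if n ≡ b [MOD m] then (1 : ℝ) else 0) -
            (if n.Coprime m then (1 : ℝ) / (Nat.totient m : ℝ) else 0)) := by
      rw [sum_filter, sum_filter, mul_sum, ← sum_sub_distrib]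
      apply sum_congr rfl
      intro n _
      split_ifs <;> ring
    rw [h1, Complex.ofReal_sum, mul_sum]
    have h2 : ∀ n ∈ Icc 1 N, ((a n * ((if n ≡ b [MOD m] then (1 : ℝ) else 0) -
            (if n.Coprime m then (1 : ℝ) / (Nat.totient m : ℝ) else 0)) : ℝ) : ℂ) =
        ∑ χ ∈ (univ : Finset (DirichletCharacter ℂ m)).filter (fun χ => χ ≠ 1),
          (1 / (Nat.totient m : ℂ)) * (χ ((b : ZMod m)⁻¹) * ((a n : ℂ) * χ (n : ZMod m))) := by
      intro n _
      rw [Complex.ofReal_mul, bracket m b hb n, mul_sum, mul_sum]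
      apply sum_congr rfl
      intro χ _
      ring
    rw [sum_congr rfl h2, sum_comm]
    apply sum_congr rfl
    intro χ _
    unfold A
    rw [mul_sum, mul_sum]
  rw [← Real.norm_eq_abs, ← Complex.norm_real, key, norm_mul]
  have h1 : ‖(1 / (Nat.totient m : ℂ))‖ = 1 / (Nat.totient m : ℝ) := by
    rw [norm_div, norm_one, Complex.norm_natCast]
  rw [h1]
  apply mul_le_mul_of_nonneg_left _ (by positivity)
  refine (norm_sum_le _ _).trans (sum_le_sum ?_)
  intro χ _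
  rw [norm_mul]
  have : ‖χ ((b : ZMod m)⁻¹)‖ ≤ 1 := χ.norm_le_one _
  calc _ ≤ 1 * ‖A N a m χ‖ := mul_le_mul_of_nonneg_right this (norm_nonneg _)
    _ = _ := one_mul _

/-- the discrepancy of a general sequence -/
theorem disc_le (N : ℕ) (a : ℕ → ℝ) (m b : ℕ) (hm : m ≠ 0) (hb : b.Coprime m) :
    |∑ n ∈ (Icc 1 N).filter (fun n => n ≡ b [MOD m]), a n - (1 / (Nat.totient m : ℝ)) *
      ∑ n ∈ (Icc 1 N).filter (fun n => n.Coprime m), a n| ≤
    (1 / (Nat.totient m : ℝ)) * ∑ f ∈ m.divisors.filter (fun f => f ≠ 1),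
      ∑ ψ ∈ Prim f, ‖A N (res (m / f) a) f ψ‖ := by
  classical
  have : NeZero m := ⟨hm⟩
  refine (disc_char N a m b hb).trans ?_
  apply mul_le_mul_of_nonneg_left _ (by positivity)
  refine (step2 m (fun χ => ‖A N a m χ‖) (fun χ => norm_nonneg _)
    (fun f ψ => ‖A N (res (m / f) a) f ψ‖) ?_).trans (le_of_eq ?_)
  · intro f h ψ
    obtain ⟨g, rfl⟩ := h
    have hf : 0 < f := by
      rcases Nat.eq_zero_or_pos f with h | h
      · subst h; simp at hm
      · exact h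
    rw [Nat.mul_div_cancel_left g hf, A_changeLevel]
  · rfl

/-- tent of half width `d` -/
noncomputable def Ps (d X : ℝ) (n : ℕ) : ℝ := max 0 (d - |Real.log (n / X) - 1 / 2|)

theorem Ps_nonneg (d X : ℝ) (n : ℕ) : 0 ≤ Ps d X n := le_max_left _ _

theorem Ps_le (d X : ℝ) (n : ℕ) (hd0 : 0 ≤ d) : Ps d X n ≤ d := by
  unfold Ps
  apply max_le hd0
  have := abs_nonneg (Real.log (n / X) - 1 / 2)
  linarith

theorem Ps_le_Phi (d X : ℝ) (n : ℕ) (hd : d ≤ 1 / 2) : Ps d X n ≤ Phi (n / X) := by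
  unfold Ps Phi
  apply max_le_max le_rfl
  linarith

theorem Ps_le_one (d X : ℝ) (n : ℕ) (hd0 : 0 ≤ d) (hd : d ≤ 1 / 2) : Ps d X n ≤ 1 :=
  (Ps_le d X n hd0).trans (by linarith)

theorem tent3 (d v : ℝ) (hd : 0 ≤ d) : max 0 (d - |v|) =
    max 0 (-d - v) - 2 * max 0 (-v) + max 0 (d - v) := by
  rcases le_total v (-d) with h | h
  · rw [abs_of_nonpos (by linarith), max_eq_left (by linarith), max_eq_right (by linarith),
      max_eq_right (by linarith), max_eq_right (by linarith)]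
    ring
  rcases le_total v 0 with h2 | h2
  · rw [abs_of_nonpos (by linarith), max_eq_right (by linarith), max_eq_left (by linarith),
      max_eq_right (by linarith), max_eq_right (by linarith)]
    ring
  rcases le_total v d with h3 | h3
  · rw [abs_of_nonneg h2, max_eq_right (show 0 ≤ d - v by linarith),
      max_eq_left (show -d - v ≤ 0 by linarith), max_eq_left (show -v ≤ 0 by linarith)]
    ring
  · rw [abs_of_nonneg h2, max_eq_left (show d - v ≤ 0 by linarith),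
      max_eq_left (show -d - v ≤ 0 by linarith), max_eq_left (show -v ≤ 0 by linarith)]
    ring

theorem Ps_eq (d X : ℝ) (n : ℕ) (hd : 0 ≤ d) (hX : 0 < X) (hn : 0 < n) :
    Ps d X n = max 0 (Real.log (Real.exp (1 / 2 - d) * X / n)) -
      2 * max 0 (Real.log (Real.exp (1 / 2) * X / n)) +
      max 0 (Real.log (Real.exp (1 / 2 + d) * X / n)) := by
  have hn0 : (0 : ℝ) < n := by exact_mod_cast hn
  have e0 : ∀ c : ℝ, Real.log (Real.exp c * X / n) = c - Real.log (n / X) := by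
    intro c
    rw [mul_div_assoc, Real.log_mul (Real.exp_ne_zero _) (by positivity), Real.log_exp]
    have : Real.log (X / n) = - Real.log (n / X) := by rw [← Real.log_inv, inv_div]
    rw [this]
    ring
  rw [e0, e0, e0]
  unfold Ps
  rw [tent3 d _ hd]
  have e1 : -d - (Real.log (n / X) - 1 / 2) = 1 / 2 - d - Real.log (n / X) := by ring
  have e2 : -(Real.log (n / X) - 1 / 2) = 1 / 2 - Real.log (n / X) := by ring
  have e3 : d - (Real.log (n / X) - 1 / 2) = 1 / 2 + d - Real.log (n / X) := by ring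
  rw [e1, e2, e3]

/-- the log-weighted sum over a longer range -/
theorem TL_eq_max (x : ℝ) (hx : 0 < x) (N : ℕ) (hN : ⌊x⌋₊ ≤ N) (f : ℕ) (χ : DirichletCharacter ℂ f)
    (g : ℕ → ℝ) :
    TL x f χ g = ∑ n ∈ Icc 1 N, (g n : ℂ) * χ (n : ZMod f) * ((max 0 (Real.log (x / n)) : ℝ) : ℂ) := by
  unfold TL
  have hsub : Icc 1 ⌊x⌋₊ ⊆ Icc 1 N := Icc_subset_Icc_right hN
  rw [← sum_subset hsub]
  · apply sum_congr rfl
    intro n hn
    rw [mem_Icc] at hn
    have hn0 : (0:ℝ) < n := by exact_mod_cast hn.1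
    have hnx : (n:ℝ) ≤ x := (Nat.cast_le.mpr hn.2).trans (Nat.floor_le hx.le)
    have : 0 ≤ Real.log (x / n) := Real.log_nonneg (by rw [le_div_iff₀ hn0]; linarith)
    rw [max_eq_right this]
  · intro n hn hn'
    rw [mem_Icc] at hn hn'
    have hn0 : (0:ℝ) < n := by exact_mod_cast hn.1
    have h1 : ⌊x⌋₊ < n := by
      by_contra h
      exact hn' ⟨hn.1, by omega⟩
    have hnx : x < n := (Nat.floor_lt hx.le).mp h1
    have : Real.log (x / n) ≤ 0 := Real.log_nonpos (by positivity)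
      (by rw [div_le_one hn0]; linarith)
    rw [max_eq_left this]
    simp

/-- the three sums -/
noncomputable def R3 (d X : ℝ) (f : ℕ) (ψ : DirichletCharacter ℂ f) (g : ℕ → ℝ) : ℝ :=
  ‖TL (Real.exp (1 / 2 - d) * X) f ψ g‖ + 2 * ‖TL (Real.exp (1 / 2) * X) f ψ g‖ +
    ‖TL (Real.exp (1 / 2 + d) * X) f ψ g‖

theorem R3_nonneg (d X : ℝ) (f : ℕ) (ψ : DirichletCharacter ℂ f) (g : ℕ → ℝ) : 0 ≤ R3 d X f ψ g := by
  unfold R3; positivity

theorem exp_facts (d : ℝ) (hd0 : 0 ≤ d) (hd : d ≤ 1 / 2) : 1 ≤ Real.exp (1 / 2 - d) ∧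
    1 ≤ Real.exp (1 / 2) ∧ 1 ≤ Real.exp (1 / 2 + d) ∧ Real.exp (1 / 2 - d) ≤ 3 ∧ Real.exp (1 / 2) ≤ 3 ∧
    Real.exp (1 / 2 + d) ≤ 3 := by
  have h3 : Real.exp 1 ≤ 3 := by
    have := Real.exp_one_lt_d9
    linarith
  refine ⟨Real.one_le_exp (by linarith), Real.one_le_exp (by norm_num), Real.one_le_exp (by linarith), ?_, ?_, ?_⟩
  all_goals
    refine le_trans (Real.exp_le_exp.2 ?_) h3
    linarith

theorem norm_A_Ps (d X : ℝ) (hd0 : 0 ≤ d) (hd : d ≤ 1 / 2) (hX : 0 < X) (f : ℕ)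
    (ψ : DirichletCharacter ℂ f) (g : ℕ → ℝ) :
    ‖A ⌊3 * X⌋₊ (fun n => Ps d X n * g n) f ψ‖ ≤ R3 d X f ψ g := by
  obtain ⟨h1, h2, h3, h4, h5, h6⟩ := exp_facts d hd0 hd
  have hN : ∀ c : ℝ, c ≤ 3 → ⌊c * X⌋₊ ≤ ⌊3 * X⌋₊ := fun c hc =>
    Nat.floor_le_floor (mul_le_mul_of_nonneg_right hc hX.le)
  have e : A ⌊3 * X⌋₊ (fun n => Ps d X n * g n) f ψ =
      TL (Real.exp (1 / 2 - d) * X) f ψ g - 2 * TL (Real.exp (1 / 2) * X) f ψ g +
        TL (Real.exp (1 / 2 + d) * X) f ψ g := by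
    rw [TL_eq_max _ (by positivity) ⌊3 * X⌋₊ (hN _ h4), TL_eq_max _ (by positivity) ⌊3 * X⌋₊ (hN _ h5),
      TL_eq_max _ (by positivity) ⌊3 * X⌋₊ (hN _ h6), mul_sum, ← sum_sub_distrib, ← sum_add_distrib]
    unfold A
    apply sum_congr rfl
    intro n hn
    rw [mem_Icc] at hn
    beta_reduce
    rw [Ps_eq d X n hd0 hX (by omega)]
    push_cast
    ring
  rw [e]
  unfold R3
  refine (norm_add_le _ _).trans ?_
  refine add_le_add_left ((norm_sub_le _ _).trans ?_) _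
  rw [norm_mul]
  simp

/-- the sum over primitive characters -/
noncomputable def TG (d X : ℝ) (g : ℕ → ℝ) (f : ℕ) : ℝ := ∑ ψ ∈ Prim f, R3 d X f ψ g

theorem TG_nonneg (d X : ℝ) (g : ℕ → ℝ) (f : ℕ) : 0 ≤ TG d X g f :=
  sum_nonneg fun _ _ => R3_nonneg _ _ _ _ _

/-- the weighted sum over the primes -/
noncomputable def LPs (d X : ℝ) : ℝ :=
  ∑ n ∈ Icc 1 ⌊3 * X⌋₊, Ps d X n * ArithmeticFunction.vonMangoldt n

theorem sum_ncPs (d X : ℝ) (hd : d ≤ 1 / 2) (hX : 1 ≤ X) (m : ℕ) (hm : 1 ≤ m) :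
    ∑ n ∈ (Icc 1 ⌊3 * X⌋₊).filter (fun n => ¬ n.Coprime m),
      Ps d X n * ArithmeticFunction.vonMangoldt n ≤
      m.primeFactors.card * Real.log (3 * X) := by
  refine le_trans (sum_le_sum ?_) (sum_ncPhi X hX m hm)
  intro n _
  exact mul_le_mul_of_nonneg_right (Ps_le_Phi d X n hd) ArithmeticFunction.vonMangoldt_nonneg

/-- the discrepancy for one modulus -/
theorem EPs_le (d X : ℝ) (hd0 : 0 ≤ d) (hd : d ≤ 1 / 2) (hX : 1 ≤ X) (m b : ℕ) (hm : 1 ≤ m)
    (hb : b.Coprime m) :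
    |∑ n ∈ (Icc 1 ⌊3 * X⌋₊).filter (fun n => n ≡ b [MOD m]), Ps d X n * ArithmeticFunction.vonMangoldt n -
      LPs d X / (Nat.totient m : ℝ)| ≤
      (1 / (Nat.totient m : ℝ)) * (∑ f ∈ m.divisors.filter (fun f => f ≠ 1),
        TG d X (fun n => ArithmeticFunction.vonMangoldt n) f) +
        2 * (m.primeFactors.card * Real.log (3 * X)) := by
  classical
  have hX0 : 0 < X := by linarith
  set a : ℕ → ℝ := fun n => Ps d X n * ArithmeticFunction.vonMangoldt n with ha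
  have ha0 : ∀ n, 0 ≤ a n := fun n => mul_nonneg (Ps_nonneg _ _ _) ArithmeticFunction.vonMangoldt_nonneg
  set E := (m.primeFactors.card : ℝ) * Real.log (3 * X) with hE
  have hlog : 0 ≤ Real.log (3 * X) := Real.log_nonneg (by linarith)
  have hE0 : 0 ≤ E := by positivity
  have hφ : (1:ℝ) ≤ Nat.totient m := by exact_mod_cast Nat.totient_pos.mpr (by omega)
  have : NeZero m := ⟨by omega⟩
  have h1 := disc_char ⌊3 * X⌋₊ a m b hb
  have hnc := sum_ncPs d X hd hX m hm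
  -- characters
  have h2 := step2 m (fun χ => max (‖A ⌊3 * X⌋₊ a m χ‖ - E) 0)
    (fun χ => le_max_right _ _) (fun f ψ => R3 d X f ψ (fun n => ArithmeticFunction.vonMangoldt n)) (by
      intro f h ψ
      apply max_le _ (R3_nonneg _ _ _ _ _)
      obtain ⟨g, rfl⟩ := h
      rw [A_changeLevel]
      have e : A ⌊3 * X⌋₊ (res g a) f ψ = A ⌊3 * X⌋₊ a f ψ -
          ∑ n ∈ (Icc 1 ⌊3 * X⌋₊).filter (fun n => ¬ n.Coprime g), (a n : ℂ) * ψ (n : ZMod f) := by
        unfold A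
        rw [sum_filter, ← sum_sub_distrib]
        apply sum_congr rfl
        intro n _
        unfold res
        by_cases hn : n.Coprime g
        · rw [if_pos hn, if_neg (not_not.2 hn), sub_zero]
        · rw [if_neg hn, if_pos hn]
          simp
      rw [e]
      have e1 := norm_A_Ps d X hd0 hd hX0 f ψ (fun n => ArithmeticFunction.vonMangoldt n)
      have e2 := norm_sub_le (A ⌊3 * X⌋₊ a f ψ)
        (∑ n ∈ (Icc 1 ⌊3 * X⌋₊).filter (fun n => ¬ n.Coprime g), (a n : ℂ) * ψ (n : ZMod f))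
      have e3 : ‖∑ n ∈ (Icc 1 ⌊3 * X⌋₊).filter (fun n => ¬ n.Coprime g), (a n : ℂ) * ψ (n : ZMod f)‖ ≤ E := by
        refine (norm_sum_le _ _).trans ?_
        refine le_trans ?_ hnc
        have h3 : ∑ n ∈ (Icc 1 ⌊3 * X⌋₊).filter (fun n => ¬ n.Coprime g), ‖(a n : ℂ) * ψ (n : ZMod f)‖ ≤
            ∑ n ∈ (Icc 1 ⌊3 * X⌋₊).filter (fun n => ¬ n.Coprime g), a n := by
          apply sum_le_sum
          intro n _
          rw [norm_mul, Complex.norm_real, Real.norm_eq_abs, abs_of_nonneg (ha0 n)]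
          calc a n * ‖ψ (n : ZMod f)‖ ≤ a n * 1 := mul_le_mul_of_nonneg_left (ψ.norm_le_one _) (ha0 n)
            _ = _ := mul_one _
        refine h3.trans ?_
        apply sum_le_sum_of_subset_of_nonneg
        · intro n hn
          rw [mem_filter] at hn ⊢
          refine ⟨hn.1, fun h => hn.2 ?_⟩
          exact Nat.Coprime.coprime_mul_left_right h
        · intro n _ _
          exact ha0 n
      change ‖A ⌊3 * X⌋₊ a f ψ‖ ≤ R3 d X f ψ (fun n => ArithmeticFunction.vonMangoldt n) at e1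
      linarith)
  have h3 : ∑ χ ∈ (univ : Finset (DirichletCharacter ℂ m)).filter (fun χ => χ ≠ 1), ‖A ⌊3 * X⌋₊ a m χ‖ ≤
      (∑ f ∈ m.divisors.filter (fun f => f ≠ 1), TG d X (fun n => ArithmeticFunction.vonMangoldt n) f) +
        Nat.totient m * E := by
    calc ∑ χ ∈ (univ : Finset (DirichletCharacter ℂ m)).filter (fun χ => χ ≠ 1), ‖A ⌊3 * X⌋₊ a m χ‖ ≤
        ∑ χ ∈ (univ : Finset (DirichletCharacter ℂ m)).filter (fun χ => χ ≠ 1),
          (max (‖A ⌊3 * X⌋₊ a m χ‖ - E) 0 + E) := by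
          apply sum_le_sum
          intro χ _
          have := le_max_left (‖A ⌊3 * X⌋₊ a m χ‖ - E) 0
          linarith
      _ = ∑ χ ∈ (univ : Finset (DirichletCharacter ℂ m)).filter (fun χ => χ ≠ 1),
          max (‖A ⌊3 * X⌋₊ a m χ‖ - E) 0 +
          (((univ : Finset (DirichletCharacter ℂ m)).filter (fun χ => χ ≠ 1)).card : ℝ) * E := by
          rw [sum_add_distrib, sum_const, nsmul_eq_mul]
      _ ≤ _ := by
          apply add_le_add
          · exact h2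
          · apply mul_le_mul_of_nonneg_right _ hE0
            have h4 := DirichletCharacter.card_eq_totient_of_hasEnoughRootsOfUnity ℂ m
            rw [← h4, Nat.card_eq_fintype_card]
            exact_mod_cast (card_filter_le _ _)
  -- principal character
  have h5 : ∑ n ∈ Icc 1 ⌊3 * X⌋₊, a n - ∑ n ∈ (Icc 1 ⌊3 * X⌋₊).filter (fun n => n.Coprime m), a n =
      ∑ n ∈ (Icc 1 ⌊3 * X⌋₊).filter (fun n => ¬ n.Coprime m), a n := by
    rw [← sum_filter_add_sum_filter_not (Icc 1 ⌊3 * X⌋₊) (fun n => n.Coprime m)]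
    ring
  have h7 : 0 ≤ ∑ n ∈ (Icc 1 ⌊3 * X⌋₊).filter (fun n => ¬ n.Coprime m), a n := sum_nonneg fun n _ => ha0 n
  have hLP : LPs d X = ∑ n ∈ Icc 1 ⌊3 * X⌋₊, a n := rfl
  rw [hLP]
  set P0 := ∑ n ∈ (Icc 1 ⌊3 * X⌋₊).filter (fun n => n.Coprime m), a n with hP0
  set P1 := ∑ n ∈ Icc 1 ⌊3 * X⌋₊, a n with hP1
  have h8 : |(1 / (Nat.totient m : ℝ)) * P0 - (1 / (Nat.totient m : ℝ)) * P1| ≤ E := by
    have : (1 / (Nat.totient m : ℝ)) * P0 - (1 / (Nat.totient m : ℝ)) * P1 =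
        -((P1 - P0) / (Nat.totient m : ℝ)) := by ring
    rw [this, abs_neg, h5, abs_of_nonneg (by positivity)]
    rw [div_le_iff₀ (by linarith)]
    calc _ ≤ E := hnc
      _ = E * 1 := by ring
      _ ≤ E * (Nat.totient m : ℝ) := mul_le_mul_of_nonneg_left hφ hE0
  have h9 : (1 / (Nat.totient m : ℝ)) *
      ∑ χ ∈ (univ : Finset (DirichletCharacter ℂ m)).filter (fun χ => χ ≠ 1), ‖A ⌊3 * X⌋₊ a m χ‖ ≤
      (1 / (Nat.totient m : ℝ)) * (∑ f ∈ m.divisors.filter (fun f => f ≠ 1),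
        TG d X (fun n => ArithmeticFunction.vonMangoldt n) f) + E := by
    calc _ ≤ (1 / (Nat.totient m : ℝ)) * ((∑ f ∈ m.divisors.filter (fun f => f ≠ 1),
        TG d X (fun n => ArithmeticFunction.vonMangoldt n) f) + Nat.totient m * E) :=
          mul_le_mul_of_nonneg_left h3 (by positivity)
      _ = _ := by
          have : (Nat.totient m : ℝ) ≠ 0 := by positivity
          field_simp
  have h10 : P1 / (Nat.totient m : ℝ) = (1 / (Nat.totient m : ℝ)) * P1 := by ring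
  rw [h10]
  calc _ = |(∑ n ∈ (Icc 1 ⌊3 * X⌋₊).filter (fun n => n ≡ b [MOD m]), a n - (1 / (Nat.totient m : ℝ)) * P0) +
        ((1 / (Nat.totient m : ℝ)) * P0 - (1 / (Nat.totient m : ℝ)) * P1)| := by
        congr 1; ring
    _ ≤ _ := abs_add_le _ _
    _ ≤ _ := by linarith

/-- from pairs to the error terms -/
theorem EPs_sum (d : ℝ) (hd0 : 0 ≤ d) (hd : d ≤ 1 / 2) (A : ℕ) : ∀ᶠ X : ℝ in atTop, ∀ (ps : ℕ) (S : Finset ℕ),
    ∑ p ∈ pairs X ps ⌊X ^ (497 / 1000 : ℝ)⌋₊ S, wt A p.2 *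
        TG d X (fun n => ArithmeticFunction.vonMangoldt n) (p.1 * p.2) ≤
      X / (Real.log X) ^ (2 ^ (A + 1) + A + 1) →
    ∀ b : ℕ → ℕ, (∀ q, 1 ≤ q → (b q).Coprime (WW X S ps * q)) →
    ∑ q ∈ QQ (WW X S ps) ps ⌊X ^ (497 / 1000 : ℝ)⌋₊, (q.divisors.card : ℝ) ^ A *
      |∑ n ∈ (Icc 1 ⌊3 * X⌋₊).filter (fun n => n ≡ b q [MOD WW X S ps * q]),
          Ps d X n * ArithmeticFunction.vonMangoldt n -
        LPs d X / (Nat.totient (WW X S ps * q) : ℝ)| ≤ X / ((Nat.totient (WW X S ps) : ℝ) * (Real.log X) ^ A) := by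
  filter_upwards [BV.omega_part A, eventually_ge_atTop (4:ℝ),
    Real.tendsto_log_atTop.eventually_ge_atTop (2 * 2 ^ (2 ^ (A + 1)) : ℝ)] with X hom hX hLK
  intro ps S hpairs b hb
  have hX0 : 0 < X := by linarith
  have hX1 : 1 ≤ X := by linarith
  have hL1 : 1 ≤ Real.log X := by
    rw [Real.le_log_iff_exp_le hX0]
    have := Real.exp_one_lt_d9
    linarith
  set L := Real.log X with hL
  have hL0 : 0 < L := by linarith
  set W := WW X S ps with hW
  set R := ⌊X ^ (497 / 1000 : ℝ)⌋₊ with hR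
  set T : ℕ → ℝ := TG d X (fun n => ArithmeticFunction.vonMangoldt n) with hT
  have hT0 : ∀ f, 0 ≤ T f := fun f => TG_nonneg _ _ _ _
  have hW1 : 1 ≤ W := WW_pos X S ps
  have hφW : (0:ℝ) < Nat.totient W := by exact_mod_cast Nat.totient_pos.mpr hW1
  have hsumwt := BV.sum_wtR A X hX
  rw [← hR, ← hL] at hsumwt
  have hsumwt0 : 0 ≤ ∑ e ∈ Icc 1 R, wt A e := sum_nonneg fun e _ => wt_nonneg A e
  have hpairs0 : 0 ≤ ∑ p ∈ pairs X ps R S, wt A p.2 * T (p.1 * p.2) :=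
    sum_nonneg fun p _ => mul_nonneg (wt_nonneg A _) (hT0 _)
  have s0 : ∑ q ∈ QQ W ps R, (q.divisors.card : ℝ) ^ A *
      |∑ n ∈ (Icc 1 ⌊3 * X⌋₊).filter (fun n => n ≡ b q [MOD W * q]),
          Ps d X n * ArithmeticFunction.vonMangoldt n - LPs d X / (Nat.totient (W * q) : ℝ)| ≤
      ∑ q ∈ QQ W ps R, (q.divisors.card : ℝ) ^ A * ((1 / (Nat.totient (W * q) : ℝ)) *
        ∑ f ∈ (W * q).divisors.filter (fun f => f ≠ 1), T f) +
      ∑ q ∈ QQ W ps R, (q.divisors.card : ℝ) ^ A *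
        (2 * ((W * q).primeFactors.card * Real.log (3 * X))) := by
    rw [← sum_add_distrib]
    apply sum_le_sum
    intro q hq
    rw [mem_QQ] at hq
    rw [← mul_add]
    apply mul_le_mul_of_nonneg_left _ (by positivity)
    exact EPs_le d X hd0 hd hX1 (W * q) (b q) (Nat.mul_pos hW1 hq.1.1) (hb q hq.1.1)
  have s1 := main_swap A T hT0 W ps R hW1
  have s2 : (1 / (Nat.totient W : ℝ)) * ((∑ e ∈ Icc 1 R, wt A e) *
    ∑ p ∈ (W.divisors ×ˢ QQ W ps R).filter (fun p => p.1 * p.2 ≠ 1),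
      wt A p.2 * T (p.1 * p.2)) ≤ (1 / 2) * (X / ((Nat.totient W : ℝ) * L ^ A)) := by
    set K := 2 ^ (A + 1) with hK
    calc _ ≤ (1 / (Nat.totient W : ℝ)) * ((2 ^ K * L ^ K) * (X / L ^ (K + A + 1))) := by
          apply mul_le_mul_of_nonneg_left _ (by positivity)
          exact mul_le_mul hsumwt hpairs hpairs0 (by positivity)
      _ = (1 / 2) * ((2 * 2 ^ K) / L) * (X / ((Nat.totient W : ℝ) * L ^ A)) := by
          rw [pow_add, pow_add, pow_one]
          field_simp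
      _ ≤ (1 / 2) * 1 * (X / ((Nat.totient W : ℝ) * L ^ A)) := by
          gcongr
          rw [div_le_one (by positivity)]
          exact hLK
      _ = _ := by ring
  have s3 := hom ps S
  linarith

end Pool.Agent.J4H73.CG
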