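import Pool.Agent.J4H73.CG.FinS

/-! The final forms for three prime factors. -/

set_option autoImplicit false

open Finset Filter

namespace Pool.Agent.J4H73.CG

theorem small_RR (c : ℝ) (hc : 0 < c) : ∀ᶠ X : ℝ in atTop, c * CH.RR X ≤ X / 4 := by
  have t1 := Real.tendsto_log_atTop
  have t2 : Tendsto (fun y : ℝ => Real.log (Real.log y)) atTop atTop := t1.comp t1
  filter_upwards [Pool.Agent.H312R2.RG.ev_ff c hc, t2.eventually_ge_atTop 1,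
    Pool.Agent.H398R2.BV.ev_log 4 2 1 (by norm_num)] with X a6 a7 a8
  have hRR : c * CH.RR X ≤ (Real.log X) ^ 2 := by
    refine le_trans ?_ a6.1
    apply mul_le_mul_of_nonneg_left _ hc.le
    unfold CH.RR
    exact div_le_self a6.2.1 a7
  rw [Real.rpow_one] at a8
  linarith

theorem gap3 (δ : ℝ) (hδ : 0 < δ) : ∃ c : ℝ, 0 < c ∧ ∃ N₀ : ℕ, ∀ N : ℕ, N₀ ≤ N → ∀ h : ℤ, 2 ∣ h → h ≠ 0 →
    |(h : ℝ)| ≤ c * rankin N →
      (N : ℝ) ^ (9 / 10 : ℝ) ≤ Set.ncard {p : ℕ | N < p ∧ p ≤ 3 * N ∧ p.Prime ∧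
        Alm 3 ((N : ℝ) ^ (19 / 100 : ℝ)) (p + h) ∧
        ∀ z : ℤ, |(z : ℝ) - p| ≤ c * rankin N → z ≠ p → z ≠ p + h →
          ∃ q : ℕ, q.Prime ∧ (q : ℝ) ≤ (N : ℝ) ^ δ ∧ (q : ℤ) ∣ z} := by
  obtain ⟨c, hc, H⟩ := p3Z δ hδ
  apply gap_of 3 (19 / 100) δ c hc
  filter_upwards [H, small_RR c hc, eventually_gt_atTop 1] with X h1 h2 h3
  intro h g1 g2 g3
  apply h1 h g1
  refine ⟨g2, by linarith, ?_⟩
  intro n hn1 hn2 h0
  have e : (n : ℝ) + h = 0 := by exact_mod_cast h0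
  have := neg_abs_le (h : ℝ)
  linarith

theorem goldbach3 (δ : ℝ) (hδ : 0 < δ) : ∃ c : ℝ, 0 < c ∧ ∃ N₀ : ℕ, ∀ N : ℕ, N₀ ≤ N → 2 ∣ N →
      (N : ℝ) ^ (7 / 8 : ℝ) ≤ Set.ncard {p : ℕ | p ≤ N ∧ p.Prime ∧ Alm 3 ((N : ℝ) ^ (3 / 16 : ℝ)) (N - p) ∧
        ∀ z : ℤ, |(z : ℝ) - p| ≤ c * rankin N → z ≠ p →
          ∃ q : ℕ, q.Prime ∧ (q : ℝ) ≤ (N : ℝ) ^ δ ∧ (q : ℤ) ∣ z} := by
  obtain ⟨c, hc, H⟩ := p3Z δ hδ
  apply goldbach_of 3 (19 / 100) (3 / 16) δ c hδ (by norm_num) (by norm_num) hc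
  filter_upwards [H, eventually_gt_atTop 1] with X h1 h3
  intro h g1 g2
  apply h1 h g1
  have hE1 : (3 : ℝ) / 2 < Real.exp (1 / 2) := by
    have := Real.add_one_lt_exp (show (1 / 2 : ℝ) ≠ 0 by norm_num)
    linarith
  have hE2 : Real.exp (1 / 2) ≤ 3 := by
    have := Real.exp_one_lt_d9
    have h4 : Real.exp (1 / 2) ≤ Real.exp 1 := Real.exp_le_exp.2 (by norm_num)
    linarith
  refine ⟨?_, ?_, ?_⟩
  · rintro rfl
    simp only [Int.cast_zero] at g2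
    nlinarith
  · rw [g2, abs_neg, abs_of_pos (by positivity)]
    nlinarith
  · intro n hn1 hn2 h0
    have e : (n : ℝ) + h = 0 := by exact_mod_cast h0
    rw [g2] at e
    nlinarith

end Pool.Agent.J4H73.CG
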