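import Pool.Agent.J4H73.CG.P3Z

/-! The final forms. -/

set_option autoImplicit false

open Finset Filter

namespace Pool.Agent.J4H73.CG

/-- Rankin's function -/
noncomputable def rankin (x : ℝ) : ℝ :=
  Real.log x * Real.log (Real.log x) * Real.log (Real.log (Real.log (Real.log x))) /
    Real.log (Real.log (Real.log x)) ^ 2

theorem RR_eq : ∀ᶠ X : ℝ in atTop, CH.RR X = rankin X := by
  have t1 := Real.tendsto_log_atTop
  have t2 : Tendsto (fun y : ℝ => Real.log (Real.log y)) atTop atTop := t1.comp t1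
  filter_upwards [t2.eventually_gt_atTop 0] with X h
  unfold CH.RR Pool.Agent.H256R2.SC.ff rankin
  field_simp

theorem rankin_scale (C : ℝ) (hC : 1 ≤ C) : ∀ᶠ X : ℝ in atTop, 0 ≤ rankin X ∧ rankin (C * X) ≤ 2 * rankin X := by
  have t1 := Real.tendsto_log_atTop
  have t2 : Tendsto (fun y : ℝ => Real.log (Real.log y)) atTop atTop := t1.comp t1
  have t3 : Tendsto (fun y : ℝ => Real.log (Real.log (Real.log y))) atTop atTop := t1.comp t2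
  have t4 : Tendsto (fun y : ℝ => Real.log (Real.log (Real.log (Real.log y)))) atTop atTop := t1.comp t3
  filter_upwards [eventually_ge_atTop 1, t1.eventually_ge_atTop (10 * Real.log C + 10), t2.eventually_ge_atTop 10,
    t3.eventually_ge_atTop 10, t4.eventually_ge_atTop 10] with X hX1 h1 h2 h3 h4
  have hX0 : 0 < X := by linarith
  have hC0 : 0 < C := by linarith
  have hlC : 0 ≤ Real.log C := Real.log_nonneg hC
  set L := Real.log X with hL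
  set l2 := Real.log L with hl2
  set l3 := Real.log l2 with hl3
  set l4 := Real.log l3 with hl4
  have small : ∀ t : ℝ, 10 ≤ t → ∀ s : ℝ, t ≤ s → s ≤ 1.1 * t → Real.log t ≤ Real.log s ∧
      (10 ≤ Real.log t → Real.log s ≤ 1.1 * Real.log t) := by
    intro t ht s hts hs
    have ht0 : 0 < t := by linarith
    refine ⟨Real.log_le_log ht0 hts, fun h => ?_⟩
    have h5 : Real.log s ≤ Real.log (1.1 * t) := Real.log_le_log (by linarith) hs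
    rw [Real.log_mul (by norm_num) ht0.ne'] at h5
    have h6 : Real.log 1.1 ≤ 1.1 - 1 := Real.log_le_sub_one_of_pos (by norm_num)
    linarith
  have hL' : Real.log (C * X) = Real.log C + L := Real.log_mul hC0.ne' hX0.ne'
  have hLle : L ≤ Real.log (C * X) := by rw [hL']; linarith
  have hLle2 : Real.log (C * X) ≤ 1.1 * L := by rw [hL']; linarith
  obtain ⟨a1, a2⟩ := small L (by linarith) _ hLle hLle2
  have a3 := a2 h2
  obtain ⟨b1, b2⟩ := small l2 h2 _ a1 a3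
  have b3 := b2 h3
  obtain ⟨c1, c2⟩ := small l3 h3 _ b1 b3
  have c3 := c2 h4
  have p1 : 0 < L := by linarith
  have p2 : 0 < l2 := by linarith
  have p3 : 0 < l3 := by linarith
  have p4 : 0 < l4 := by linarith
  have hpos : 0 ≤ L * l2 * l4 / l3 ^ 2 := by positivity
  constructor
  · exact hpos
  unfold rankin
  calc Real.log (C * X) * Real.log (Real.log (C * X)) * Real.log (Real.log (Real.log (Real.log (C * X)))) /
      Real.log (Real.log (Real.log (C * X))) ^ 2 ≤ (1.1 * L) * (1.1 * l2) * (1.1 * l4) / l3 ^ 2 := by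
        have d1 : 0 ≤ Real.log (Real.log (C * X)) := by linarith
        have d2 : 0 ≤ Real.log (Real.log (Real.log (Real.log (C * X)))) := by linarith
        gcongr
    _ = 1.331 * (L * l2 * l4 / l3 ^ 2) := by ring
    _ ≤ 2 * (L * l2 * l4 / l3 ^ 2) := by
        exact mul_le_mul_of_nonneg_right (by norm_num) hpos

/-- `m` has at most `k` prime factors, all `≥ Q` -/
def Alm (k : ℕ) (Q : ℝ) (m : ℤ) : Prop :=
  m.natAbs.primeFactorsList.length ≤ k ∧ ∀ q : ℕ, q.Prime → (q : ℤ) ∣ m → Q ≤ q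

open Classical in
/-- the gap form -/
theorem gap_of (k : ℕ) (ω δ c : ℝ) (hc : 0 < c)
    (H : ∀ᶠ X : ℝ in atTop, ∀ h : ℤ, 2 ∣ h → h ≠ 0 → |(h : ℝ)| ≤ c * CH.RR X →
      X ^ (9 / 10 : ℝ) ≤ (((Icc 1 ⌊3 * X⌋₊).filter (fun n : ℕ => X < n ∧ n.Prime ∧
        CH.AP k ω X ((n : ℤ) + h).natAbs ∧
        ∀ z : ℤ, |(z : ℝ)| ≤ c * CH.RR X → z ≠ 0 → z ≠ h →
          ∃ q : ℕ, q.Prime ∧ (q : ℝ) ≤ X ^ δ ∧ (q : ℤ) ∣ n + z)).card : ℝ)) :
    ∃ c : ℝ, 0 < c ∧ ∃ N₀ : ℕ, ∀ N : ℕ, N₀ ≤ N → ∀ h : ℤ, 2 ∣ h → h ≠ 0 → |(h : ℝ)| ≤ c * rankin N →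
      (N : ℝ) ^ (9 / 10 : ℝ) ≤ Set.ncard {p : ℕ | N < p ∧ p ≤ 3 * N ∧ p.Prime ∧ Alm k ((N : ℝ) ^ ω) (p + h) ∧
        ∀ z : ℤ, |(z : ℝ) - p| ≤ c * rankin N → z ≠ p → z ≠ p + h →
          ∃ q : ℕ, q.Prime ∧ (q : ℝ) ≤ (N : ℝ) ^ δ ∧ (q : ℤ) ∣ z} := by
  obtain ⟨N0, hN0⟩ := eventually_atTop.1 (tendsto_natCast_atTop_atTop.eventually (H.and RR_eq))
  refine ⟨c, hc, N0, fun N hN h h2 h0 hh => ?_⟩
  obtain ⟨g1, g2⟩ := hN0 N hN
  rw [g2] at g1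
  refine (g1 h h2 h0 hh).trans ?_
  rw [← Set.ncard_coe_finset]
  have hfin : {p : ℕ | N < p ∧ p ≤ 3 * N ∧ p.Prime ∧ Alm k ((N : ℝ) ^ ω) (p + h) ∧
        ∀ z : ℤ, |(z : ℝ) - p| ≤ c * rankin N → z ≠ p → z ≠ p + h →
          ∃ q : ℕ, q.Prime ∧ (q : ℝ) ≤ (N : ℝ) ^ δ ∧ (q : ℤ) ∣ z}.Finite :=
    (Set.finite_Iic (3 * N)).subset fun p hp => hp.2.1
  have hle : ((((Icc 1 ⌊3 * (N : ℝ)⌋₊).filter (fun n : ℕ => (N : ℝ) < n ∧ n.Prime ∧
        CH.AP k ω N ((n : ℤ) + h).natAbs ∧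
        ∀ z : ℤ, |(z : ℝ)| ≤ c * rankin N → z ≠ 0 → z ≠ h →
          ∃ q : ℕ, q.Prime ∧ (q : ℝ) ≤ (N : ℝ) ^ δ ∧ (q : ℤ) ∣ n + z) : Finset ℕ) : Set ℕ)).ncard ≤
      Set.ncard {p : ℕ | N < p ∧ p ≤ 3 * N ∧ p.Prime ∧ Alm k ((N : ℝ) ^ ω) (p + h) ∧
        ∀ z : ℤ, |(z : ℝ) - p| ≤ c * rankin N → z ≠ p → z ≠ p + h →
          ∃ q : ℕ, q.Prime ∧ (q : ℝ) ≤ (N : ℝ) ^ δ ∧ (q : ℤ) ∣ z} := by
    apply Set.ncard_le_ncard _ hfin
    intro p hp
    rw [mem_coe, mem_filter, mem_Icc] at hp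
    obtain ⟨⟨hp1, hp2⟩, hp3, hp4, hp5, hp6⟩ := hp
    have h3N : ⌊3 * (N : ℝ)⌋₊ = 3 * N := by
      have : (3 * (N : ℝ)) = ((3 * N : ℕ) : ℝ) := by push_cast; ring
      rw [this, Nat.floor_natCast]
    refine ⟨by exact_mod_cast hp3, by rw [← h3N]; exact hp2, hp4, ⟨hp5.1, ?_⟩, ?_⟩
    · intro q hq hqd
      exact hp5.2 q hq ((dvd_natAbs_iff q _).2 hqd)
    · intro z hz1 hz2 hz3
      obtain ⟨q, hq1, hq2, hq3⟩ := hp6 (z - p) (by push_cast; exact hz1) (sub_ne_zero.2 hz2) (by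
        intro h4
        apply hz3
        linarith)
      refine ⟨q, hq1, hq2, ?_⟩
      have : (p : ℤ) + (z - p) = z := by ring
      rwa [this] at hq3
  exact_mod_cast hle

open Classical in
/-- the Goldbach form -/
theorem goldbach_of (k : ℕ) (ω ω' δ c : ℝ) (hδ : 0 < δ) (hω' : 0 < ω') (hω : ω' < ω) (hc : 0 < c)
    (H : ∀ᶠ X : ℝ in atTop, ∀ h : ℤ, 2 ∣ h → (h : ℝ) = -(2 * Real.exp (1 / 2) * X) →
      X ^ (9 / 10 : ℝ) ≤ (((Icc 1 ⌊3 * X⌋₊).filter (fun n : ℕ => X < n ∧ n.Prime ∧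
        CH.AP k ω X ((n : ℤ) + h).natAbs ∧
        ∀ z : ℤ, |(z : ℝ)| ≤ c * CH.RR X → z ≠ 0 → z ≠ h →
          ∃ q : ℕ, q.Prime ∧ (q : ℝ) ≤ X ^ δ ∧ (q : ℤ) ∣ n + z)).card : ℝ)) :
    ∃ c : ℝ, 0 < c ∧ ∃ N₀ : ℕ, ∀ N : ℕ, N₀ ≤ N → 2 ∣ N →
      (N : ℝ) ^ (7 / 8 : ℝ) ≤ Set.ncard {p : ℕ | p ≤ N ∧ p.Prime ∧ Alm k ((N : ℝ) ^ ω') (N - p) ∧
        ∀ z : ℤ, |(z : ℝ) - p| ≤ c * rankin N → z ≠ p →
          ∃ q : ℕ, q.Prime ∧ (q : ℝ) ≤ (N : ℝ) ^ δ ∧ (q : ℤ) ∣ z} := by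
  set E : ℝ := 2 * Real.exp (1 / 2) with hE
  have hE1 : 1 ≤ Real.exp (1 / 2) := Real.one_le_exp (by norm_num)
  have hEge : (3 : ℝ) < E := by
    have := Real.add_one_lt_exp (show (1 / 2 : ℝ) ≠ 0 by norm_num)
    rw [hE]
    linarith
  have hE0 : 0 < E := by linarith
  have evX : ∀ᶠ X : ℝ in atTop, (E * X) ^ (7 / 8 : ℝ) ≤ X ^ (9 / 10 : ℝ) ∧ (E * X) ^ ω' ≤ X ^ ω ∧
      E * X ≤ X ^ 2 ∧ c / 2 * rankin (E * X) ≤ X / 4 := by
    have h1 : ∀ a b : ℝ, a < b → 0 ≤ a → ∀ᶠ X : ℝ in atTop, (E * X) ^ a ≤ X ^ b := by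
      intro a b hab ha
      filter_upwards [eventually_gt_atTop 0, (tendsto_rpow_atTop (show 0 < b - a by linarith)).eventually_ge_atTop
        (E ^ a)] with X hX h
      rw [Real.mul_rpow hE0.le hX.le]
      calc E ^ a * X ^ a ≤ X ^ (b - a) * X ^ a := mul_le_mul_of_nonneg_right h (by positivity)
        _ = X ^ b := by rw [← Real.rpow_add hX]; congr 1; ring
    have t1 := Real.tendsto_log_atTop
    have t2 : Tendsto (fun y : ℝ => Real.log (Real.log y)) atTop atTop := t1.comp t1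
    have hff := Pool.Agent.H312R2.RG.ev_ff c hc
    filter_upwards [h1 (7 / 8) (9 / 10) (by norm_num) (by norm_num), h1 ω' ω hω hω'.le,
      eventually_ge_atTop E, rankin_scale E (by linarith), RR_eq, hff, t2.eventually_ge_atTop 1,
      Pool.Agent.H398R2.BV.ev_log 4 2 1 (by norm_num), eventually_ge_atTop 1] with X a1 a2 a3 a4 a5 a6 a7 a8 a9
    refine ⟨a1, a2, ?_, ?_⟩
    · rw [sq]
      exact mul_le_mul_of_nonneg_right a3 (by linarith)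
    · have hRR : c * CH.RR X ≤ (Real.log X) ^ 2 := by
        refine le_trans ?_ a6.1
        apply mul_le_mul_of_nonneg_left _ hc.le
        unfold CH.RR
        exact div_le_self a6.2.1 a7
      rw [a5] at hRR
      rw [Real.rpow_one] at a8
      calc c / 2 * rankin (E * X) ≤ c / 2 * (2 * rankin X) :=
            mul_le_mul_of_nonneg_left a4.2 (by positivity)
        _ = c * rankin X := by ring
        _ ≤ _ := by linarith
  obtain ⟨X0, hX0⟩ := eventually_atTop.1 (((H.and RR_eq).and (rankin_scale E (by linarith))).and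
    (evX.and (eventually_ge_atTop 10)))
  refine ⟨c / 2, by positivity, ⌈E * X0⌉₊, fun N hN h2 => ?_⟩
  set X : ℝ := N / E with hX
  have hEX : E * X = N := by rw [hX]; field_simp
  have hXX0 : X0 ≤ X := by
    rw [hX, le_div_iff₀ hE0]
    have h1 : E * X0 ≤ ⌈E * X0⌉₊ := Nat.le_ceil _
    have h3 : ((⌈E * X0⌉₊ : ℕ) : ℝ) ≤ N := by exact_mod_cast hN
    linarith
  obtain ⟨⟨⟨g1, g2⟩, g3, g4⟩, ⟨g5, g6, g7, g8⟩, g9⟩ := hX0 X hXX0
  rw [hEX] at g4 g5 g6 g7 g8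
  rw [g2] at g1
  have hX1 : 1 ≤ X := by linarith
  have hXpos : 0 < X := by linarith
  have hXN : X ≤ N := by
    rw [← hEX]
    nlinarith
  refine g5.trans ((g1 (-(N : ℤ)) (by
    rw [dvd_neg]
    exact_mod_cast h2) (by push_cast; rw [hEX])).trans ?_)
  rw [← Set.ncard_coe_finset]
  have hfin : {p : ℕ | p ≤ N ∧ p.Prime ∧ Alm k ((N : ℝ) ^ ω') (N - p) ∧
        ∀ z : ℤ, |(z : ℝ) - p| ≤ c / 2 * rankin N → z ≠ p →
          ∃ q : ℕ, q.Prime ∧ (q : ℝ) ≤ (N : ℝ) ^ δ ∧ (q : ℤ) ∣ z}.Finite :=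
    (Set.finite_Iic N).subset fun p hp => hp.1
  have hle : ((((Icc 1 ⌊3 * X⌋₊).filter (fun n : ℕ => X < n ∧ n.Prime ∧
        CH.AP k ω X ((n : ℤ) + (-(N : ℤ))).natAbs ∧
        ∀ z : ℤ, |(z : ℝ)| ≤ c * rankin X → z ≠ 0 → z ≠ (-(N : ℤ)) →
          ∃ q : ℕ, q.Prime ∧ (q : ℝ) ≤ X ^ δ ∧ (q : ℤ) ∣ n + z) : Finset ℕ) : Set ℕ)).ncard ≤
      Set.ncard {p : ℕ | p ≤ N ∧ p.Prime ∧ Alm k ((N : ℝ) ^ ω') (N - p) ∧
        ∀ z : ℤ, |(z : ℝ) - p| ≤ c / 2 * rankin N → z ≠ p →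
          ∃ q : ℕ, q.Prime ∧ (q : ℝ) ≤ (N : ℝ) ^ δ ∧ (q : ℤ) ∣ z} := by
    apply Set.ncard_le_ncard _ hfin
    intro p hp
    rw [mem_coe, mem_filter, mem_Icc] at hp
    obtain ⟨⟨hp1, hp2⟩, hp3, hp4, hp5, hp6⟩ := hp
    have hp3X : (p : ℝ) ≤ 3 * X := (Nat.le_floor_iff (by positivity)).1 hp2
    have hpN : (p : ℝ) ≤ N := by
      rw [← hEX]
      nlinarith
    refine ⟨by exact_mod_cast hpN, hp4, ⟨?_, ?_⟩, ?_⟩
    · have e : ((p : ℤ) + -(N : ℤ)).natAbs = ((N : ℤ) - p).natAbs := by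
        rw [← Int.natAbs_neg]
        congr 1
        ring
      rw [← e]
      exact hp5.1
    · intro q hq hqd
      refine g6.trans (hp5.2 q hq ((dvd_natAbs_iff q _).2 ?_))
      have e : (p : ℤ) + -(N : ℤ) = -((N : ℤ) - p) := by ring
      rw [e, dvd_neg]
      exact hqd
    · intro z hz1 hz2
      obtain ⟨q, hq1, hq2, hq3⟩ := hp6 (z - p) (by
        push_cast
        refine hz1.trans ?_
        calc c / 2 * rankin N ≤ c / 2 * (2 * rankin X) := mul_le_mul_of_nonneg_left g4 (by positivity)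
          _ = _ := by ring) (sub_ne_zero.2 hz2) (by
        intro h4
        have h5 : (z : ℝ) - p = -(N : ℝ) := by exact_mod_cast h4
        rw [h5, abs_neg, abs_of_nonneg (Nat.cast_nonneg N)] at hz1
        linarith)
      refine ⟨q, hq1, hq2.trans (Real.rpow_le_rpow hXpos.le hXN hδ.le), ?_⟩
      have : (p : ℤ) + (z - p) = z := by ring
      rwa [this] at hq3
  exact_mod_cast hle

end Pool.Agent.J4H73.CG
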