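import Pool.Agent.J4H73.CG.AsmZ
import Pool.Agent.J4H73.CH.P3

/-! Primes `p` such that `p + h` has at most three prime factors, for all integer shifts. -/

set_option autoImplicit false

open Finset Filter

namespace Pool.Agent.J4H73.CG

open Pool.Agent.H378R2 Pool.Agent.H378R2.LSBV Pool.Agent.N610.AP Pool.Agent.Y882
open Pool.Agent.J4H73.BV Pool.Agent.J4H73.CH
open Pool.Agent.W23.DC (Mer pr SF)
open Pool.Agent

/-- the shifts -/
def HZ (X : ℝ) (h : ℤ) : Prop := h ≠ 0 ∧ |(h : ℝ)| ≤ 9 * X ∧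
  ∀ n : ℕ, X < n → (n : ℝ) ≤ 3 * X → (n : ℤ) + h ≠ 0

theorem ev_exp6 (K : ℝ) : ∀ᶠ X : ℝ in atTop, K ≤ Real.exp ((Real.log (Real.log X)) ^ 6) := by
  have t1 := Real.tendsto_log_atTop
  have t2 : Tendsto (fun y : ℝ => Real.log (Real.log y)) atTop atTop := t1.comp t1
  have t3 : Tendsto (fun y : ℝ => Real.exp ((Real.log (Real.log y)) ^ 6)) atTop atTop :=
    Real.tendsto_exp_atTop.comp ((tendsto_pow_atTop (by norm_num : (6 : ℕ) ≠ 0)).comp t2)
  exact t3.eventually_ge_atTop K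

open Classical in
theorem p3Z : ∀ δ₁ : ℝ, 0 < δ₁ → ∃ c : ℝ, 0 < c ∧ ∀ᶠ X : ℝ in atTop, ∀ h : ℤ, 2 ∣ h → HZ X h →
      X ^ (9 / 10 : ℝ) ≤ (((Icc 1 ⌊3 * X⌋₊).filter (fun n : ℕ => X < n ∧ n.Prime ∧
        CH.AP 3 (19 / 100) X ((n : ℤ) + h).natAbs ∧
        ∀ z : ℤ, |(z : ℝ)| ≤ c * CH.RR X → z ≠ 0 → z ≠ h →
          ∃ q : ℕ, q.Prime ∧ (q : ℝ) ≤ X ^ δ₁ ∧ (q : ℤ) ∣ n + z)).card : ℝ) := by
  obtain ⟨A0, F, f, hSF⟩ := Pool.Agent.W366.DC.SFX
  obtain ⟨C0, hT1⟩ := TT_h1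
  obtain ⟨C1, hT1'⟩ := TGL_h1 (1 / 2) (by norm_num) le_rfl
  have hlam : (31 : ℝ) / 20 ≤ 1 / (20 / 31) := by norm_num
  have hJ := KW.cond_B (62 / 125) (20 / 31) (by norm_num) (by norm_num) hlam
  have e1 : (2 / 5 * (62 / 125) : ℝ) = 124 / 625 := by norm_num
  have e2 : (9 / 10 * (62 / 125) : ℝ) = 279 / 625 := by norm_num
  rw [e1, e2] at hJ
  refine assembleZ A0 F f hSF (1 / 2) (by norm_num) le_rfl (62 / 125) (124 / 625) (279 / 625) (20 / 31)
    (20 / 31 / (279 / 625)) (497 / 1000)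
    (by norm_num) (by norm_num) (by norm_num) (by norm_num) (by norm_num) (by norm_num) (by norm_num)
    (by norm_num) (by norm_num) (by norm_num) hJ (by norm_num) le_rfl 20 _ le_rfl le_rfl
    (fun X f => TT X f + TG (1 / 2) X (fun n => ArithmeticFunction.vonMangoldt n) f)
    (fun X f => add_nonneg (TT_nonneg X f) (TG_nonneg _ _ _ _))
    (fun X f => le_add_of_nonneg_right (TG_nonneg _ _ _ _))
    (fun X f => le_add_of_nonneg_left (TT_nonneg _ _)) 8 (C0 + C1) ?_ ?_ ?_ HZ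
    (Filter.Eventually.of_forall fun X h hh => hh) (CH.AP 3 (19 / 100)) (fun _ _ => False) 0 0 le_rfl ?_ ?_ ?_
  · filter_upwards [hT1, hT1'] with X h1 h2
    rw [sum_add_distrib]
    calc _ ≤ _ := add_le_add h1 h2
      _ = _ := by ring
  · intro Z'
    filter_upwards [sc_log Z', TT_h2', TGL_h2 (1 / 2) (by norm_num) le_rfl, ev_exp6 61, eventually_gt_atTop 0]
      with X h1 h2 h3 h4 h5
    obtain ⟨fs, g1, g2⟩ := h1
    refine ⟨fs, g1, fun f _ k2 k3 k4 => ?_⟩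
    have hs : SCf X f := fun ψ hψ => g2 f k2 k3 k4 ψ hψ
    have a1 := h2 f k2 k3 hs
    have a2 := h3 f k2 k3 hs
    set lam := Real.log (Real.log X)
    calc _ ≤ 61 * (X * Real.exp (lam ^ 6 - lam ^ 7)) := by linarith
      _ ≤ Real.exp (lam ^ 6) * (X * Real.exp (lam ^ 6 - lam ^ 7)) :=
          mul_le_mul_of_nonneg_right h4 (by positivity)
      _ = X * (Real.exp (lam ^ 6) * Real.exp (lam ^ 6 - lam ^ 7)) := by ring
      _ = _ := by
          rw [← Real.exp_add]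
          congr 2
          ring
  · filter_upwards [TT_large, TGL_h3 (1 / 2) (by norm_num) le_rfl, eventually_ge_atTop 1,
      (tendsto_rpow_atTop (show (0 : ℝ) < 1 / 20000 by norm_num)).eventually_ge_atTop 2] with X g1 g2 g3 g4
    intro F0 F1 h1 h2 h3
    have a1 := g1 F0 F1 h1 h2 h3
    have a2 := g2 F0 F1 h1 h2 h3
    have e : ∑ f ∈ Icc F0 F1, (1 / (f : ℝ)) *
        (TT X f + TG (1 / 2) X (fun n => ArithmeticFunction.vonMangoldt n) f) =
        ∑ f ∈ Icc F0 F1, (1 / (f : ℝ)) * TT X f +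
        ∑ f ∈ Icc F0 F1, (1 / (f : ℝ)) * TG (1 / 2) X (fun n => ArithmeticFunction.vonMangoldt n) f := by
      rw [← sum_add_distrib]
      exact sum_congr rfl fun f _ => by ring
    rw [e]
    have hX0 : 0 < X := by linarith
    calc _ ≤ 2 * X ^ (1997 / 2000 : ℝ) := by linarith
      _ ≤ X ^ (1 / 20000 : ℝ) * X ^ (1997 / 2000 : ℝ) := mul_le_mul_of_nonneg_right g4 (by positivity)
      _ = X ^ (19971 / 20000 : ℝ) := by rw [← Real.rpow_add hX0]; norm_num
  · have ev1 : ∀ᶠ X : ℝ in atTop, 16 ≤ X ^ (1 / 25 : ℝ) :=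
      (tendsto_rpow_atTop (by norm_num)).eventually_ge_atTop 16
    have ev2 : ∀ᶠ X : ℝ in atTop, 2 ≤ X ^ (1 / 1000 : ℝ) :=
      (tendsto_rpow_atTop (by norm_num)).eventually_ge_atTop 2
    filter_upwards [floor_facts, eventually_ge_atTop 4, ev1, ev2] with X hf hX4 hev1 hev2
    obtain ⟨f1, f2, f3, f4⟩ := hf
    intro N hN0 hNX
    have hX0 : 0 < X := by linarith
    have hX1 : 1 ≤ X := by linarith
    have n1 : (0 : ℝ) ≤ (if CH.AP 3 (19 / 100) X N then 1 else 0) := by split_ifs <;> norm_num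
    have n3 : (0 : ℝ) ≤ (if ∃ q ∈ pr ⌊X⌋₊ (124 / 625) (279 / 625), q ^ 2 ∣ N then 1 else 0) := by
      split_ifs <;> norm_num
    rw [zero_mul, add_zero]
    by_cases hW : KW.WW ⌊X⌋₊ (124 / 625) (279 / 625) (20 / 31) (20 / 31 / (279 / 625)) N ≤ 0
    · linarith
    push Not at hW
    have hle := KW.WW_le_one ⌊X⌋₊ (124 / 625) (279 / 625) (20 / 31) (20 / 31 / (279 / 625)) (by norm_num)
      (by norm_num) N
    by_cases hsq : ∃ q ∈ pr ⌊X⌋₊ (124 / 625) (279 / 625), q ^ 2 ∣ N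
    · rw [if_pos hsq]
      linarith
    · have hYr : (100 : ℝ) ≤ (⌊X⌋₊ : ℝ) := by exact_mod_cast f1
      have hYhalf : X ^ (999 / 1000 : ℝ) ≤ (⌊X⌋₊ : ℝ) := by
        have h1 : X ^ (999 / 1000 : ℝ) * 2 ≤ X ^ (999 / 1000 : ℝ) * X ^ (1 / 1000 : ℝ) := by gcongr
        rw [← Real.rpow_add hX0] at h1
        norm_num at h1
        linarith
      have h1 := KW.almost ⌊X⌋₊ (by omega) (124 / 625) (279 / 625) (20 / 31) (21 / 20) 3 (by norm_num)
        (by norm_num) (by norm_num) (by norm_num) (by norm_num) N (by omega) (by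
          refine hNX.trans ?_
          have h2 : X ^ (25 / 24 : ℝ) ≤ (⌊X⌋₊ : ℝ) ^ (21 / 20 : ℝ) := by
            calc X ^ (25 / 24 : ℝ) ≤ X ^ (999 / 1000 * (21 / 20) : ℝ) :=
                  Real.rpow_le_rpow_of_exponent_le hX1 (by norm_num)
              _ = (X ^ (999 / 1000 : ℝ)) ^ (21 / 20 : ℝ) := by rw [Real.rpow_mul hX0.le]
              _ ≤ _ := Real.rpow_le_rpow (by positivity) hYhalf (by norm_num)
          refine le_trans ?_ h2
          calc 12 * X ≤ X ^ (1 / 25 : ℝ) * X := by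
                apply mul_le_mul_of_nonneg_right _ hX0.le
                linarith
            _ = X ^ (1 / 25 + 1 : ℝ) := by rw [Real.rpow_add hX0, Real.rpow_one]
            _ ≤ X ^ (25 / 24 : ℝ) := Real.rpow_le_rpow_of_exponent_le hX1 (by norm_num)) hW
        (by push Not at hsq; exact hsq)
      have h2 : CH.AP 3 (19 / 100) X N := by
        refine ⟨h1.1, fun p hp hpN => le_trans ?_ (h1.2 p hp hpN)⟩
        calc X ^ (19 / 100 : ℝ) ≤ X ^ (999 / 1000 * (124 / 625) : ℝ) :=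
              Real.rpow_le_rpow_of_exponent_le hX1 (by norm_num)
          _ = (X ^ (999 / 1000 : ℝ)) ^ (124 / 625 : ℝ) := by rw [Real.rpow_mul hX0.le]
          _ ≤ _ := Real.rpow_le_rpow (by positivity) hYhalf (by norm_num)
      rw [if_pos h2]
      linarith
  · intro θ hθ
    refine ⟨1, one_pos, fun ε₁ hε₁ _ => ⟨0, ?_⟩⟩
    filter_upwards [eventually_ge_atTop 4] with X hX4
    intro ps S _ _ _ h r _ _ _ _
    have hX0 : 0 < X := by linarith
    have hLP0 : 0 ≤ LPs (1 / 2) X := by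
      unfold LPs
      exact sum_nonneg fun n _ => mul_nonneg (Ps_nonneg _ _ _) ArithmeticFunction.vonMangoldt_nonneg
    have hL0 : 0 < Real.log X := Real.log_pos (by linarith)
    have hprod : 0 ≤ ∏ p ∈ Y882.PZ ⌊X⌋₊ ε₁, (1 - gh (H378R2.WW X S ps) ps h.natAbs p) := by
      apply prod_nonneg
      intro p hp
      unfold Y882.PZ at hp
      exact (gh_le_one _ ps h.natAbs p (mem_filter.1 hp).2.1).1
    refine le_trans (le_of_eq (sum_eq_zero ?_)) ?_
    · intro n hn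
      simp only [and_false, filter_false, notMem_empty] at hn
    · positivity
  · have h1 : A0 > 0 := hSF.pos
    have h2 : 0 < Real.log (62 / 125 / (124 / 625) - 1) / (62 / 125) -
      ∫ x in (124 / 625 : ℝ)..(279 / 625), (20 / 31 - 20 / 31 / (279 / 625) * x) / (62 / 125 - x) / x := by
      linarith
    rw [zero_mul]
    positivity

end Pool.Agent.J4H73.CG
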