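import Pool.Agent.J4H73.CG.TGL
import Pool.Agent.J4H73.CH.Pre

/-! Integer shifts: preliminaries and the main sum. -/

set_option autoImplicit false

open Finset Filter

namespace Pool.Agent.J4H73.CG

open Pool.Agent.H378R2 Pool.Agent.H378R2.LSBV Pool.Agent.N610.AP Pool.Agent.Y882
open Pool.Agent.J4H73.BV Pool.Agent.J4H73.CH
open Pool.Agent.W23.DC (Mer pr)
open Pool.Agent

/-- the residue of `-h` -/
def rz (h : ℤ) (p : ℕ) : ℕ := ((-h) % (p : ℤ)).toNat

theorem rz_lt (h : ℤ) (p : ℕ) (hp : 0 < p) : rz h p < p := by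
  unfold rz
  have h1 := Int.emod_lt_of_pos (-h) (show (0 : ℤ) < p by exact_mod_cast hp)
  have h2 := Int.emod_nonneg (-h) (show (p : ℤ) ≠ 0 by exact_mod_cast hp.ne')
  omega

theorem rz_iff (h : ℤ) (p n : ℕ) (hp : 0 < p) : n % p = rz h p ↔ (p : ℤ) ∣ n + h := by
  have h2 := Int.emod_nonneg (-h) (show (p : ℤ) ≠ 0 by exact_mod_cast hp.ne')
  have h3 : ((rz h p : ℕ) : ℤ) = (-h) % (p : ℤ) := by
    unfold rz
    exact Int.toNat_of_nonneg h2
  have h4 : n % p = rz h p ↔ ((n : ℤ) % p) = (-h) % (p : ℤ) := by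
    rw [← h3]
    constructor
    · intro h; rw [← h]; push_cast; rfl
    · intro h
      exact_mod_cast h
  rw [h4]
  constructor
  · intro h5
    have h6 : (-h) ≡ (n : ℤ) [ZMOD p] := h5.symm
    have h7 := h6.dvd
    rwa [sub_neg_eq_add] at h7
  · intro h5
    have h6 : (p : ℤ) ∣ (n : ℤ) - (-h) := by rwa [sub_neg_eq_add]
    exact ((Int.modEq_iff_dvd.2 h6).symm)

theorem dvd_natAbs_iff (p : ℕ) (z : ℤ) : p ∣ z.natAbs ↔ (p : ℤ) ∣ z := Int.natCast_dvd.symm

/-- the class of a shift -/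
theorem exists_nat_shift (h : ℤ) (P : Finset ℕ) (hP : ∀ p ∈ P, 0 < p) : ∃ h' : ℕ, ∀ p ∈ P, ∀ n : ℕ,
    p ∣ n + h' ↔ (p : ℤ) ∣ n + h := by
  set M : ℕ := ∏ p ∈ P, p with hM
  have hM1 : 1 ≤ M := Finset.prod_pos hP
  have h0 : 0 ≤ h + M * |h| := by
    have h1 : |h| ≤ M * |h| := by
      have : (1 : ℤ) ≤ M := by exact_mod_cast hM1
      nlinarith [abs_nonneg h]
    have := neg_abs_le h
    linarith
  refine ⟨(h + M * |h|).toNat, fun p hp n => ?_⟩
  have e : ((n + (h + M * |h|).toNat : ℕ) : ℤ) = n + h + M * |h| := by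
    push_cast
    rw [Int.toNat_of_nonneg h0]
    ring
  have h2 : (p : ℤ) ∣ (M : ℤ) := by exact_mod_cast Finset.dvd_prod_of_mem _ hp
  rw [← Int.natCast_dvd_natCast, e]
  exact (dvd_add_left (Dvd.dvd.mul_right h2 _))

open Classical in
theorem mainZ (d : ℝ) (hd0 : 0 ≤ d) (hd : d ≤ 1 / 2) (A : ℕ) : ∀ᶠ X : ℝ in atTop,
    ∀ (ps : ℕ) (S : Finset ℕ), (ps = 1 ∨ ps.Prime) →
    ∑ p ∈ pairs X ps ⌊X ^ (497 / 1000 : ℝ)⌋₊ S, LSBV.wt A p.2 *
        TG d X (fun n => ArithmeticFunction.vonMangoldt n) (p.1 * p.2) ≤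
      X / (Real.log X) ^ (2 ^ (A + 1) + A + 1) →
    ∀ (h : ℤ) (r0 : ℕ), r0.Coprime (WW X S ps) → (∀ p : ℕ, p.Prime → p ∣ WW X S ps → ¬ (p : ℤ) ∣ r0 + h) →
    ∀ P : Finset ℕ, (∀ p ∈ P, p.Prime) → ∀ (c : Finset ℕ → ℝ) (C : ℝ), (∀ T, |c T| ≤ C) →
    (∀ T ⊆ P, c T ≠ 0 → ((∏ p ∈ T, p : ℕ) : ℝ) ≤ X ^ (497 / 1000 : ℝ)) →
    |∑ n ∈ (Icc 1 ⌊3 * X⌋₊).filter (fun n => n ≡ r0 [MOD WW X S ps]),
        Ps d X n * ArithmeticFunction.vonMangoldt n *
          VV P c (fun p => if p ≠ ps ∧ (p : ℤ) ∣ n + h then 1 else 0) -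
      LPs d X / (Nat.totient (WW X S ps) : ℝ) * VV P c (gh (WW X S ps) ps h.natAbs)| ≤
      C * (X / ((Nat.totient (WW X S ps) : ℝ) * (Real.log X) ^ A) +
        X ^ (497 / 1000 : ℝ) * Real.log (3 * X)) := by
  filter_upwards [EPs_sum d hd0 hd A, eventually_ge_atTop 4] with X hEs hX4
  intro ps S hps hpairs h r0 hr0 hr1 P hP c C hC hcQ
  set W := WW X S ps with hW
  have hW0 : 0 < W := H378R2.WW_pos X S ps
  have hX1 : 1 ≤ X := by linarith
  have hC0 : 0 ≤ C := (abs_nonneg _).trans (hC ∅)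
  have hann : ∀ n : ℕ, 0 ≤ Ps d X n * ArithmeticFunction.vonMangoldt n := fun n =>
    mul_nonneg (Ps_nonneg _ _ _) ArithmeticFunction.vonMangoldt_nonneg
  have hlog : 0 ≤ Real.log (3 * X) := Real.log_nonneg (by linarith)
  have key := wsum W ps hW0 hps (Icc 1 ⌊3 * X⌋₊) (fun n => Ps d X n * ArithmeticFunction.vonMangoldt n)
    (LPs d X) r0 P hP (fun p => rz h p) (fun p hp => rz_lt h p (hP p hp).pos) (by
      intro p hp hpW h1
      rw [rz_iff h p r0 (hP p hp).pos] at h1
      exact hr1 p (hP p hp) hpW h1) hr0 ⌊X ^ (497 / 1000 : ℝ)⌋₊ c C hC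
    (fun T hT h => Nat.le_floor (hcQ T hT h)) (Real.log (3 * X))
    (X / ((Nat.totient W : ℝ) * (Real.log X) ^ A)) hlog (fun n _ => hann n) (by
      intro p hp _ _
      have h1 := sum_ncPs d X hd hX1 p (hP p hp).one_lt.le
      rw [(hP p hp).primeFactors, card_singleton] at h1
      have h2 : (Icc 1 ⌊3 * X⌋₊).filter (fun n => p ∣ n) =
          (Icc 1 ⌊3 * X⌋₊).filter (fun n => ¬ n.Coprime p) := by
        apply filter_congr
        intro n _
        rw [Nat.coprime_comm, Nat.Prime.coprime_iff_not_dvd (hP p hp), not_not]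
      rw [h2]
      simpa using h1) (by
      intro b hb
      refine le_trans ?_ (hEs ps S hpairs b hb)
      apply sum_le_sum
      intro q hq
      rw [mem_QQ] at hq
      apply le_mul_of_one_le_left (abs_nonneg _)
      apply one_le_pow₀
      have : 0 < q.divisors.card := card_pos.2 ⟨1, Nat.one_mem_divisors.2 (by omega)⟩
      exact_mod_cast this)
  have e1 : VV P c (gd W ps (fun p => rz h p)) = VV P c (gh W ps h.natAbs) := by
    apply CH.VV_congr
    intro p hp
    unfold gd gh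
    have : rz h p = 0 ↔ p ∣ h.natAbs := by
      have h1 := rz_iff h p 0 (hP p hp).pos
      rw [Nat.zero_mod, Nat.cast_zero, zero_add] at h1
      rw [dvd_natAbs_iff, ← h1]
      exact eq_comm
    simp only [this]
  have e2 : ∀ n : ℕ, VV P c (fun p => if p ≠ ps ∧ n % p = rz h p then (1 : ℝ) else 0) =
      VV P c (fun p => if p ≠ ps ∧ (p : ℤ) ∣ n + h then 1 else 0) := by
    intro n
    apply CH.VV_congr
    intro p hp
    simp only [rz_iff h p n (hP p hp).pos]
  rw [e1] at key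
  simp_rw [e2] at key
  refine key.trans ?_
  apply mul_le_mul_of_nonneg_left _ hC0
  apply add_le_add_right
  apply mul_le_mul_of_nonneg_right _ hlog
  exact Nat.floor_le (by positivity)

/-- the primes dividing a number `≤ X ^ 3` do not matter -/
theorem small_div2 : ∀ᶠ X : ℝ in atTop, ∀ (ps : ℕ) (S : Finset ℕ), GoodS X S → ∀ (J m : ℕ),
    m ≠ 0 → (m : ℝ) ≤ X ^ 3 →
    1 ≤ 3 * ∏ p ∈ (N610.AP.PZ X S ps J).filter (fun p => p ∣ m), (1 - 1 / (p : ℝ)) := by
  have t1 := Real.tendsto_log_atTop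
  have t2 : Tendsto (fun y : ℝ => Real.log (Real.log y)) atTop atTop := t1.comp t1
  filter_upwards [t1.eventually_ge_atTop 4000, t2.eventually_ge_atTop (24000 + Real.log 1000),
    eventually_gt_atTop 1] with X h2 h3 hX1
  intro ps S hS J m hm hmL
  set L := Real.log X with hL
  set F := (N610.AP.PZ X S ps J).filter (fun p => p ∣ m) with hF
  have hFp : ∀ p ∈ F, p.Prime := fun p hp => (mem_PZ.1 (mem_filter.1 hp).1).1
  have hm1 : 1 ≤ m := Nat.pos_of_ne_zero hm
  have hX0 : 0 < X := by linarith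
  have hlogm : Real.log m ≤ 3 * L := by
    have : Real.log (m : ℝ) ≤ Real.log (X ^ 3) := Real.log_le_log (by exact_mod_cast hm1) hmL
    rwa [Real.log_pow] at this
  have hl1000 : 0 < Real.log 1000 := Real.log_pos (by norm_num)
  have hl : 24000 ≤ Real.log (L / 1000) := by
    rw [Real.log_div (by linarith) (by norm_num)]
    linarith
  have hsum : ∑ p ∈ F, (1 : ℝ) / p ≤ 1 / 4 := by
    have e1 : ∑ p ∈ F, (1 : ℝ) / p ≤ ∑ p ∈ S, (1 : ℝ) / p + ∑ p ∈ F.filter (fun p => yy X < p), (1 : ℝ) / p := by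
      rw [← sum_filter_add_sum_filter_not F (fun p => yy X < p), add_comm]
      apply add_le_add_left
      apply sum_le_sum_of_subset_of_nonneg
      · intro p hp
        rw [mem_filter] at hp
        have h4 := mem_PZ.1 (mem_filter.1 hp.1).1
        by_contra h5
        apply h4.2.2.1
        rw [mem_PW]
        exact ⟨not_lt.1 hp.2, h4.1, h5, h4.2.2.2⟩
      · intro p _ _
        positivity
    have e2 : ∑ p ∈ S, (1 : ℝ) / p ≤ 1 / 8 := by
      refine hS.2.trans ?_
      rw [div_le_div_iff₀ (by nlinarith) (by norm_num)]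
      nlinarith
    have e3 : ∑ p ∈ F.filter (fun p => yy X < p), (1 : ℝ) / p ≤ 1 / 8 := by
      have hpL : ∀ p ∈ F.filter (fun p => yy X < p), L / 1000 ≤ p := by
        intro p hp
        rw [mem_filter] at hp
        have h4 : (yy X : ℝ) + 1 ≤ p := by exact_mod_cast hp.2
        have h5 : L / 1000 < (yy X : ℝ) + 1 := Nat.lt_floor_add_one _
        linarith
      have e4 : ∑ p ∈ F.filter (fun p => yy X < p), (1 : ℝ) / p ≤
          (F.filter (fun p => yy X < p)).card • (1000 / L) := by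
        apply sum_le_card_nsmul
        intro p hp
        rw [show 1000 / L = 1 / (L / 1000) by field_simp]
        exact one_div_le_one_div_of_le (by positivity) (hpL p hp)
      have e5 : ((F.filter (fun p => yy X < p)).card : ℝ) * Real.log (L / 1000) ≤ 3 * L := by
        have h4 : ∏ p ∈ F.filter (fun p => yy X < p), p ∣ m := by
          apply Finset.prod_primes_dvd
          · intro p hp
            exact (hFp p (mem_filter.1 hp).1).prime
          · intro p hp
            exact (mem_filter.1 (mem_filter.1 hp).1).2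
        have h5 : (((∏ p ∈ F.filter (fun p => yy X < p), p : ℕ)) : ℝ) ≤ m := by
          exact_mod_cast Nat.le_of_dvd hm1 h4
        have h6 : (L / 1000) ^ (F.filter (fun p => yy X < p)).card ≤
            ((∏ p ∈ F.filter (fun p => yy X < p), p : ℕ) : ℝ) := by
          push_cast
          rw [← Finset.prod_const]
          exact Finset.prod_le_prod (fun _ _ => by positivity) hpL
        have h7 := Real.log_le_log (by positivity) (h6.trans h5)
        rw [Real.log_pow] at h7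
        linarith
      rw [nsmul_eq_mul] at e4
      refine e4.trans ?_
      have e6 : ((F.filter (fun p => yy X < p)).card : ℝ) ≤ 3 * L / 24000 := by
        rw [le_div_iff₀ (by norm_num)]
        refine le_trans ?_ e5
        exact mul_le_mul_of_nonneg_left hl (Nat.cast_nonneg _)
      calc ((F.filter (fun p => yy X < p)).card : ℝ) * (1000 / L) ≤ (3 * L / 24000) * (1000 / L) := by
            apply mul_le_mul_of_nonneg_right e6 (by positivity)
        _ = 1 / 8 := by field_simp; norm_num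
    linarith
  have e6 : Real.exp (-(2 * ∑ p ∈ F, (1 : ℝ) / p)) ≤ ∏ p ∈ F, (1 - 1 / (p : ℝ)) := by
    rw [mul_sum, ← sum_neg_distrib, Real.exp_sum]
    apply Finset.prod_le_prod (fun p _ => (Real.exp_pos _).le)
    intro p hp
    have h4 : (2 : ℝ) ≤ p := by exact_mod_cast (hFp p hp).two_le
    exact exp_le_one_sub (by positivity) (one_div_le_one_div_of_le (by norm_num) h4)
  have e7 : Real.exp (-1) ≤ ∏ p ∈ F, (1 - 1 / (p : ℝ)) := by
    refine le_trans (Real.exp_le_exp.2 ?_) e6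
    linarith
  have e8 : (1 : ℝ) / 3 ≤ Real.exp (-1) := by
    rw [Real.exp_neg, ← one_div]
    apply one_div_le_one_div_of_le (Real.exp_pos _)
    linarith [Real.exp_one_lt_d9]
  linarith

end Pool.Agent.J4H73.CG
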