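import Pool.Agent.J4H73.CG.ShZ

/-! Integer shifts: the survivors, the exceptional prime, the squares. -/

set_option autoImplicit false

open Finset Filter

namespace Pool.Agent.J4H73.CG

open Pool.Agent.H378R2 Pool.Agent.H378R2.LSBV Pool.Agent.N610.AP Pool.Agent.Y882
open Pool.Agent.J4H73.BV Pool.Agent.J4H73.CH
open Pool.Agent.H312R2.RG (ClassB ClassA tot)
open Pool.Agent.W23.DC (Mer pr)
open Pool.Agent

open Classical in
/-- the upper bound for the number of primes with two more rough shifts -/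
theorem survZ : ∃ C0 : ℕ, 1 ≤ C0 ∧ ∀ (A : ℕ), 6 ≤ A → ∀ δ : ℝ, 0 < δ → ∃ C : ℝ, 0 < C ∧
    ∀ᶠ X : ℝ in atTop, ∀ (ps : ℕ) (S : Finset ℕ), GoodP C0 ps → GoodS X S →
    ∑ p ∈ pairs X ps ⌊X ^ (497 / 1000 : ℝ)⌋₊ S, LSBV.wt A p.2 * TT X (p.1 * p.2) ≤
      X / (Real.log X) ^ (2 ^ (A + 1) + A + 1) →
    ∀ J : ℕ, 1 ≤ J → X ^ δ ≤ 2 ^ 2 ^ J → ((2 ^ 2 ^ J) ^ (C0 * C0) : ℕ) ≤ ⌊Real.exp (2 * LL X)⌋₊ →
    (J : ℝ) + 2 ≤ 2 * Real.log X →
    ∀ (r : ℕ) (h z : ℤ), r.Coprime (WW X S ps) → |(h : ℝ)| ≤ 9 * X → |(z : ℝ)| ≤ 3 * (Real.log X) ^ 2 →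
    z ≠ 0 → z ≠ h →
    ∑ n ∈ (Icc 1 ⌊3 * X⌋₊).filter (fun n => n ≡ r [MOD WW X S ps] ∧
        ∀ p ∈ N610.AP.PZ X S ps J, ¬ (p : ℤ) ∣ n + h ∧ ¬ (p : ℤ) ∣ n + z),
        Phi (n / X) * ArithmeticFunction.vonMangoldt n ≤
      C * (Real.log (Real.log X) / Real.log X) * (LPhi X / (WW X S ps).totient *
        ∏ p ∈ N610.AP.PZ X S ps J, (1 - gh (WW X S ps) ps h.natAbs p)) +
      2 * Real.log X * (X / ((Nat.totient (WW X S ps) : ℝ) * (Real.log X) ^ A)) := by
  obtain ⟨C0, hC0, HB⟩ := siftB 3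
  refine ⟨C0, hC0, ?_⟩
  intro A hA6 δ hδ
  obtain ⟨CM, hCM, Hup⟩ := prod_upper
  obtain ⟨CW, hCW, HW⟩ := W_phi
  refine ⟨2 * (3 * (CW * CM / δ)), by positivity, ?_⟩
  have t1 := Real.tendsto_log_atTop
  have t2 : Tendsto (fun y : ℝ => Real.log (Real.log y)) atTop atTop := t1.comp t1
  have t3 : ∀ᶠ X : ℝ in atTop, Real.log X ≤ X ^ δ := by
    have h := (isLittleO_log_rpow_atTop hδ).def (show (0 : ℝ) < 1 by norm_num)
    filter_upwards [h, eventually_ge_atTop (1 : ℝ)] with t ht h1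
    rw [Real.norm_eq_abs, abs_of_nonneg (Real.log_nonneg h1), Real.norm_eq_abs,
      abs_of_nonneg (by positivity), one_mul] at ht
    exact ht
  filter_upwards [HW, small_div2, EPhi_sum A, eventually_ge_atTop 4, t1.eventually_ge_atTop 100,
    t1.eventually_ge_atTop (1000 * C0), t2.eventually_ge_atTop (C0 + 1), t3,
    Pool.Agent.H398R2.BV.ev_log 1 2 1 (by norm_num)] with
    X HW hsd hEs hX4 hL100 hLZ hL2Z hyJ' hev2
  intro ps S hps hS hpairs J hJ1 hJδ hJC hJL r h z hr hh hz hz0 hzh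
  set L := Real.log X with hL
  set W := WW X S ps with hW
  have hW0 : 0 < W := H378R2.WW_pos X S ps
  have hX0 : 0 < X := by linarith
  have hL0 : 0 < L := by linarith
  have hps' : ps = 1 ∨ ps.Prime := by
    rcases hps with h | h
    · exact Or.inl h
    · exact Or.inr h.1
  have hφ0 : (0 : ℝ) < W.totient := by exact_mod_cast Nat.totient_pos.2 hW0
  set P := N610.AP.PZ X S ps J with hP
  have hPZ : ∀ p ∈ P, C0 < p := by
    intro p hp
    by_contra h
    push Not at h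
    exact (mem_PZ.1 hp).2.2.1 (Pool.Agent.TH101.RG.small_mem_PW hLZ hL2Z hps le_rfl hS (mem_PZ.1 hp).1 h)
  -- the offset
  obtain ⟨B0, hB0, hB0'⟩ : ∃ B0 : ℕ, (-z) ≤ B0 ∧ (-h) ≤ B0 := ⟨(-z).toNat + (-h).toNat, by
    have h1 := Int.self_le_toNat (-z)
    push_cast
    linarith [Int.natCast_nonneg (-h).toNat], by
    have h1 := Int.self_le_toNat (-h)
    push_cast
    linarith [Int.natCast_nonneg (-z).toNat]⟩
  obtain ⟨t2', ht2'⟩ : ∃ t2' : ℕ, (t2' : ℤ) = B0 + z := ⟨((B0 : ℤ) + z).toNat, Int.toNat_of_nonneg (by linarith)⟩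
  obtain ⟨t1', ht1'⟩ : ∃ t1' : ℕ, (t1' : ℤ) = B0 + h := ⟨((B0 : ℤ) + h).toNat, Int.toNat_of_nonneg (by linarith)⟩
  set t : Fin 3 → ℕ := ![B0, t1', t2'] with ht
  have ht0 : t 0 = B0 := rfl
  have ht1 : t 1 = t1' := rfl
  have htt2 : t 2 = t2' := rfl
  set r' : ℕ := r + W * B0 - B0 with hr'
  have hr'B : r' + t 0 = r + W * B0 := by
    rw [ht0, hr']
    have : B0 ≤ W * B0 := Nat.le_mul_of_pos_left _ hW0
    omega
  have hmod : r' + t 0 ≡ r [MOD W] := by
    rw [hr'B]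
    unfold Nat.ModEq
    rw [Nat.add_mul_mod_self_left]
  have hcop : (r' + t 0).Coprime W := by
    show Nat.gcd _ _ = 1
    rw [hmod.gcd_eq]
    exact hr
  obtain ⟨bs, hbs1, hbs2⟩ := exists_bs X W hW0
  set e₃ : ℕ → ℝ := fun q => |EPhi X (W * q) (bs q)| with he₃
  have hcl : ClassB X W ps t 0 (fun _ => (1 : ℝ)) 1 e₃ := by
    intro q b hq hb _
    rw [mem_QQ] at hq
    have h1 := hbs2 q hq.1.1 b hb
    have h2 : (W * q).totient = W.totient * q.totient := by
      apply Nat.totient_mul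
      exact (Nat.Coprime.coprime_mul_right_right hq.2.2).symm
    refine le_trans (le_of_eq ?_) h1
    rw [EPhi_eq, h2]
    simp only [mul_one, one_mul]
    congr 2
    push_cast
    rw [mul_assoc, one_div_mul_one_div]
  -- the total error
  have htot : tot 3 X W ps e₃ ≤ X / ((Nat.totient W : ℝ) * L ^ A) := by
    refine le_trans ?_ (hEs ps S hpairs bs hbs1)
    unfold tot
    have hsub : QQ W ps ⌊Real.exp (2 * LL X)⌋₊ ⊆ QQ W ps ⌊X ^ (497 / 1000 : ℝ)⌋₊ := by
      intro q hq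
      rw [mem_QQ] at hq ⊢
      refine ⟨⟨hq.1.1, hq.1.2.trans ?_⟩, hq.2⟩
      apply Nat.floor_le_floor
      rw [Real.rpow_def_of_pos hX0]
      apply Real.exp_le_exp.2
      unfold LL
      rw [← hL]
      linarith
    refine le_trans ?_ (sum_le_sum_of_subset_of_nonneg hsub fun q _ _ => by positivity)
    apply sum_le_sum
    intro q hq
    rw [mem_QQ] at hq
    have h1 : (1 : ℝ) ≤ q.divisors.card := by
      have : 0 < q.divisors.card := card_pos.2 ⟨1, Nat.one_mem_divisors.2 (by omega)⟩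
      exact_mod_cast this
    apply mul_le_mul_of_nonneg_right _ (abs_nonneg _)
    exact pow_le_pow_right₀ h1 (by omega)
  have hkey := HB C0 J X ps S le_rfl hps' hPZ hJC t 0 r' hcop (fun _ => 1) 1 e₃ (fun _ => zero_le_one)
    zero_le_one (fun q => abs_nonneg _) hcl
  rw [← hP, ← hW] at hkey
  set PB := ∏ p ∈ P, (1 - ((OmB t 0 p).card : ℝ) * (1 / ((p : ℝ) - 1))) with hPB
  have hLP0 : 0 ≤ LPhi X := by
    unfold LPhi
    exact Finset.sum_nonneg fun n _ => mul_nonneg (LSBV.Phi_nonneg _) ArithmeticFunction.vonMangoldt_nonneg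
  -- membership in OmB
  have hm1 : ∀ p ∈ P, ∀ x : ℤ, ∀ j : Fin 3, j ≠ 0 → ((t j : ℤ) - t 0 = x) → ¬ (p : ℤ) ∣ x →
      ∃ a ∈ OmB t 0 p, ∀ n : ℕ, n % p = a ↔ (p : ℤ) ∣ n + x := by
    intro p hp x j hj hx hpx
    have hp0 := (mem_PZ.1 hp).1.pos
    have key : ∀ n : ℕ, n % p = dres p (t 0) (t j) ↔ (p : ℤ) ∣ n + x := by
      intro n
      rw [mod_eq_dres p (t 0) (t j) n hp0]
      have : (n : ℤ) + t j - t 0 = n + x := by rw [← hx]; ring
      rw [this]
    refine ⟨dres p (t 0) (t j), ?_, key⟩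
    unfold OmB
    rw [mem_erase, mem_image]
    refine ⟨?_, j, mem_univ _, rfl⟩
    intro h0
    apply hpx
    have := (key 0).1 (by rw [Nat.zero_mod, h0])
    simpa using this
  have hx1 : (t 1 : ℤ) - t 0 = h := by rw [ht1, ht0, ht1']; ring
  have hx2 : (t 2 : ℤ) - t 0 = z := by rw [htt2, ht0, ht2']; ring
  -- the density
  set m : ℕ := (z * (z - h)).natAbs with hm
  have hm0 : m ≠ 0 := by
    rw [hm, Int.natAbs_ne_zero]
    exact mul_ne_zero hz0 (sub_ne_zero.2 hzh)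
  have hmL : (m : ℝ) ≤ X ^ 3 := by
    have h1 : (m : ℝ) = |(z : ℝ)| * |(z : ℝ) - h| := by
      rw [hm, ← abs_mul]
      have : ((z * (z - h)).natAbs : ℝ) = |((z * (z - h) : ℤ) : ℝ)| := by
        rw [Nat.cast_natAbs, Int.cast_abs]
      rw [this]
      push_cast
      rfl
    rw [h1]
    have hLX : L ^ 2 ≤ X := by
      rw [one_mul, Real.rpow_one] at hev2
      exact hev2
    have hX100 : 100 ≤ X := by
      have := Real.add_one_le_exp L
      rw [hL, Real.exp_log hX0, ← hL] at this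
      linarith
    have hz' : |(z : ℝ)| ≤ 3 * X := hz.trans (mul_le_mul_of_nonneg_left hLX (by norm_num))
    have h2 : |(z : ℝ) - h| ≤ 12 * X := by
      have := abs_sub (z : ℝ) (h : ℝ)
      linarith only [this, hz', hh]
    calc |(z : ℝ)| * |(z : ℝ) - h| ≤ (3 * X) * (12 * X) := by
          apply mul_le_mul hz' h2 (abs_nonneg _) (by positivity)
      _ = 36 * X ^ 2 := by ring
      _ ≤ X * X ^ 2 := by
          apply mul_le_mul_of_nonneg_right _ (by positivity)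
          linarith
      _ = X ^ 3 := by ring
  have hdvm : ∀ p : ℕ, p.Prime → (¬ p ∣ m ↔ (¬ (p : ℤ) ∣ z ∧ ¬ (p : ℤ) ∣ z - h)) := by
    intro p hp
    rw [hm, Int.natCast_dvd.symm, (Nat.prime_iff_prime_int.1 hp).dvd_mul]
    tauto
  have hfac : ∀ p ∈ P, 0 ≤ 1 - ((OmB t 0 p).card : ℝ) * (1 / ((p : ℝ) - 1)) ∧
      1 - ((OmB t 0 p).card : ℝ) * (1 / ((p : ℝ) - 1)) ≤
        (1 - gh W ps h.natAbs p) * (if p ∣ m then 1 else 1 - 1 / (p : ℝ)) := by
    intro p hp
    have hpz := mem_PZ.1 hp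
    have hpp := hpz.1
    have hp2 : (2 : ℝ) ≤ p := by exact_mod_cast hpp.two_le
    have hp1 : (0 : ℝ) < (p : ℝ) - 1 := by linarith
    have hpW : ¬ p ∣ W := fun hd => hpz.2.2.1 ((prime_dvd_WW hpp).1 hd)
    have hpps : p ≠ ps := hpz.2.2.2
    have hcard : (OmB t 0 p).card ≤ p - 1 := by
      have h1 : OmB t 0 p ⊆ Icc 1 (p - 1) := by
        intro a ha
        obtain ⟨h2, h3, _⟩ := mem_OmB t 0 p a hpp.pos ha
        rw [mem_Icc]
        omega
      have := card_le_card h1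
      rw [Nat.card_Icc] at this
      omega
    have hcard' : ((OmB t 0 p).card : ℝ) ≤ (p : ℝ) - 1 := by
      have h1 : ((OmB t 0 p).card : ℝ) ≤ ((p - 1 : ℕ) : ℝ) := by exact_mod_cast hcard
      rwa [Nat.cast_sub hpp.one_lt.le, Nat.cast_one] at h1
    constructor
    · rw [sub_nonneg, mul_one_div, div_le_one hp1]
      exact hcard'
    · have hgh : gh W ps h.natAbs p = if (p : ℤ) ∣ h then 0 else 1 / ((p : ℝ) - 1) := by
        unfold gh
        by_cases h1 : (p : ℤ) ∣ h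
        · rw [if_pos (Or.inr (Or.inr ((dvd_natAbs_iff p h).2 h1))), if_pos h1]
        · rw [if_neg (by push Not; exact ⟨hpW, hpps, fun h2 => h1 ((dvd_natAbs_iff p h).1 h2)⟩), if_neg h1]
      have hone : 1 / (p : ℝ) ≤ 1 / ((p : ℝ) - 1) := one_div_le_one_div_of_le hp1 (by linarith)
      set v := 1 / ((p : ℝ) - 1) with hv
      have hv0 : 0 ≤ v := by positivity
      have hv1 : v ≤ 1 := by rw [hv, div_le_one hp1]; linarith
      have hlb : ∀ k : ℕ, k ≤ (OmB t 0 p).card → 1 - ((OmB t 0 p).card : ℝ) * v ≤ 1 - (k : ℝ) * v := by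
        intro k hk
        have : (k : ℝ) ≤ (OmB t 0 p).card := by exact_mod_cast hk
        have := mul_le_mul_of_nonneg_right this hv0
        linarith
      have hle : (1 - v) ≤ 1 - 1 / (p : ℝ) := by linarith
      by_cases hpm : p ∣ m
      · rw [if_pos hpm, mul_one, hgh]
        split_ifs with hph
        · have := hlb 0 (Nat.zero_le _)
          simpa using this
        · obtain ⟨a, ha, _⟩ := hm1 p hp h 1 (by decide) hx1 hph
          have := hlb 1 (card_pos.2 ⟨a, ha⟩)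
          simpa using this
      · rw [if_neg hpm, hgh]
        obtain ⟨g1, g2⟩ := (hdvm p hpp).1 hpm
        obtain ⟨a2, ha2, hb2⟩ := hm1 p hp z 2 (by decide) hx2 g1
        split_ifs with hph
        · have := hlb 1 (card_pos.2 ⟨a2, ha2⟩)
          rw [Nat.cast_one, one_mul] at this
          linarith
        · obtain ⟨a1, ha1, hb1⟩ := hm1 p hp h 1 (by decide) hx1 hph
          have hne : a1 ≠ a2 := by
            intro hEq
            have ha1p := (mem_OmB t 0 p a1 hpp.pos ha1).2.1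
            have e1 := (hb1 a1).1 (Nat.mod_eq_of_lt ha1p)
            have e2 := (hb2 a1).1 ((Nat.mod_eq_of_lt ha1p).trans hEq)
            apply g2
            have := dvd_sub e2 e1
            have e3 : (a1 : ℤ) + z - (a1 + h) = z - h := by ring
            rwa [e3] at this
          have h2 : 2 ≤ (OmB t 0 p).card := by
            have : ({a1, a2} : Finset ℕ) ⊆ OmB t 0 p := by
              intro x hx
              rw [mem_insert, mem_singleton] at hx
              rcases hx with rfl | rfl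
              · exact ha1
              · exact ha2
            have h3 := card_le_card this
            rwa [card_pair hne] at h3
          have := hlb 2 h2
          push_cast at this
          have e1 : 1 - 2 * v ≤ (1 - v) * (1 - v) := by nlinarith
          have e2 : (1 - v) * (1 - v) ≤ (1 - v) * (1 - 1 / (p : ℝ)) :=
            mul_le_mul_of_nonneg_left hle (by linarith)
          linarith
  set PG := ∏ p ∈ P, (1 - gh W ps h.natAbs p) with hPG
  have hPG0 : 0 ≤ PG := prod_nonneg fun p hp => (gh_le_one W ps h.natAbs p (mem_PZ.1 hp).1).1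
  have hPB0 : 0 ≤ PB := prod_nonneg fun p hp => (hfac p hp).1
  have hPBle : PB ≤ PG * (3 * ∏ p ∈ P, (1 - 1 / (p : ℝ))) := by
    have e1 : PB ≤ PG * ∏ p ∈ P, (if p ∣ m then 1 else 1 - 1 / (p : ℝ)) := by
      rw [hPG, ← prod_mul_distrib]
      exact prod_le_prod (fun p hp => (hfac p hp).1) fun p hp => (hfac p hp).2
    refine e1.trans ?_
    apply mul_le_mul_of_nonneg_left _ hPG0
    have e2 : ∏ p ∈ P, (if p ∣ m then 1 else 1 - 1 / (p : ℝ)) =
        ∏ p ∈ P.filter (fun p => ¬ p ∣ m), (1 - 1 / (p : ℝ)) := by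
      rw [prod_filter]
      apply prod_congr rfl
      intro p _
      by_cases hpm : p ∣ m
      · rw [if_pos hpm, if_neg (not_not.2 hpm)]
      · rw [if_neg hpm, if_pos hpm]
    have e3 : ∏ p ∈ P, (1 - 1 / (p : ℝ)) = (∏ p ∈ P.filter (fun p => p ∣ m), (1 - 1 / (p : ℝ))) *
        ∏ p ∈ P.filter (fun p => ¬ p ∣ m), (1 - 1 / (p : ℝ)) :=
      (prod_filter_mul_prod_filter_not P (fun p => p ∣ m) _).symm
    rw [e2, e3]
    have e4 := hsd ps S hS J m hm0 hmL
    rw [← hP] at e4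
    have e5 : 0 ≤ ∏ p ∈ P.filter (fun p => ¬ p ∣ m), (1 - 1 / (p : ℝ)) :=
      prod_nonneg fun p hp => (fac_nn (mem_PZ.1 (mem_filter.1 hp).1).1).1
    have e6 := mul_le_mul_of_nonneg_right e4 e5
    linarith
  -- Mertens
  have hzr : X ^ δ ≤ ((2 ^ 2 ^ J : ℕ) : ℝ) := by push_cast; exact hJδ
  have hyJ : yy X ≤ 2 ^ 2 ^ J := by
    have h1 : (yy X : ℝ) ≤ L / 1000 := Nat.floor_le (by positivity)
    have h2 : (yy X : ℝ) ≤ ((2 ^ 2 ^ J : ℕ) : ℝ) := by linarith
    exact_mod_cast h2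
  have hlz : δ * L ≤ Real.log ((2 ^ 2 ^ J : ℕ) : ℝ) := by
    rw [← Real.log_rpow hX0]
    exact Real.log_le_log (by positivity) hzr
  have hup := Hup X S ps J hJ1 hyJ
  rw [← hP, ← hW] at hup
  set PU := ∏ p ∈ P, (1 - 1 / (p : ℝ)) with hPU
  have hPU0 : 0 ≤ PU := prod_nonneg fun p hp => (fac_nn (mem_PZ.1 hp).1).1
  have hl0 : 0 < Real.log L := by
    have : (0 : ℝ) ≤ C0 := Nat.cast_nonneg _
    linarith
  have hPUle : PU ≤ CW * CM / δ * (Real.log L / L) := by
    have h1 : (W.totient : ℝ) * PU ≤ (W.totient : ℝ) * (CW * CM / δ * (Real.log L / L)) := by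
      calc (W.totient : ℝ) * PU ≤ W * (CM / Real.log ((2 ^ 2 ^ J : ℕ) : ℝ)) := hup
        _ ≤ W * (CM / (δ * L)) := by gcongr
        _ ≤ (CW * Real.log L * W.totient) * (CM / (δ * L)) :=
            mul_le_mul_of_nonneg_right (HW ps S) (by positivity)
        _ = _ := by field_simp
    exact le_of_mul_le_mul_left h1 hφ0
  -- conclusion
  have hsum : ∑ n ∈ (Icc 1 ⌊3 * X⌋₊).filter (fun n => n ≡ r [MOD W] ∧
        ∀ p ∈ P, ¬ (p : ℤ) ∣ n + h ∧ ¬ (p : ℤ) ∣ n + z), Phi (n / X) * ArithmeticFunction.vonMangoldt n ≤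
      ∑ n ∈ ((Icc 1 ⌊3 * X⌋₊).filter (fun n => n ≡ r' + t 0 [MOD W])).filter
        (fun n => ∀ p ∈ P, n % p ∉ OmB t 0 p),
        Phi (n / X) * ArithmeticFunction.vonMangoldt n * (fun _ => (1 : ℝ)) ((n : ℤ) - t 0) := by
    simp only [mul_one]
    apply sum_le_sum_of_subset_of_nonneg
    · intro n hn
      rw [mem_filter] at hn
      rw [mem_filter, mem_filter]
      refine ⟨⟨hn.1, hn.2.1.trans hmod.symm⟩, ?_⟩
      intro p hp hmem
      have hp0 := (mem_PZ.1 hp).1.pos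
      obtain ⟨_, _, l, hl, hl2⟩ := mem_OmB t 0 p _ hp0 hmem
      obtain ⟨g1, g2⟩ := hn.2.2 p hp
      have h3 := (mod_eq_dres p (t 0) (t l) n hp0).1 hl2
      fin_cases l
      · exact hl rfl
      · apply g1
        have : (n : ℤ) + (t 1 : ℤ) - (t 0 : ℤ) = n + h := by linarith
        change (p : ℤ) ∣ (n : ℤ) + (t 1 : ℤ) - (t 0 : ℤ) at h3
        rwa [this] at h3
      · apply g2
        have : (n : ℤ) + (t 2 : ℤ) - (t 0 : ℤ) = n + z := by linarith
        change (p : ℤ) ∣ (n : ℤ) + (t 2 : ℤ) - (t 0 : ℤ) at h3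
        rwa [this] at h3
    · intro n _ _
      exact mul_nonneg (LSBV.Phi_nonneg _) ArithmeticFunction.vonMangoldt_nonneg
  refine hsum.trans ?_
  have h2 := (abs_le.1 hkey).2
  have hM0 : 0 ≤ 1 * (LPhi X * (1 / (W.totient : ℝ))) * PB := by positivity
  have h3 : (1 / 2 : ℝ) ^ C0 * (1 * (LPhi X * (1 / (W.totient : ℝ))) * PB) ≤
      1 * (1 * (LPhi X * (1 / (W.totient : ℝ))) * PB) :=
    mul_le_mul_of_nonneg_right (pow_le_one₀ (by norm_num) (by norm_num)) hM0
  have htot0 : 0 ≤ tot 3 X W ps e₃ := by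
    unfold tot
    apply sum_nonneg
    intro q _
    have h9 : 0 ≤ e₃ q := abs_nonneg _
    exact mul_nonneg (pow_nonneg (Nat.cast_nonneg _) _) h9
  have h4 : ((J : ℝ) + 2) * tot 3 X W ps e₃ ≤ 2 * L * (X / ((Nat.totient W : ℝ) * L ^ A)) :=
    mul_le_mul hJL htot htot0 (by positivity)
  have h5 : 2 * (1 * (LPhi X * (1 / (W.totient : ℝ))) * PB) ≤
      2 * (3 * (CW * CM / δ)) * (Real.log L / L) * (LPhi X / W.totient * PG) := by
    have h6 : PB ≤ PG * (3 * (CW * CM / δ * (Real.log L / L))) :=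
      hPBle.trans (mul_le_mul_of_nonneg_left (by linarith) hPG0)
    calc 2 * (1 * (LPhi X * (1 / (W.totient : ℝ))) * PB) ≤
        2 * (1 * (LPhi X * (1 / (W.totient : ℝ))) * (PG * (3 * (CW * CM / δ * (Real.log L / L))))) := by
          gcongr
      _ = _ := by ring
  linarith

end Pool.Agent.J4H73.CG
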