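import Pool.Agent.J4H73.CG.Disc

/-! The three properties of the majorants for the von Mangoldt function. -/

set_option autoImplicit false

open Finset Filter Topology

namespace Pool.Agent.J4H73.CG

open Pool.Agent.Helper112 Pool.Agent.Helper112.BLB Pool.Agent.H410R2 Pool.Agent.H398R2.BV
open Pool.Agent.H378R2 Pool.Agent.H378R2.LSBV

theorem TG_Lam (d X : ℝ) (f : ℕ) : TG d X (fun n => ArithmeticFunction.vonMangoldt n) f =
    ∑ ψ ∈ Prim f, ‖psiLog (Real.exp (1 / 2 - d) * X) f ψ‖ +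
      2 * ∑ ψ ∈ Prim f, ‖psiLog (Real.exp (1 / 2) * X) f ψ‖ +
      ∑ ψ ∈ Prim f, ‖psiLog (Real.exp (1 / 2 + d) * X) f ψ‖ := by
  unfold TG R3
  rw [mul_sum, ← sum_add_distrib, ← sum_add_distrib]
  rfl

theorem log_cX (X c : ℝ) (hX : 100 ≤ X) (hc1 : 1 ≤ c) (hc3 : c ≤ 3) : Real.log (c * X) ≤ 2 * Real.log X := by
  have hX0 : 0 < X := by linarith
  have h1 : Real.log (c * X) ≤ Real.log (X * X) := by
    apply Real.log_le_log (by positivity)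
    nlinarith
  rw [Real.log_mul hX0.ne' hX0.ne'] at h1
  linarith

theorem TGL_h1 (d : ℝ) (hd0 : 0 ≤ d) (hd : d ≤ 1 / 2) : ∃ C0 : ℝ, ∀ᶠ X : ℝ in atTop,
    ∑ f ∈ Icc 2 ⌊X ^ (1 / 50 : ℝ)⌋₊, TG d X (fun n => ArithmeticFunction.vonMangoldt n) f ≤
      C0 * X * (Real.log X) ^ 8 := by
  obtain ⟨g1, g2, g3, g4, g5, g6⟩ := exp_facts d hd0 hd
  refine ⟨4 * (152 * 3 * 3 ^ 6), ?_⟩
  filter_upwards [eventually_ge_atTop (100:ℝ)] with X hX
  have hX0 : 0 < X := by linarith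
  have hX1 : 1 ≤ X := by linarith
  have hL1 : 1 ≤ Real.log X := by
    rw [Real.le_log_iff_exp_le hX0]
    have := Real.exp_one_lt_d9
    linarith
  set F := ⌊X ^ (1 / 50 : ℝ)⌋₊ with hFdef
  have hF : (F:ℝ) ≤ X ^ (1 / 50 : ℝ) := Nat.floor_le (by positivity)
  have hgen : ∀ c : ℝ, 1 ≤ c → c ≤ 3 → ∑ f ∈ Icc 2 F, ∑ ψ ∈ Prim f, ‖psiLog (c * X) f ψ‖ ≤
      152 * 3 * 3 ^ 6 * X * (Real.log X) ^ 8 := by
    intro c hc1 hc3
    have h1 := LSBV.ls_psiLog (c * X) (by nlinarith) F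
      (hF.trans (Real.rpow_le_rpow hX0.le (by nlinarith) (by norm_num)))
    have h2 := log_cX X c hX hc1 hc3
    have h3 : 0 ≤ Real.log (c * X) := Real.log_nonneg (by nlinarith)
    refine h1.trans ?_
    calc 152 * (c * X) * (1 + Real.log (c * X)) ^ 6 ≤ 152 * (3 * X) * (3 * Real.log X) ^ 6 := by
          gcongr
          linarith
      _ = 152 * 3 * 3 ^ 6 * X * (Real.log X) ^ 6 := by ring
      _ ≤ _ := by
          gcongr 152 * 3 * 3 ^ 6 * X * ?_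
          exact pow_le_pow_right₀ hL1 (by norm_num)
  have e : ∑ f ∈ Icc 2 F, TG d X (fun n => ArithmeticFunction.vonMangoldt n) f =
      ∑ f ∈ Icc 2 F, ∑ ψ ∈ Prim f, ‖psiLog (Real.exp (1 / 2 - d) * X) f ψ‖ +
      2 * ∑ f ∈ Icc 2 F, ∑ ψ ∈ Prim f, ‖psiLog (Real.exp (1 / 2) * X) f ψ‖ +
      ∑ f ∈ Icc 2 F, ∑ ψ ∈ Prim f, ‖psiLog (Real.exp (1 / 2 + d) * X) f ψ‖ := by
    rw [mul_sum, ← sum_add_distrib, ← sum_add_distrib]
    exact sum_congr rfl fun f _ => TG_Lam d X f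
  rw [e]
  have a1 := hgen _ g1 g4
  have a2 := hgen _ g2 g5
  have a3 := hgen _ g3 g6
  linarith

/-- the facts for small conductors -/
def SCf (X : ℝ) (f : ℕ) : Prop := ∀ ψ : DirichletCharacter ℂ f, ψ.IsPrimitive →
  (∀ y : ℝ, X ^ (1 / 5 : ℝ) ≤ y → y ≤ 3 * X →
    ‖psiLog y f ψ‖ ≤ 5 * y * Real.exp (-(Real.log (Real.log X)) ^ 7)) ∧
  (∀ y : ℝ, X ^ (1 / 20 : ℝ) ≤ y → y ≤ 3 * X →
    ‖psiPhi ψ y‖ ≤ y * Real.exp (-(Real.log (Real.log X)) ^ 7))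

theorem TT_h2' : ∀ᶠ X : ℝ in atTop, ∀ f : ℕ, 1 < f → (f : ℝ) ≤ Real.exp ((Real.log (Real.log X)) ^ 6) →
    SCf X f → TT X f ≤ X * Real.exp ((Real.log (Real.log X)) ^ 6 - (Real.log (Real.log X)) ^ 7) := by
  filter_upwards [eventually_ge_atTop (1 : ℝ)] with X hX
  intro f hf1 hfe hsc
  have hX0 : 0 < X := by linarith
  refine (TT_le X f (by omega) _ (by positivity) (fun ψ hψ => (hsc ψ hψ).2 X ?_ (by linarith))).trans ?_
  · calc X ^ (1 / 20 : ℝ) ≤ X ^ (1 : ℝ) := Real.rpow_le_rpow_of_exponent_le hX (by norm_num)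
      _ = X := Real.rpow_one X
  calc (f : ℝ) * (X * Real.exp (-(Real.log (Real.log X)) ^ 7)) ≤
      Real.exp ((Real.log (Real.log X)) ^ 6) * (X * Real.exp (-(Real.log (Real.log X)) ^ 7)) :=
        mul_le_mul_of_nonneg_right hfe (by positivity)
    _ = X * (Real.exp ((Real.log (Real.log X)) ^ 6) * Real.exp (-(Real.log (Real.log X)) ^ 7)) := by ring
    _ = _ := by rw [← Real.exp_add, sub_eq_add_neg]

theorem prim_sum_le (f : ℕ) (hf : 1 ≤ f) (F : DirichletCharacter ℂ f → ℝ) (E : ℝ) (hE : 0 ≤ E)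
    (h : ∀ ψ ∈ Prim f, F ψ ≤ E) : ∑ ψ ∈ Prim f, F ψ ≤ f * E := by
  refine (sum_le_card_nsmul _ _ _ h).trans ?_
  rw [nsmul_eq_mul]
  apply mul_le_mul_of_nonneg_right _ hE
  exact (card_prim_le (by omega)).trans (by exact_mod_cast Nat.totient_le f)

theorem mem_Prim {f : ℕ} (ψ : DirichletCharacter ℂ f) (h : ψ ∈ Prim f) : ψ.IsPrimitive := by
  classical
  unfold Prim at h
  exact (mem_filter.1 h).2

theorem TGL_h2 (d : ℝ) (hd0 : 0 ≤ d) (hd : d ≤ 1 / 2) : ∀ᶠ X : ℝ in atTop, ∀ f : ℕ, 1 < f →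
    (f : ℝ) ≤ Real.exp ((Real.log (Real.log X)) ^ 6) → SCf X f →
    TG d X (fun n => ArithmeticFunction.vonMangoldt n) f ≤
      60 * X * Real.exp ((Real.log (Real.log X)) ^ 6 - (Real.log (Real.log X)) ^ 7) := by
  obtain ⟨g1, g2, g3, g4, g5, g6⟩ := exp_facts d hd0 hd
  filter_upwards [eventually_ge_atTop (1 : ℝ)] with X hX
  intro f hf1 hfe hsc
  have hX0 : 0 < X := by linarith
  have hgen : ∀ c : ℝ, 1 ≤ c → c ≤ 3 → ∑ ψ ∈ Prim f, ‖psiLog (c * X) f ψ‖ ≤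
      f * (15 * X * Real.exp (-(Real.log (Real.log X)) ^ 7)) := by
    intro c hc1 hc3
    apply prim_sum_le f hf1.le _ _ (by positivity)
    intro ψ hψ
    refine ((hsc ψ (mem_Prim ψ hψ)).1 (c * X) ?_ (mul_le_mul_of_nonneg_right hc3 hX0.le)).trans ?_
    · calc X ^ (1 / 5 : ℝ) ≤ X ^ (1 : ℝ) := Real.rpow_le_rpow_of_exponent_le hX (by norm_num)
        _ = X := Real.rpow_one X
        _ ≤ _ := by nlinarith
    · apply mul_le_mul_of_nonneg_right _ (Real.exp_pos _).le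
      nlinarith
  rw [TG_Lam]
  have a1 := hgen _ g1 g4
  have a2 := hgen _ g2 g5
  have a3 := hgen _ g3 g6
  have e : (f : ℝ) * (15 * X * Real.exp (-(Real.log (Real.log X)) ^ 7)) ≤
      15 * X * Real.exp ((Real.log (Real.log X)) ^ 6 - (Real.log (Real.log X)) ^ 7) := by
    calc (f : ℝ) * (15 * X * Real.exp (-(Real.log (Real.log X)) ^ 7)) ≤
        Real.exp ((Real.log (Real.log X)) ^ 6) * (15 * X * Real.exp (-(Real.log (Real.log X)) ^ 7)) :=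
          mul_le_mul_of_nonneg_right hfe (by positivity)
      _ = 15 * X * (Real.exp ((Real.log (Real.log X)) ^ 6) * Real.exp (-(Real.log (Real.log X)) ^ 7)) := by ring
      _ = _ := by rw [← Real.exp_add, sub_eq_add_neg]
  linarith

theorem large_cX (X c : ℝ) (hX : 100 ≤ X) (hc1 : 1 ≤ c) (hc3 : c ≤ 3) (F0 : ℕ)
    (h0 : X ^ (1 / 100 : ℝ) ≤ 2 * F0) : (c * X) ^ (1 / 100 : ℝ) ≤ 4 * F0 := by
  have hX0 : 0 < X := by linarith
  calc (c * X) ^ (1 / 100 : ℝ) = c ^ (1 / 100 : ℝ) * X ^ (1 / 100 : ℝ) :=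
        Real.mul_rpow (by linarith) hX0.le
    _ ≤ 2 * (2 * F0) := by
        apply mul_le_mul _ h0 (by positivity) (by norm_num)
        calc c ^ (1 / 100 : ℝ) ≤ 3 ^ (1 / 100 : ℝ) := by gcongr
          _ ≤ (2 ^ 2) ^ (1 / 100 : ℝ) := by gcongr; norm_num
          _ = 2 ^ (1 / 50 : ℝ) := by
              rw [← Real.rpow_natCast, ← Real.rpow_mul (by norm_num)]; norm_num
          _ ≤ 2 ^ (1 : ℝ) := Real.rpow_le_rpow_of_exponent_le (by norm_num) (by norm_num)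
          _ = 2 := Real.rpow_one 2
    _ = 4 * F0 := by ring

theorem c_rpow_le (X c e : ℝ) (hX : 0 < X) (hc1 : 1 ≤ c) (hc3 : c ≤ 3) (he0 : 0 ≤ e) (he : e ≤ 1) :
    (c * X) ^ e ≤ 3 * X ^ e := by
  rw [Real.mul_rpow (by linarith) hX.le]
  apply mul_le_mul_of_nonneg_right _ (by positivity)
  calc c ^ e ≤ 3 ^ e := Real.rpow_le_rpow (by linarith) hc3 he0
    _ ≤ 3 ^ (1 : ℝ) := Real.rpow_le_rpow_of_exponent_le (by norm_num) he
    _ = 3 := Real.rpow_one 3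

/-- large conductors save a power -/
theorem TGL_h3 (d : ℝ) (hd0 : 0 ≤ d) (hd : d ≤ 1 / 2) : ∀ᶠ X : ℝ in atTop, ∀ F0 F1 : ℕ, 2 ≤ F0 →
    X ^ (1 / 100 : ℝ) ≤ 2 * F0 → (F1 : ℝ) ≤ X ^ (623 / 1250 : ℝ) →
    ∑ f ∈ Icc F0 F1, (1 / (f : ℝ)) * TG d X (fun n => ArithmeticFunction.vonMangoldt n) f ≤
      X ^ (1997 / 2000 : ℝ) := by
  obtain ⟨g1, g2, g3, g4, g5, g6⟩ := exp_facts d hd0 hd
  filter_upwards [eventually_ge_atTop (100:ℝ), ev_log (4 * (1000 * 3) * 3 ^ 5) 5 (1 / 10000) (by norm_num)]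
    with X hX hlog
  intro F0 F1 h2 h0 h1
  have hX0 : 0 < X := by linarith
  have hX1 : 1 ≤ X := by linarith
  set L := Real.log X with hL
  have hL1 : 1 ≤ L := by
    rw [hL, Real.le_log_iff_exp_le hX0]
    have := Real.exp_one_lt_d9
    linarith
  have hgen : ∀ c : ℝ, 1 ≤ c → c ≤ 3 → ∑ f ∈ Icc F0 F1, (1 / (f : ℝ)) * ∑ ψ ∈ Prim f, ‖psiLog (c * X) f ψ‖ ≤
      1000 * (3 * X ^ (624 / 625 : ℝ)) * (3 * L) ^ 5 := by
    intro c hc1 hc3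
    have hcX : 4 ≤ c * X := by nlinarith
    have e1 : (F1 : ℝ) ≤ (c * X) ^ (623 / 1250 : ℝ) :=
      h1.trans (Real.rpow_le_rpow hX0.le (by nlinarith) (by norm_num))
    refine (BV.ls_large (c * X) hcX F0 F1 h2 (large_cX X c hX hc1 hc3 F0 h0) e1).trans ?_
    have e2 := c_rpow_le X c (624 / 625) hX0 hc1 hc3 (by norm_num) (by norm_num)
    have e3 := log_cX X c hX hc1 hc3
    have e4 : 0 ≤ Real.log (c * X) := Real.log_nonneg (by linarith)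
    gcongr
    linarith
  have hsum : ∑ f ∈ Icc F0 F1, (1 / (f : ℝ)) * TG d X (fun n => ArithmeticFunction.vonMangoldt n) f =
      ∑ f ∈ Icc F0 F1, (1 / (f : ℝ)) * ∑ ψ ∈ Prim f, ‖psiLog (Real.exp (1 / 2 - d) * X) f ψ‖ +
      2 * ∑ f ∈ Icc F0 F1, (1 / (f : ℝ)) * ∑ ψ ∈ Prim f, ‖psiLog (Real.exp (1 / 2) * X) f ψ‖ +
      ∑ f ∈ Icc F0 F1, (1 / (f : ℝ)) * ∑ ψ ∈ Prim f, ‖psiLog (Real.exp (1 / 2 + d) * X) f ψ‖ := by
    rw [mul_sum, ← sum_add_distrib, ← sum_add_distrib]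
    apply sum_congr rfl
    intro f _
    rw [TG_Lam]
    ring
  rw [hsum]
  have a1 := hgen _ g1 g4
  have a2 := hgen _ g2 g5
  have a3 := hgen _ g3 g6
  have hfin : 4 * (1000 * (3 * X ^ (624 / 625 : ℝ)) * (3 * L) ^ 5) ≤ X ^ (1997 / 2000 : ℝ) := by
    calc 4 * (1000 * (3 * X ^ (624 / 625 : ℝ)) * (3 * L) ^ 5) =
        (4 * (1000 * 3) * 3 ^ 5 * L ^ 5) * X ^ (624 / 625 : ℝ) := by ring
      _ ≤ X ^ (1 / 10000 : ℝ) * X ^ (624 / 625 : ℝ) := by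
          apply mul_le_mul_of_nonneg_right hlog (by positivity)
      _ = X ^ (1 / 10000 + 624 / 625 : ℝ) := by rw [Real.rpow_add hX0]
      _ = X ^ (1997 / 2000 : ℝ) := by norm_num
  linarith

end Pool.Agent.J4H73.CG
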